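import Pool.Agent.H527.ME.Stm
import Pool.Agent.H985.Chow.Typ

/-!
# Type II sums with coefficients bounded by a divisor function (task BIG; helper253)
-/

set_option autoImplicit false

namespace Pool.Agent.H527.ME

open Polynomial Finset
open scoped Classical
open Pool.Agent.H694.Typ (Mn Irn card_Mn)

namespace Big

theorem irn_le {K : Type} [Field K] [Fintype K] (i : ℕ) :
    ((Irn K i).card : ℝ) ≤ (Fintype.card K : ℝ) ^ i := by
  have h : (Irn K i).card ≤ (Mn K i).card := by
    unfold Pool.Agent.H694.Typ.Irn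
    exact card_filter_le _ _
  rw [card_Mn] at h
  exact_mod_cast h

/-- the small part -/
noncomputable def b1 {K : Type} [Field K] (T : ℝ) (b : K[X] → ℝ) (B : K[X]) : ℝ :=
  if |b B| ≤ T then b B else 0

/-- the large part -/
noncomputable def b2 {K : Type} [Field K] (T : ℝ) (b : K[X] → ℝ) (B : K[X]) : ℝ :=
  if |b B| ≤ T then 0 else b B

theorem b_eq {K : Type} [Field K] (T : ℝ) (b : K[X] → ℝ) (B : K[X]) :
    b B = b1 T b B + b2 T b B := by
  unfold b1 b2
  split_ifs <;> ring

theorem b1_le {K : Type} [Field K] (T : ℝ) (hT : 1 ≤ T) (b : K[X] → ℝ) (B : K[X]) :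
    |b1 T b B / T| ≤ 1 := by
  have hT0 : 0 < T := by linarith
  rw [abs_div, abs_of_pos hT0, div_le_one hT0]
  unfold b1
  split_ifs with h
  · exact h
  · rw [abs_zero]
    exact hT0.le

theorem b2_le {K : Type} [Field K] (T D : ℝ) (hT : 1 ≤ T) (b : K[X] → ℝ) (B : K[X])
    (hD : |b B| ≤ D) : |b2 T b B| ≤ D ^ 2 / T := by
  have hT0 : 0 < T := by linarith
  unfold b2
  split_ifs with h
  · rw [abs_zero]
    positivity
  · rw [le_div_iff₀ hT0]
    push Not at h
    calc |b B| * T ≤ |b B| * |b B| := mul_le_mul_of_nonneg_left h.le (abs_nonneg _)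
      _ ≤ D * D := mul_le_mul hD hD (abs_nonneg _) ((abs_nonneg _).trans hD)
      _ = D ^ 2 := by ring

end Big

open Big in
theorem big (h : S_div) : S_big := by
  intro K _ _ n d i T Δ φ α b hin hT hΔ hφ hα hb hTII
  have hT0 : 0 < T := by linarith
  have hsplit : ∑ p ∈ Irn K i, ∑ B ∈ Mn K (n - i), α p * b B * φ (p * B) =
      T * (∑ p ∈ Irn K i, ∑ B ∈ Mn K (n - i), α p * (b1 T b B / T) * φ (p * B)) +
        ∑ p ∈ Irn K i, ∑ B ∈ Mn K (n - i), α p * b2 T b B * φ (p * B) := by
    rw [mul_sum, ← sum_add_distrib]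
    apply sum_congr rfl
    intro p _
    rw [mul_sum, ← sum_add_distrib]
    apply sum_congr rfl
    intro B _
    rw [b_eq T b B]
    field_simp
  have h1 := hTII α (fun B => b1 T b B / T) hα (b1_le T hT b)
  have h2 : |∑ p ∈ Irn K i, ∑ B ∈ Mn K (n - i), α p * b2 T b B * φ (p * B)| ≤
      (d + 1) / T * (Fintype.card K : ℝ) ^ n := by
    have h3 : ∀ p ∈ Irn K i, |∑ B ∈ Mn K (n - i), α p * b2 T b B * φ (p * B)| ≤
        (d + 1) * (Fintype.card K : ℝ) ^ (n - i) / T := by
      intro p _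
      refine (abs_sum_le_sum_abs _ _).trans ?_
      have h4 : ∀ B ∈ Mn K (n - i), |α p * b2 T b B * φ (p * B)| ≤ (dv d B : ℝ) ^ 2 / T := by
        intro B _
        rw [abs_mul, abs_mul]
        calc |α p| * |b2 T b B| * |φ (p * B)| ≤ 1 * |b2 T b B| * 1 := by
              apply mul_le_mul _ (hφ _) (abs_nonneg _) (by positivity)
              exact mul_le_mul_of_nonneg_right (hα p) (abs_nonneg _)
          _ = |b2 T b B| := by ring
          _ ≤ (dv d B : ℝ) ^ 2 / T := b2_le T _ hT b B (hb B)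
      refine (sum_le_sum h4).trans ?_
      rw [← sum_div]
      exact div_le_div_of_nonneg_right (h K (n - i) d) hT0.le
    refine (abs_sum_le_sum_abs _ _).trans ((sum_le_sum h3).trans ?_)
    rw [sum_const, nsmul_eq_mul]
    have h5 : (Fintype.card K : ℝ) ^ n =
        (Fintype.card K : ℝ) ^ i * (Fintype.card K : ℝ) ^ (n - i) := by
      rw [← pow_add]
      congr 1
      omega
    calc ((Irn K i).card : ℝ) * ((d + 1) * (Fintype.card K : ℝ) ^ (n - i) / T)
        ≤ (Fintype.card K : ℝ) ^ i * ((d + 1) * (Fintype.card K : ℝ) ^ (n - i) / T) :=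
          mul_le_mul_of_nonneg_right (irn_le i) (by positivity)
      _ = (d + 1) / T * (Fintype.card K : ℝ) ^ n := by
          rw [h5]
          ring
  rw [hsplit]
  calc |T * (∑ p ∈ Irn K i, ∑ B ∈ Mn K (n - i), α p * (b1 T b B / T) * φ (p * B)) +
        ∑ p ∈ Irn K i, ∑ B ∈ Mn K (n - i), α p * b2 T b B * φ (p * B)|
      ≤ |T * (∑ p ∈ Irn K i, ∑ B ∈ Mn K (n - i), α p * (b1 T b B / T) * φ (p * B))| +
        |∑ p ∈ Irn K i, ∑ B ∈ Mn K (n - i), α p * b2 T b B * φ (p * B)| := abs_add_le _ _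
    _ ≤ T * (Δ * (Fintype.card K : ℝ) ^ n) + (d + 1) / T * (Fintype.card K : ℝ) ^ n := by
        apply add_le_add _ h2
        rw [abs_mul, abs_of_pos hT0]
        exact mul_le_mul_of_nonneg_left h1 hT0.le
    _ = (T * Δ + (d + 1) / T) * (Fintype.card K : ℝ) ^ n := by ring

end Pool.Agent.H527.ME
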