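import Pool.Agent.H527.ME.Stm

/-!
# Maximum over the classes and the degrees (task CH of project ME)
-/

set_option autoImplicit false

namespace Pool.Agent.H527.ME

open Polynomial Finset
open scoped Classical
open Pool.Agent.H694.Typ (Mn Irn mem_Mn card_Mn)

variable {K : Type} [Field K] [Fintype K]

namespace ChAux

omit [Fintype K] in
lemma deg_lt_of {h : K[X]} {d : ℕ} (h0 : h ≠ 0) (hd : h.natDegree < d) : h.degree < d := by
  rw [degree_eq_natDegree h0]
  exact_mod_cast hd

lemma deg_Mn {m : ℕ} {F : K[X]} (hF : F ∈ Mn K m) : F.degree = m := by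
  rw [mem_Mn] at hF
  rw [degree_eq_natDegree hF.1.ne_zero, hF.2]

/-- `F = M k + h` -/
lemma mem_iff {m d : ℕ} {M h : K[X]} (hM : M ∈ Mn K d) (h0 : h ≠ 0) (hh : h.natDegree < d)
    (hm : d ≤ m) (k : K[X]) : M * k + h ∈ Mn K m ↔ k ∈ Mn K (m - d) := by
  have hMd := deg_Mn hM
  have hM' := hM
  rw [mem_Mn] at hM'
  have hhd := deg_lt_of h0 hh
  constructor
  · intro hF
    have hFd := deg_Mn hF
    rw [mem_Mn] at hF
    have h1 : (M * k).Monic := by
      have h2 : M * k = (M * k + h) - h := by ring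
      rw [h2]
      apply hF.1.sub_of_left
      rw [hFd]
      exact lt_of_lt_of_le hhd (by exact_mod_cast hm)
    have hk : k.Monic := hM'.1.of_mul_monic_left h1
    rw [mem_Mn]
    refine ⟨hk, ?_⟩
    have h3 : (M * k).natDegree = m := by
      have h2 : M * k = (M * k + h) - h := by ring
      have h4 : (M * k).degree = m := by
        rw [h2, degree_sub_eq_left_of_degree_lt]
        · exact hFd
        · rw [hFd]
          exact lt_of_lt_of_le hhd (by exact_mod_cast hm)
      exact natDegree_eq_of_degree_eq_some h4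
    rw [hM'.1.natDegree_mul hk, hM'.2] at h3
    omega
  · intro hk
    rw [mem_Mn] at hk
    have h1 : (M * k).Monic := hM'.1.mul hk.1
    have h2 : (M * k).natDegree = m := by
      rw [hM'.1.natDegree_mul hk.1, hM'.2, hk.2]
      omega
    have h3 : (M * k).degree = m := by rw [degree_eq_natDegree h1.ne_zero, h2]
    have h4 : h.degree < (M * k).degree := by
      rw [h3]
      exact lt_of_lt_of_le hhd (by exact_mod_cast hm)
    rw [mem_Mn]
    refine ⟨h1.add_of_left h4, ?_⟩
    apply natDegree_eq_of_degree_eq_some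
    rw [degree_add_eq_left_of_degree_lt h4, h3]

lemma sum_par {m d : ℕ} {M h : K[X]} (hM : M ∈ Mn K d) (h0 : h ≠ 0) (hh : h.natDegree < d)
    (hm : d ≤ m) (f : K[X] → ℝ) :
    ∑ F ∈ (Mn K m).filter (fun F => M ∣ F - h), f F = ∑ k ∈ Mn K (m - d), f (M * k + h) := by
  have hM0 : M ≠ 0 := (mem_Mn.1 hM).1.ne_zero
  symm
  refine Finset.sum_bij (fun k _ => M * k + h) ?_ ?_ ?_ ?_
  · intro k hk
    rw [mem_filter, mem_iff hM h0 hh hm]
    exact ⟨hk, ⟨k, by ring⟩⟩
  · intro k _ k' _ he
    exact mul_left_cancel₀ hM0 (add_right_cancel he)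
  · intro F hF
    rw [mem_filter] at hF
    obtain ⟨hF1, k, hk⟩ := hF
    have h1 : F = M * k + h := by rw [← hk]; ring
    rw [h1, mem_iff hM h0 hh hm] at hF1
    exact ⟨k, hF1, h1.symm⟩
  · intro k _
    rfl

/-- the trivial bound -/
lemma triv {m n s d : ℕ} {M h : K[X]} (hM : M ∈ Mn K d) (h0 : h ≠ 0) (hh : h.natDegree < d)
    (hds : d + s ≤ n) (hm : m ≤ n - s) (a : K[X] → ℝ) (ha : ∀ F, |a F| ≤ 1) :
    |∑ F ∈ (Mn K m).filter (fun F => M ∣ F - h), a F| ≤ (Fintype.card K : ℝ) ^ (n - s - d) := by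
  have hq : (1 : ℝ) ≤ Fintype.card K := by
    have := Pool.Agent.H694.Typ.q_ge (k := K)
    linarith
  rcases le_or_gt d m with hdm | hdm
  · rw [sum_par hM h0 hh hdm]
    calc |∑ k ∈ Mn K (m - d), a (M * k + h)| ≤ ∑ k ∈ Mn K (m - d), |a (M * k + h)| :=
          abs_sum_le_sum_abs _ _
      _ ≤ ∑ k ∈ Mn K (m - d), (1 : ℝ) := sum_le_sum fun k _ => ha _
      _ = (Fintype.card K : ℝ) ^ (m - d) := by
          rw [sum_const, nsmul_eq_mul, mul_one, card_Mn]
          push_cast
          rfl
      _ ≤ (Fintype.card K : ℝ) ^ (n - s - d) := pow_le_pow_right₀ hq (by omega)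
  · have hsub : (Mn K m).filter (fun F => M ∣ F - h) ⊆ {h} := by
      intro F hF
      rw [mem_filter] at hF
      rw [mem_singleton]
      by_contra hne
      have h1 : F - h ≠ 0 := sub_ne_zero.2 hne
      have h2 := degree_le_of_dvd hF.2 h1
      rw [deg_Mn hM] at h2
      have h3 : (F - h).degree < d := by
        refine lt_of_le_of_lt (degree_sub_le _ _) (max_lt ?_ (deg_lt_of h0 hh))
        rw [deg_Mn hF.1]
        exact_mod_cast hdm
      exact absurd h2 (not_le.2 h3)
    calc |∑ F ∈ (Mn K m).filter (fun F => M ∣ F - h), a F|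
        ≤ ∑ F ∈ (Mn K m).filter (fun F => M ∣ F - h), |a F| := abs_sum_le_sum_abs _ _
      _ ≤ ∑ F ∈ (Mn K m).filter (fun F => M ∣ F - h), (1 : ℝ) := sum_le_sum fun k _ => ha _
      _ ≤ ∑ F ∈ ({h} : Finset K[X]), (1 : ℝ) :=
          sum_le_sum_of_subset_of_nonneg hsub fun _ _ _ => zero_le_one
      _ = 1 := by simp
      _ ≤ _ := one_le_pow₀ hq

/-- the sign -/
noncomputable def sg (x : ℝ) : ℝ := if 0 ≤ x then 1 else -1

lemma sg_mul (x : ℝ) : sg x * x = |x| := by
  unfold sg
  split_ifs with h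
  · rw [one_mul, abs_of_nonneg h]
  · rw [abs_of_neg (not_le.1 h)]
    ring

lemma sg_abs (x : ℝ) : |sg x| ≤ 1 := by
  unfold sg
  split_ifs
  · rw [abs_one]
  · rw [abs_neg, abs_one]

end ChAux

open ChAux

theorem ch : S_ch := by
  intro K _ _ n d z s wf a H D hh mm ha hds hH hhH hmm hyp
  have hq : (1 : ℝ) ≤ Fintype.card K := by
    have := Pool.Agent.H694.Typ.q_ge (k := K)
    linarith
  have hdn : d ≤ n - s := by omega
  set G : K[X] → ℝ := fun M => |∑ F ∈ (Mn K (mm M)).filter (fun F => M ∣ F - hh M), a F| with hG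
  -- small degrees
  have hA : ∑ M ∈ (Mn K d).filter (fun M => mm M ≤ n - s), G M ≤ (Fintype.card K : ℝ) ^ (n - s) := by
    calc ∑ M ∈ (Mn K d).filter (fun M => mm M ≤ n - s), G M
        ≤ ∑ M ∈ (Mn K d).filter (fun M => mm M ≤ n - s), (Fintype.card K : ℝ) ^ (n - s - d) := by
          refine sum_le_sum fun M hM => ?_
          rw [mem_filter] at hM
          obtain ⟨e1, e2⟩ := hH _ (hhH M)
          exact triv hM.1 e1 e2 hds hM.2 a ha
      _ ≤ ∑ M ∈ Mn K d, (Fintype.card K : ℝ) ^ (n - s - d) :=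
          sum_le_sum_of_subset_of_nonneg (filter_subset _ _) fun _ _ _ => by positivity
      _ = (Fintype.card K : ℝ) ^ (n - s) := by
          rw [sum_const, nsmul_eq_mul, card_Mn]
          push_cast
          rw [← pow_add]
          congr 1
          omega
  -- large degrees
  have hB : ∀ m ∈ Ioc (n - s) n,
      ∑ M ∈ ((Mn K d).filter (fun M => ¬ mm M ≤ n - s)).filter (fun M => mm M = m), G M ≤
        H.card * D + (Fintype.card K : ℝ) ^ d * exc K z (wf m) (m - d) := by
    intro m hm
    rw [mem_Ioc] at hm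
    have hdm : d ≤ m := by omega
    set B : Finset K[X] := ((Mn K d).filter (fun M => ¬ mm M ≤ n - s)).filter
      (fun M => mm M = m) with hBdef
    have hBmem : ∀ M ∈ B, M ∈ Mn K d ∧ mm M = m := by
      intro M hM
      rw [hBdef, mem_filter, mem_filter] at hM
      exact ⟨hM.1.1, hM.2⟩
    set S : K[X] → K[X] → ℝ := fun h M =>
      ∑ k ∈ (Mn K (m - d)).filter (fun k => om z (wf m) k ≠ 0), a (M * k + h) with hS
    have h1 : ∀ M ∈ B, G M ≤ |S (hh M) M| + exc K z (wf m) (m - d) := by
      intro M hM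
      obtain ⟨hM1, hM2⟩ := hBmem M hM
      obtain ⟨e1, e2⟩ := hH _ (hhH M)
      simp only [hG, hM2]
      rw [sum_par hM1 e1 e2 hdm,
        ← sum_filter_add_sum_filter_not (Mn K (m - d)) (fun k => om z (wf m) k ≠ 0)]
      refine (abs_add_le _ _).trans (add_le_add le_rfl ?_)
      calc |∑ k ∈ (Mn K (m - d)).filter (fun k => ¬ om z (wf m) k ≠ 0), a (M * k + hh M)|
          ≤ ∑ k ∈ (Mn K (m - d)).filter (fun k => ¬ om z (wf m) k ≠ 0), |a (M * k + hh M)| :=
            abs_sum_le_sum_abs _ _
        _ ≤ ∑ k ∈ (Mn K (m - d)).filter (fun k => ¬ om z (wf m) k ≠ 0), (1 : ℝ) :=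
            sum_le_sum fun k _ => ha _
        _ = exc K z (wf m) (m - d) := by
            rw [sum_const, nsmul_eq_mul, mul_one, exc]
            congr 2
            ext k
            simp only [mem_filter, not_not]
    have h2 : ∑ M ∈ B, |S (hh M) M| ≤ H.card * D := by
      rw [← sum_fiberwise_of_maps_to (t := H) (g := hh) (fun M _ => hhH M)]
      have h3 : ∀ h ∈ H, ∑ M ∈ B.filter (fun M => hh M = h), |S (hh M) M| ≤ D := by
        intro h hhmem
        have h4 := hyp m hm.1 hm.2 h hhmem
          (fun M => if M ∈ B.filter (fun M => hh M = h) then sg (S h M) else 0) (by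
            intro M
            split_ifs
            · exact sg_abs _
            · rw [abs_zero]
              exact zero_le_one)
        have h5 : ∑ M ∈ Mn K d, (if M ∈ B.filter (fun M => hh M = h) then sg (S h M) else 0) *
            ∑ k ∈ (Mn K (m - d)).filter (fun k => om z (wf m) k ≠ 0), a (M * k + h) =
            ∑ M ∈ B.filter (fun M => hh M = h), |S (hh M) M| := by
          have h6 : B.filter (fun M => hh M = h) =
              (Mn K d).filter (fun M => M ∈ B.filter (fun M => hh M = h)) := by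
            ext M
            rw [mem_filter (s := Mn K d)]
            constructor
            · intro hM
              exact ⟨(hBmem M (mem_filter.1 hM).1).1, hM⟩
            · exact fun hM => hM.2
          conv_rhs => rw [h6]
          rw [sum_filter]
          refine sum_congr rfl fun M _ => ?_
          split_ifs with hM
          · have h7 : hh M = h := (mem_filter.1 hM).2
            rw [h7]
            exact sg_mul _
          · rw [zero_mul]
        rw [h5] at h4
        exact (le_abs_self _).trans h4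
      calc ∑ h ∈ H, ∑ M ∈ B.filter (fun M => hh M = h), |S (hh M) M| ≤ ∑ h ∈ H, D :=
            sum_le_sum h3
        _ = H.card * D := by rw [sum_const, nsmul_eq_mul]
    calc ∑ M ∈ B, G M ≤ ∑ M ∈ B, (|S (hh M) M| + exc K z (wf m) (m - d)) := sum_le_sum h1
      _ = ∑ M ∈ B, |S (hh M) M| + B.card * exc K z (wf m) (m - d) := by
          rw [sum_add_distrib, sum_const, nsmul_eq_mul]
      _ ≤ H.card * D + (Fintype.card K : ℝ) ^ d * exc K z (wf m) (m - d) := by
          refine add_le_add h2 (mul_le_mul_of_nonneg_right ?_ (Nat.cast_nonneg _))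
          have h8 : B.card ≤ (Mn K d).card := card_le_card fun M hM => (hBmem M hM).1
          rw [card_Mn] at h8
          exact_mod_cast h8
  rw [← sum_filter_add_sum_filter_not (Mn K d) (fun M => mm M ≤ n - s)]
  refine add_le_add hA ?_
  rw [← sum_fiberwise_of_maps_to (t := Ioc (n - s) n) (g := mm) (fun M hM => by
    rw [mem_filter, not_le] at hM
    rw [mem_Ioc]
    exact ⟨hM.2, hmm M⟩)]
  exact sum_le_sum hB

end Pool.Agent.H527.ME
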