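import Mathlib
import Pool.Agent.H251.SP.Stm

/-!
# Elliott-Halberstam for the Moebius and Liouville functions over `F_q[X]`, `q` even, in fixed residue
classes (helper527): statements of the parts

The sum over the monic `F = h (mod M)` of degree `n` is a sum over `F = M k + h`, `k` monic of degree
`n - d`.  The `k` with a prime divisor `P` of degree in `[z, w]` are treated with the type II estimate
`S_tii` of helper251 (`F = P (M k') + h`), the others are few.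
Throughout `q` is the number of the elements of the finite field `K`, `M` is monic of degree `d`.
-/

set_option autoImplicit false

namespace Pool.Agent.H527.ME

open Polynomial Finset
open scoped Classical
open Pool.Agent.H985.Chow (mob)
open Pool.Agent.H985.KP (mobg)
open Pool.Agent.H694.Typ (Mn Irn)
open Pool.Agent.H251.SP (lam S_tii)

/-- The number of the monic irreducible divisors of `k` of degree between `z` and `w`. -/
noncomputable def om {K : Type} [Field K] [Fintype K] (z w : ℕ) (k : K[X]) : ℕ :=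
  ∑ i ∈ Icc z w, ((Irn K i).filter (fun P => P ∣ k)).card

/-- The number of the monic `k` of degree `j` without irreducible divisor of degree in `[z, w]`. -/
noncomputable def exc (K : Type) [Field K] [Fintype K] (z w j : ℕ) : ℕ :=
  ((Mn K j).filter (fun k => om z w k = 0)).card

/-- The number of the monic divisors of `B` of degree `d`. -/
noncomputable def dv {K : Type} [Field K] [Fintype K] (d : ℕ) (B : K[X]) : ℕ :=
  ((Mn K d).filter (fun M => M ∣ B)).card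

/-- `f (P k) = f P f k` for the irreducible `P` of degree `≥ z` not dividing `k`. -/
def Mul {K : Type} [Field K] (z : ℕ) (f : K[X] → ℝ) : Prop :=
  ∀ P k : K[X], P.Monic → Irreducible P → z ≤ P.natDegree → ¬ P ∣ k → f (P * k) = f P * f k

/-- The type II bound for the function `φ` at the degree `i`. -/
def TII {K : Type} [Field K] [Fintype K] (n i : ℕ) (Δ : ℝ) (φ : K[X] → ℝ) : Prop :=
  ∀ α β : K[X] → ℝ, (∀ p, |α p| ≤ 1) → (∀ B, |β B| ≤ 1) →
    |∑ p ∈ Irn K i, ∑ B ∈ Mn K (n - i), α p * β B * φ (p * B)| ≤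
      Δ * (Fintype.card K : ℝ) ^ n

/-- **Task REC.**  The recursion for the exceptional polynomials. -/
def S_rec : Prop :=
  ∀ (K : Type) [Field K] [Fintype K] (z w j : ℕ),
    j * exc K z w j ≤ ∑ m ∈ Icc 1 j,
      (∑ i ∈ m.divisors.filter (fun i => ¬ (z ≤ i ∧ i ≤ w)), i * (Irn K i).card) *
        exc K z w (j - m)

/-- **Task SMO.**  Smooth polynomials. -/
def S_smo : Prop :=
  ∀ (K : Type) [Field K] [Fintype K] (z w j : ℕ), 4 ≤ z → j ≤ w →
    (exc K z w j : ℝ) ≤ (Fintype.card K : ℝ) ^ (Fintype.card K + 3) *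
      (Fintype.card K : ℝ) ^ ((j : ℝ) - (j : ℝ) / z)

/-- **Task EXC.**  Polynomials without prime factors of degree in `[z, w]`. -/
def S_exc : Prop :=
  ∀ (K : Type) [Field K] [Fintype K] (z w j : ℕ), 4 ≤ z → z ≤ w → w ≤ j →
    (exc K z w j : ℝ) ≤ 2 * (Fintype.card K : ℝ) ^ (Fintype.card K + 3) * 3 ^ (j / w) *
      ((z : ℝ) / w) * (Fintype.card K : ℝ) ^ j

/-- **Task DIV.**  The second moment of the number of the divisors of degree `d`. -/
def S_div : Prop :=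
  ∀ (K : Type) [Field K] [Fintype K] (r d : ℕ),
    ∑ B ∈ Mn K r, (dv d B : ℝ) ^ 2 ≤ (d + 1) * (Fintype.card K : ℝ) ^ r

/-- **Task PW.**  The pointwise identity up to squares. -/
def S_pw : Prop :=
  ∀ (K : Type) [Field K] [Fintype K] (z w : ℕ) (f : K[X] → ℝ) (k : K[X]), 1 ≤ z → Mul z f →
    (∀ k, |f k| ≤ 1) → k ≠ 0 → om z w k ≠ 0 →
    |f k - ∑ i ∈ Icc z w, ∑ P ∈ (Irn K i).filter (fun P => P ∣ k),
      f P * f (k / P) / (1 + (om z w (k / P) : ℝ))| ≤
      2 * ∑ i ∈ Icc z w, (((Irn K i).filter (fun P => P ^ 2 ∣ k)).card : ℝ)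

/-- **Task BIG.**  Type II sums with coefficients bounded by the number of the divisors of degree `d`. -/
def S_big : Prop :=
  ∀ (K : Type) [Field K] [Fintype K] (n d i : ℕ) (T Δ : ℝ) (φ α b : K[X] → ℝ), i ≤ n → 1 ≤ T →
    0 ≤ Δ → (∀ B, |φ B| ≤ 1) → (∀ p, |α p| ≤ 1) → (∀ B, |b B| ≤ dv d B) → TII n i Δ φ →
    |∑ p ∈ Irn K i, ∑ B ∈ Mn K (n - i), α p * b B * φ (p * B)| ≤
      (T * Δ + (d + 1) / T) * (Fintype.card K : ℝ) ^ n

/-- **Task GEN.**  The sum over the `k` with a prime divisor of degree in `[z, w]`. -/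
def S_gen : Prop :=
  ∀ (K : Type) [Field K] [Fintype K] (n d z w : ℕ) (T Δ : ℝ) (φ f c : K[X] → ℝ), 1 ≤ z →
    d + w ≤ n → 1 ≤ T → 0 ≤ Δ → (∀ B, |φ B| ≤ 1) → Mul z f → (∀ k, |f k| ≤ 1) →
    (∀ M, |c M| ≤ 1) → (∀ i ∈ Icc z w, TII n i Δ φ) →
    |∑ M ∈ Mn K d, c M * ∑ k ∈ (Mn K (n - d)).filter (fun k => om z w k ≠ 0), f k * φ (M * k)| ≤
      n * (T * Δ + (n + 1) / T) * (Fintype.card K : ℝ) ^ n +
        4 * (Fintype.card K : ℝ) ^ ((n : ℝ) - z)

/-- The bound for the typical `k`, for a function `a` on `K[X]`. -/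
def S_typ (a : ∀ (K : Type) [Field K], K[X] → ℤ) : Prop :=
  ∀ (K : Type) [Field K] [Fintype K] [CharP K 2] (ε : ℝ), 0 < ε →
    ∃ (C : ℕ) (c : ℝ), 0 < c ∧ ∃ n₀ : ℕ, ∀ n : ℕ, n₀ ≤ n →
    ∀ (d z w : ℕ) (h : K[X]) (f u : K[X] → ℝ), 1 ≤ z → d + w ≤ n → (w : ℝ) ≤ (1 / 4 - ε) * n →
      h ≠ 0 → h.natDegree < n → Mul z f → (∀ k, |f k| ≤ 1) → (∀ M, |u M| ≤ 1) →
      |∑ M ∈ Mn K d, u M * ∑ k ∈ (Mn K (n - d)).filter (fun k => om z w k ≠ 0),
        f k * (a K (M * k + h) : ℝ)| ≤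
        (n : ℝ) ^ C * (Fintype.card K : ℝ) ^ n *
          ((Fintype.card K : ℝ) ^ (-c * z) + (Fintype.card K : ℝ) ^ (-c * n))

/-- The Moebius function. -/
noncomputable def mobF (K : Type) [Field K] : K[X] → ℤ := mob

/-- The Liouville function. -/
noncomputable def lamF (K : Type) [Field K] : K[X] → ℤ := lam

/-- **Task TYPM.** -/
def S_typm : Prop := S_tii → S_gen → S_typ mobF

/-- **Task TYPL.** -/
def S_typl : Prop := S_tii → S_gen → S_div → S_typ lamF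

/-- **Task CH.**  From the bounds for single classes to the maximum over the classes `h ∈ H` and the
degrees `m ≤ n` (`hh M` and `mm M` are the choices for the modulus `M`). -/
def S_ch : Prop :=
  ∀ (K : Type) [Field K] [Fintype K] (n d z s : ℕ) (wf : ℕ → ℕ) (a : K[X] → ℝ) (H : Finset K[X])
    (D : ℝ) (hh : K[X] → K[X]) (mm : K[X] → ℕ), (∀ F, |a F| ≤ 1) → d + s ≤ n →
    (∀ h ∈ H, h ≠ 0 ∧ h.natDegree < d) → (∀ M, hh M ∈ H) → (∀ M, mm M ≤ n) →
    (∀ m, n - s < m → m ≤ n → ∀ h ∈ H, ∀ u : K[X] → ℝ, (∀ M, |u M| ≤ 1) →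
      |∑ M ∈ Mn K d, u M * ∑ k ∈ (Mn K (m - d)).filter (fun k => om z (wf m) k ≠ 0),
        a (M * k + h)| ≤ D) →
    ∑ M ∈ Mn K d, |∑ F ∈ (Mn K (mm M)).filter (fun F => M ∣ F - hh M), a F| ≤
      (Fintype.card K : ℝ) ^ (n - s) + ∑ m ∈ Ioc (n - s) n,
        (H.card * D + (Fintype.card K : ℝ) ^ d * exc K z (wf m) (m - d))

/-- The weak saving, all degrees `d < n` of the modulus. -/
def S_one (a : ∀ (K : Type) [Field K], K[X] → ℤ) : Prop :=
  ∀ (K : Type) [Field K] [Fintype K] [CharP K 2], ∃ C : ℝ, 0 < C ∧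
    ∀ (n d : ℕ) (H : Finset K[X]) (hh : K[X] → K[X]) (mm : K[X] → ℕ), 2 ≤ n → d < n →
      (∀ h ∈ H, h ≠ 0 ∧ h.natDegree < d) → (∀ M, hh M ∈ H) → (∀ M, mm M ≤ n) →
      ∑ M ∈ Mn K d, |∑ F ∈ (Mn K (mm M)).filter (fun F => M ∣ F - hh M), (a K F : ℝ)| ≤
        C * ((Real.log n + Real.log H.card) / ((n : ℝ) - d)) * (Fintype.card K : ℝ) ^ n

/-- The strong saving, `d` between `(3 / 4 + ε) n` and `n`. -/
def S_two (a : ∀ (K : Type) [Field K], K[X] → ℤ) : Prop :=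
  ∀ (K : Type) [Field K] [Fintype K] [CharP K 2] (ε : ℝ), 0 < ε → ∃ C c : ℝ, 0 < C ∧ 0 < c ∧
    ∀ (n d : ℕ) (H : Finset K[X]) (hh : K[X] → K[X]) (mm : K[X] → ℕ), 2 ≤ n → d < n →
      (3 / 4 + ε) * n ≤ d → (∀ h ∈ H, h ≠ 0 ∧ h.natDegree < d) →
      (∀ M, hh M ∈ H) → (∀ M, mm M ≤ n) →
      ∑ M ∈ Mn K d, |∑ F ∈ (Mn K (mm M)).filter (fun F => M ∣ F - hh M), (a K F : ℝ)| ≤
        C * (Fintype.card K : ℝ) ^ n * Real.exp (-(c * ((n : ℝ) - d) /
          (√((n : ℝ) - d) + Real.log n + Real.log H.card)))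

/-- **Task ONE.** -/
def S_aone : Prop :=
  S_exc → S_ch → ∀ a : (∀ (K : Type) [Field K], K[X] → ℤ),
    (∀ (K : Type) [Field K] (F : K[X]), |(a K F : ℝ)| ≤ 1) → S_typ a → S_one a

/-- **Task TWO.** -/
def S_atwo : Prop :=
  S_smo → S_ch → ∀ a : (∀ (K : Type) [Field K], K[X] → ℤ),
    (∀ (K : Type) [Field K] (F : K[X]), |(a K F : ℝ)| ≤ 1) → S_typ a → S_two a

/-- The twisted version: `k` weighted by an arbitrary multiplicative function `f`. -/
def S_tw (a : ∀ (K : Type) [Field K], K[X] → ℤ) : Prop :=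
  ∀ (K : Type) [Field K] [Fintype K] [CharP K 2], ∃ C : ℝ, 0 < C ∧
    ∀ (n d : ℕ) (h : K[X]) (f : K[X] → ℝ), 2 ≤ n → d < n → h ≠ 0 →
      h.natDegree < n → Mul 0 f → (∀ k, |f k| ≤ 1) →
      ∑ M ∈ Mn K d, |∑ k ∈ Mn K (n - d), f k * (a K (M * k + h) : ℝ)| ≤
        C * (Real.log n / ((n : ℝ) - d)) * (Fintype.card K : ℝ) ^ n

/-- **Task TWI.** -/
def S_atw : Prop :=
  S_exc → ∀ a : (∀ (K : Type) [Field K], K[X] → ℤ),
    (∀ (K : Type) [Field K] (F : K[X]), |(a K F : ℝ)| ≤ 1) → S_typ a → S_tw a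

end Pool.Agent.H527.ME
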