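import Mathlib
import Pool.Agent.H527.ME.Stm

/-!
# From choices to maxima (helper527)
-/

set_option autoImplicit false

namespace Pool.Agent.H527.ME

open Polynomial Finset
open scoped Classical
open Pool.Agent.H694.Typ (Mn Irn mem_Mn)

/-- The sum of `a F` over the monic `F = h (mod M)` of degree `m`. -/
noncomputable def cs {K : Type} [Field K] (a : K[X] → ℤ) (m : ℕ) (M h : K[X]) : ℝ :=
  ∑ᶠ F ∈ {F : K[X] | F.Monic ∧ F.natDegree = m ∧ M ∣ F - h}, (a F : ℝ)

theorem cs_eq {K : Type} [Field K] [Fintype K] (a : K[X] → ℤ) (m : ℕ) (M h : K[X]) :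
    cs a m M h = ∑ F ∈ (Mn K m).filter (fun F => M ∣ F - h), (a F : ℝ) := by
  unfold cs
  have h3 : {F : K[X] | F.Monic ∧ F.natDegree = m ∧ M ∣ F - h} =
      ↑((Mn K m).filter (fun F => M ∣ F - h)) := by
    ext F
    rw [mem_coe, mem_filter, mem_Mn, and_assoc]
    rfl
  rw [h3, finsum_mem_coe_finset]

theorem finsum_Mn {K : Type} [Field K] [Fintype K] (d : ℕ) (g : K[X] → ℝ) :
    ∑ᶠ M ∈ {M : K[X] | M.Monic ∧ M.natDegree = d}, g M = ∑ M ∈ Mn K d, g M := by
  have h3 : {M : K[X] | M.Monic ∧ M.natDegree = d} = ↑(Mn K d) := by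
    ext F
    rw [mem_coe, mem_Mn]
    rfl
  rw [h3, finsum_mem_coe_finset]

/-- The largest value over the classes `h ∈ H` and the degrees `m ≤ n`. -/
noncomputable def mx {K : Type} [Field K] (a : K[X] → ℤ) (n : ℕ) (H : Finset K[X]) (M : K[X]) : ℝ :=
  ⨆ t : H × Fin (n + 1), |cs a t.2 M t.1|

/-- The maximum is attained. -/
theorem mx_att {K : Type} [Field K] [Fintype K] (a : K[X] → ℤ) (n : ℕ) (H : Finset K[X])
    (hH : H.Nonempty) :
    ∃ (hh : K[X] → K[X]) (mm : K[X] → ℕ), (∀ M, hh M ∈ H) ∧ (∀ M, mm M ≤ n) ∧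
      ∀ M, mx a n H M = |∑ F ∈ (Mn K (mm M)).filter (fun F => M ∣ F - hh M), (a F : ℝ)| := by
  have : Nonempty H := hH.to_subtype
  have h1 : ∀ M : K[X], ∃ t : H × Fin (n + 1), |cs a t.2 M t.1| = mx a n H M := fun M =>
    exists_eq_ciSup_of_finite
  choose t ht using h1
  refine ⟨fun M => (t M).1, fun M => (t M).2, fun M => (t M).1.2,
    fun M => Nat.lt_succ_iff.1 (t M).2.2, fun M => ?_⟩
  rw [← ht M, cs_eq]

end Pool.Agent.H527.ME
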