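import Mathlib
import Pool.Agent.H527.ME.Stm

/-!
# The second moment of the number of divisors of degree `d` (task DIV)
-/

set_option autoImplicit false

namespace Pool.Agent.H527.ME

open Polynomial Finset
open scoped Classical
open Pool.Agent.H694.Typ

namespace DivPf

section

variable {K : Type} [Field K]

/-- the monic common divisor -/
theorem exists_gcd {M M' : K[X]} (hM : M.Monic) (hM' : M'.Monic) :
    ∃ D a b : K[X], D.Monic ∧ a.Monic ∧ b.Monic ∧ M = D * a ∧ M' = D * b ∧ IsCoprime a b := by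
  set g := EuclideanDomain.gcd M M' with hg
  have hg0 : g ≠ 0 := by
    intro h
    exact hM.ne_zero (EuclideanDomain.gcd_eq_zero_iff.1 h).1
  have hl : g.leadingCoeff ≠ 0 := leadingCoeff_ne_zero.2 hg0
  set D := g * C g.leadingCoeff⁻¹ with hD
  have hDm : D.Monic := monic_mul_leadingCoeff_inv hg0
  have hgD : g = D * C g.leadingCoeff := by
    rw [hD, mul_assoc, ← C_mul, inv_mul_cancel₀ hl, C_1, mul_one]
  obtain ⟨a₀, ha₀⟩ := EuclideanDomain.gcd_dvd_left M M'
  obtain ⟨b₀, hb₀⟩ := EuclideanDomain.gcd_dvd_right M M'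
  rw [← hg] at ha₀ hb₀
  set a := C g.leadingCoeff * a₀ with ha
  set b := C g.leadingCoeff * b₀ with hb
  have h1 : M = D * a := by
    rw [ha, ← mul_assoc, ← hgD]
    exact ha₀
  have h2 : M' = D * b := by
    rw [hb, ← mul_assoc, ← hgD]
    exact hb₀
  have ham : a.Monic := by
    rw [h1] at hM
    exact hDm.of_mul_monic_left hM
  have hbm : b.Monic := by
    rw [h2] at hM'
    exact hDm.of_mul_monic_left hM'
  refine ⟨D, a, b, hDm, ham, hbm, h1, h2, ?_⟩
  have h3 := EuclideanDomain.gcd_eq_gcd_ab M M'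
  rw [← hg] at h3
  set x := EuclideanDomain.gcdA M M' with hx
  set y := EuclideanDomain.gcdB M M' with hy
  have h4 : D * C g.leadingCoeff = D * (a * x + b * y) := by
    rw [← hgD]
    calc g = M * x + M' * y := h3
      _ = D * a * x + D * b * y := by rw [← h1, ← h2]
      _ = D * (a * x + b * y) := by ring
  have h5 := mul_left_cancel₀ hDm.ne_zero h4
  refine ⟨C g.leadingCoeff⁻¹ * x, C g.leadingCoeff⁻¹ * y, ?_⟩
  calc C g.leadingCoeff⁻¹ * x * a + C g.leadingCoeff⁻¹ * y * b =
      C g.leadingCoeff⁻¹ * (a * x + b * y) := by ring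
    _ = C g.leadingCoeff⁻¹ * C g.leadingCoeff := by rw [← h5]
    _ = 1 := by rw [← C_mul, inv_mul_cancel₀ hl, C_1]

variable [Fintype K]

/-- the triples -/
noncomputable def T (K : Type) [Field K] [Fintype K] (d e : ℕ) : Finset (K[X] × K[X] × K[X]) :=
  Mn K e ×ˢ (Mn K (d - e) ×ˢ Mn K (d - e))

theorem card_T (d e : ℕ) (he : e ≤ d) : (T K d e).card = Fintype.card K ^ (2 * d - e) := by
  unfold T
  rw [card_product, card_product, card_Mn, card_Mn, ← pow_add, ← pow_add]
  refine congrArg _ ?_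
  omega

theorem dv_sq (d : ℕ) {B : K[X]} :
    (dv d B : ℝ) ^ 2 ≤ ∑ e ∈ range (d + 1),
      (((T K d e).filter (fun t => t.1 * t.2.1 * t.2.2 ∣ B)).card : ℝ) := by
  set S := (Mn K d).filter (fun M => M ∣ B) with hS
  have h1 : S ×ˢ S ⊆ (range (d + 1)).biUnion fun e =>
      ((T K d e).filter (fun t => t.1 * t.2.1 * t.2.2 ∣ B)).image
        (fun t => (t.1 * t.2.1, t.1 * t.2.2)) := by
    rintro ⟨M, M'⟩ h
    rw [mem_product] at h
    obtain ⟨h2, h3⟩ := h
    simp only [hS, mem_filter, mem_Mn] at h2 h3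
    obtain ⟨⟨hM, hMd⟩, hMB⟩ := h2
    obtain ⟨⟨hM', hMd'⟩, hMB'⟩ := h3
    obtain ⟨D, a, b, hD, ha, hb, e1, e2, hc⟩ := exists_gcd hM hM'
    have hda : D.natDegree + a.natDegree = d := by
      rw [← hMd, e1, hD.natDegree_mul ha]
    have hdb : D.natDegree + b.natDegree = d := by
      rw [← hMd', e2, hD.natDegree_mul hb]
    rw [mem_biUnion]
    refine ⟨D.natDegree, ?_, ?_⟩
    · rw [mem_range]; omega
    · rw [mem_image]
      refine ⟨(D, a, b), ?_, ?_⟩
      · rw [mem_filter]
        refine ⟨?_, ?_⟩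
        · unfold T
          rw [mem_product, mem_product, mem_Mn, mem_Mn, mem_Mn]
          refine ⟨⟨hD, rfl⟩, ⟨ha, ?_⟩, ⟨hb, ?_⟩⟩
          · show a.natDegree = d - D.natDegree
            omega
          · show b.natDegree = d - D.natDegree
            omega
        · show D * a * b ∣ B
          rw [e1] at hMB
          rw [e2] at hMB'
          obtain ⟨c, hc'⟩ := dvd_of_mul_right_dvd hMB
          rw [hc'] at hMB hMB' ⊢
          have h4 := (mul_dvd_mul_iff_left hD.ne_zero).1 hMB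
          have h5 := (mul_dvd_mul_iff_left hD.ne_zero).1 hMB'
          rw [mul_assoc]
          exact mul_dvd_mul_left D (hc.mul_dvd h4 h5)
      · show (D * a, D * b) = (M, M')
        rw [← e1, ← e2]
  have h2 : (S ×ˢ S).card ≤ ∑ e ∈ range (d + 1),
      ((T K d e).filter (fun t => t.1 * t.2.1 * t.2.2 ∣ B)).card :=
    (card_le_card h1).trans (card_biUnion_le.trans (sum_le_sum fun e _ => card_image_le))
  rw [card_product] at h2
  have h3 : dv d B = S.card := rfl
  rw [h3, pow_two]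
  exact_mod_cast h2

end

end DivPf

open DivPf in
theorem div' : S_div := by
  intro K _ _ r d
  have hq := q_ge (k := K)
  have h1 : ∑ B ∈ Mn K r, (dv d B : ℝ) ^ 2 ≤ ∑ B ∈ Mn K r, ∑ e ∈ range (d + 1),
      (((T K d e).filter (fun t => t.1 * t.2.1 * t.2.2 ∣ B)).card : ℝ) :=
    sum_le_sum fun B _ => dv_sq d
  refine h1.trans ?_
  rw [sum_comm]
  have h2 : ∀ e ∈ range (d + 1), ∑ B ∈ Mn K r,
      (((T K d e).filter (fun t => t.1 * t.2.1 * t.2.2 ∣ B)).card : ℝ) ≤
      (Fintype.card K : ℝ) ^ r := by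
    intro e he
    rw [mem_range] at he
    have e1 : ∑ B ∈ Mn K r, (((T K d e).filter (fun t => t.1 * t.2.1 * t.2.2 ∣ B)).card : ℝ) =
        ∑ t ∈ T K d e, (((Mn K r).filter (fun B => t.1 * t.2.1 * t.2.2 ∣ B)).card : ℝ) := by
      simp only [card_filter, Nat.cast_sum]
      rw [sum_comm]
    rw [e1]
    have e2 : ∀ t ∈ T K d e, (((Mn K r).filter (fun B => t.1 * t.2.1 * t.2.2 ∣ B)).card : ℝ) ≤
        (Fintype.card K : ℝ) ^ r * wt K (2 * d - e) := by
      intro t ht
      unfold T at ht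
      rw [mem_product, mem_product, mem_Mn, mem_Mn, mem_Mn] at ht
      obtain ⟨⟨a1, a2⟩, ⟨b1, b2⟩, c1, c2⟩ := ht
      have hm : (t.1 * t.2.1 * t.2.2).Monic := (a1.mul b1).mul c1
      have hd : (t.1 * t.2.1 * t.2.2).natDegree = 2 * d - e := by
        rw [(a1.mul b1).natDegree_mul c1, a1.natDegree_mul b1, a2, b2, c2]
        omega
      have h3 := card_dvd_le (n := r) hm
      rw [hd] at h3
      exact h3
    refine (sum_le_sum e2).trans (le_of_eq ?_)
    rw [sum_const, nsmul_eq_mul, card_T d e (by omega), Nat.cast_pow, wt]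
    have hpos : (0 : ℝ) < (Fintype.card K : ℝ) ^ (2 * d - e) := by positivity
    rw [mul_comm, mul_assoc, inv_mul_cancel₀ hpos.ne', mul_one]
  refine (sum_le_sum h2).trans (le_of_eq ?_)
  rw [sum_const, card_range, nsmul_eq_mul]
  push_cast
  ring

end Pool.Agent.H527.ME
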