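import Pool.Agent.H527.ME.Stm
import Pool.Agent.H985.Chow.Typ

/-!
# Polynomials without prime factors of degree in `[z, w]` (by helper720)
-/

set_option autoImplicit false

namespace Pool.Agent.H527.ME

open Polynomial Finset
open scoped Classical
open Pool.Agent.H694.Typ (Mn Irn card_Mn q_ge sum_irn irn_one_le geo)

namespace ExcAux

/-- the abstract induction -/
theorem abs_ind (e : ℕ → ℝ) (he : ∀ i, 0 ≤ e i) (z w : ℕ) (hz : 4 ≤ z) (hzw : z ≤ w) (A : ℝ)
    (hA : 2 ≤ A) (hR : ∀ j, 1 ≤ j → j * e j ≤ z + 4 + ∑ i ∈ range (j - w), e i)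
    (hS : ∑ i ∈ range (w + 1), e i ≤ A * z) (j : ℕ) (hj : w ≤ j) :
    e j ≤ A * 3 ^ (j / w) * ((z : ℝ) / w) := by
  have hz' : (4 : ℝ) ≤ z := by exact_mod_cast hz
  have hw : (0 : ℝ) < w := by
    have : 0 < w := by omega
    exact_mod_cast this
  have hmono : ∀ a b : ℕ, a ≤ b → ∑ i ∈ range a, e i ≤ ∑ i ∈ range b, e i := fun a b hab =>
    Finset.sum_le_sum_of_subset_of_nonneg (Finset.range_mono hab) fun i _ _ => he i
  have h3 : ∀ r : ℕ, (1 : ℝ) ≤ 3 ^ r := fun r => one_le_pow₀ (by norm_num)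
  have key : ∀ r : ℕ, ∑ i ∈ range ((r + 1) * w + 1), e i ≤ A * z * 3 ^ r := by
    intro r
    induction r with
    | zero =>
      rw [zero_add, one_mul, pow_zero, mul_one]
      exact hS
    | succ r ih =>
      have e1 : (r + 1 + 1) * w + 1 = ((r + 1) * w + 1) + w := by ring
      rw [e1, Finset.sum_range_add]
      have h4 : ∀ x ∈ range w, e ((r + 1) * w + 1 + x) ≤ 2 * A * z * 3 ^ r / w := by
        intro x hx
        rw [Finset.mem_range] at hx
        have h5 := hR ((r + 1) * w + 1 + x) (by omega)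
        have h6 : ∑ i ∈ range ((r + 1) * w + 1 + x - w), e i ≤ A * z * 3 ^ r :=
          (hmono _ _ (by omega)).trans ih
        have h7 : (w : ℝ) ≤ (((r + 1) * w + 1 + x : ℕ) : ℝ) := by
          have : w ≤ (r + 1) * w + 1 + x := by nlinarith
          exact_mod_cast this
        have h8 : (w : ℝ) * e ((r + 1) * w + 1 + x) ≤
            (((r + 1) * w + 1 + x : ℕ) : ℝ) * e ((r + 1) * w + 1 + x) :=
          mul_le_mul_of_nonneg_right h7 (he _)
        have h9 : (z : ℝ) + 4 ≤ A * z * 3 ^ r := by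
          have h10 : 2 * (z : ℝ) ≤ A * z := mul_le_mul_of_nonneg_right hA (by linarith)
          have h11 : A * z ≤ A * z * 3 ^ r := le_mul_of_one_le_right (by nlinarith) (h3 r)
          linarith
        rw [le_div_iff₀ hw]
        linarith
      have h12 := Finset.sum_le_sum h4
      rw [Finset.sum_const, Finset.card_range, nsmul_eq_mul, mul_div_cancel₀ _ hw.ne'] at h12
      rw [pow_succ]
      linarith
  obtain ⟨r, hr⟩ : ∃ r, j / w = r + 1 := by
    have h1 : 1 ≤ j / w := (Nat.one_le_div_iff (by omega)).2 hj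
    exact ⟨j / w - 1, by omega⟩
  have h1 : j < (r + 2) * w := by
    have h2 := Nat.lt_div_mul_add (a := j) (b := w) (by omega)
    rw [hr] at h2
    linarith
  have h2 := hR j (by omega)
  have h4 : ∑ i ∈ range (j - w), e i ≤ A * z * 3 ^ r := by
    refine (hmono _ _ ?_).trans (key r)
    have : (r + 2) * w = (r + 1) * w + w := by ring
    omega
  have h5 : (w : ℝ) * e j ≤ j * e j := by
    apply mul_le_mul_of_nonneg_right _ (he j)
    exact_mod_cast hj
  have h9 : (z : ℝ) + 4 ≤ A * z * 3 ^ r := by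
    have h10 : 2 * (z : ℝ) ≤ A * z := mul_le_mul_of_nonneg_right hA (by linarith)
    have h11 : A * z ≤ A * z * 3 ^ r := le_mul_of_one_le_right (by nlinarith) (h3 r)
    linarith
  have h13 : 0 ≤ A * z * 3 ^ r := by linarith
  rw [hr, pow_succ, ← mul_div_assoc, le_div_iff₀ hw]
  have h14 : A * (3 ^ r * 3) * (z : ℝ) = 3 * (A * z * 3 ^ r) := by ring
  rw [h14]
  linarith

variable (K : Type) [Field K] [Fintype K]

/-- the inner sum of the recursion -/
noncomputable def gg (z w m : ℕ) : ℕ :=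
  ∑ i ∈ m.divisors.filter (fun i => ¬ (z ≤ i ∧ i ≤ w)), i * (Irn K i).card

theorem gg_le (z w m : ℕ) (hm : 1 ≤ m) : gg K z w m ≤ Fintype.card K ^ m := by
  rw [← sum_irn (k := K) hm]
  exact Finset.sum_le_sum_of_subset (Finset.filter_subset _ _)

theorem gg_le2 (z w m : ℕ) (hz : 1 ≤ z) (hm : z ≤ m) (hm2 : m ≤ w) :
    gg K z w m ≤ 2 * Fintype.card K ^ (m / 2) := by
  have h1 : m.divisors.filter (fun i => ¬ (z ≤ i ∧ i ≤ w)) ⊆ Icc 1 (m / 2) := by
    intro i hi
    rw [Finset.mem_filter, Nat.mem_divisors] at hi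
    obtain ⟨⟨⟨c, hc⟩, hm0⟩, h⟩ := hi
    have h2 : i ≤ m := Nat.le_of_dvd (by omega) ⟨c, hc⟩
    have h3 : i < z := by
      by_contra h4
      exact h ⟨by omega, by omega⟩
    have hi0 : i ≠ 0 := by
      rintro rfl
      rw [zero_mul] at hc
      exact hm0 hc
    have hc2 : 2 ≤ c := by
      by_contra h4
      have h5 : c = 0 ∨ c = 1 := by omega
      rcases h5 with rfl | rfl
      · rw [mul_zero] at hc
        exact hm0 hc
      · rw [mul_one] at hc
        omega
    rw [Finset.mem_Icc]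
    refine ⟨by omega, ?_⟩
    rw [Nat.le_div_iff_mul_le two_pos, hc]
    exact Nat.mul_le_mul_left _ hc2
  calc gg K z w m ≤ ∑ i ∈ Icc 1 (m / 2), i * (Irn K i).card := Finset.sum_le_sum_of_subset h1
    _ ≤ ∑ i ∈ Icc 1 (m / 2), Fintype.card K ^ i := by
        refine Finset.sum_le_sum fun i hi => ?_
        rw [Finset.mem_Icc] at hi
        exact irn_one_le hi.1
    _ ≤ 2 * Fintype.card K ^ (m / 2) := geo (Fintype.one_lt_card (α := K)) _

/-- the normalized numbers -/
noncomputable def ee (z w i : ℕ) : ℝ := (exc K z w i : ℝ) / (Fintype.card K : ℝ) ^ i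

theorem ee_nonneg (z w i : ℕ) : 0 ≤ ee K z w i := by
  unfold ee
  positivity

theorem ee_le_one (z w i : ℕ) : ee K z w i ≤ 1 := by
  have hq := q_ge (k := K)
  unfold ee
  rw [div_le_one (by positivity)]
  have h1 : exc K z w i ≤ Fintype.card K ^ i := by
    unfold exc
    rw [← card_Mn (k := K)]
    exact Finset.card_filter_le _ _
  exact_mod_cast h1

theorem half_le (m : ℕ) : (1 / 2 : ℝ) ^ (m - m / 2) ≤ (3 / 4) ^ m := by
  calc (1 / 2 : ℝ) ^ (m - m / 2) ≤ ((3 / 4) ^ 2) ^ (m - m / 2) :=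
        pow_le_pow_left₀ (by norm_num) (by norm_num) _
    _ = (3 / 4) ^ (2 * (m - m / 2)) := (pow_mul _ _ _).symm
    _ ≤ (3 / 4) ^ m := pow_le_pow_of_le_one (by norm_num) (by norm_num) (by omega)

/-- the normalized recursion -/
theorem rec_ee (h : S_rec) (z w j : ℕ) (hz : 4 ≤ z) :
    j * ee K z w j ≤ z + 4 + ∑ i ∈ range (j - w), ee K z w i := by
  have hq := q_ge (k := K)
  have hq0 : (0 : ℝ) < Fintype.card K := by linarith
  have h1 := h K z w j
  have h2 : (j : ℝ) * exc K z w j ≤ ∑ m ∈ Icc 1 j, (gg K z w m : ℝ) * exc K z w (j - m) := by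
    exact_mod_cast h1
  have h3 : (j : ℝ) * ee K z w j ≤
      ∑ m ∈ Icc 1 j, (gg K z w m : ℝ) / (Fintype.card K : ℝ) ^ m * ee K z w (j - m) := by
    have h4 : (j : ℝ) * ee K z w j = (j : ℝ) * exc K z w j / (Fintype.card K : ℝ) ^ j := by
      unfold ee
      ring
    rw [h4, div_le_iff₀ (by positivity), Finset.sum_mul]
    refine h2.trans (le_of_eq (Finset.sum_congr rfl fun m hm => ?_))
    rw [Finset.mem_Icc] at hm
    have h5 : (Fintype.card K : ℝ) ^ j =
        (Fintype.card K : ℝ) ^ m * (Fintype.card K : ℝ) ^ (j - m) := by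
      rw [← pow_add]
      congr 1
      omega
    unfold ee
    rw [h5]
    field_simp
  refine h3.trans ?_
  have h4 : ∀ m ∈ Icc 1 j, (gg K z w m : ℝ) / (Fintype.card K : ℝ) ^ m * ee K z w (j - m) ≤
      (if m < z then (1 : ℝ) else 0) + (if z ≤ m ∧ m ≤ w then 2 * (3 / 4 : ℝ) ^ m else 0) +
        (if w < m then ee K z w (j - m) else 0) := by
    intro m hm
    rw [Finset.mem_Icc] at hm
    have he0 := ee_nonneg K z w (j - m)
    have he1 := ee_le_one K z w (j - m)
    have hg1 : (gg K z w m : ℝ) / (Fintype.card K : ℝ) ^ m ≤ 1 := by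
      rw [div_le_one (by positivity)]
      exact_mod_cast gg_le K z w m hm.1
    have hg0 : 0 ≤ (gg K z w m : ℝ) / (Fintype.card K : ℝ) ^ m := by positivity
    have hb : (0 : ℝ) ≤ if z ≤ m ∧ m ≤ w then 2 * (3 / 4 : ℝ) ^ m else 0 := by
      split_ifs
      · positivity
      · exact le_rfl
    have ha : (0 : ℝ) ≤ if m < z then (1 : ℝ) else 0 := by
      split_ifs
      · exact zero_le_one
      · exact le_rfl
    have hc : (0 : ℝ) ≤ if w < m then ee K z w (j - m) else 0 := by
      split_ifs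
      · exact he0
      · exact le_rfl
    by_cases c1 : m < z
    · have h5 : (gg K z w m : ℝ) / (Fintype.card K : ℝ) ^ m * ee K z w (j - m) ≤ 1 :=
        mul_le_one₀ hg1 he0 he1
      rw [if_pos c1]
      linarith
    · by_cases c2 : m ≤ w
      · have h5 : (gg K z w m : ℝ) / (Fintype.card K : ℝ) ^ m ≤ 2 * (3 / 4 : ℝ) ^ m := by
          have h6 : (gg K z w m : ℝ) ≤ 2 * (Fintype.card K : ℝ) ^ (m / 2) := by
            exact_mod_cast gg_le2 K z w m (by omega) (by omega) c2
          have h7 : (Fintype.card K : ℝ) ^ m =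
              (Fintype.card K : ℝ) ^ (m / 2) * (Fintype.card K : ℝ) ^ (m - m / 2) := by
            rw [← pow_add]
            congr 1
            omega
          have h8 : (1 : ℝ) ≤ (3 / 4) ^ m * (Fintype.card K : ℝ) ^ (m - m / 2) := by
            calc (1 : ℝ) = (1 / 2) ^ (m - m / 2) * 2 ^ (m - m / 2) := by
                  rw [← mul_pow]
                  norm_num
              _ ≤ (3 / 4) ^ m * (Fintype.card K : ℝ) ^ (m - m / 2) :=
                  mul_le_mul (half_le m) (pow_le_pow_left₀ two_pos.le hq _) (by positivity)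
                    (by positivity)
          rw [div_le_iff₀ (by positivity), h7]
          calc (gg K z w m : ℝ) ≤ 2 * (Fintype.card K : ℝ) ^ (m / 2) * 1 := by linarith
            _ ≤ 2 * (Fintype.card K : ℝ) ^ (m / 2) *
                ((3 / 4) ^ m * (Fintype.card K : ℝ) ^ (m - m / 2)) :=
                mul_le_mul_of_nonneg_left h8 (by positivity)
            _ = _ := by ring
        have h9 : (gg K z w m : ℝ) / (Fintype.card K : ℝ) ^ m * ee K z w (j - m) ≤
            2 * (3 / 4 : ℝ) ^ m * 1 := mul_le_mul h5 he1 he0 (by positivity)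
        rw [if_pos (⟨by omega, c2⟩ : z ≤ m ∧ m ≤ w)]
        linarith
      · rw [if_pos (by omega : w < m)]
        have h9 : (gg K z w m : ℝ) / (Fintype.card K : ℝ) ^ m * ee K z w (j - m) ≤
            1 * ee K z w (j - m) := mul_le_mul_of_nonneg_right hg1 he0
        linarith
  refine (Finset.sum_le_sum h4).trans ?_
  rw [Finset.sum_add_distrib, Finset.sum_add_distrib]
  have s1 : ∑ m ∈ Icc 1 j, (if m < z then (1 : ℝ) else 0) ≤ z := by
    rw [Finset.sum_boole]
    have h5 : ((Icc 1 j).filter (fun m => m < z)).card ≤ z := by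
      calc ((Icc 1 j).filter (fun m => m < z)).card ≤ (range z).card := by
            apply Finset.card_le_card
            intro m hm
            rw [Finset.mem_filter] at hm
            exact Finset.mem_range.2 hm.2
        _ = z := Finset.card_range z
    exact_mod_cast h5
  have s2 : ∑ m ∈ Icc 1 j, (if z ≤ m ∧ m ≤ w then 2 * (3 / 4 : ℝ) ^ m else 0) ≤ 4 := by
    rw [← Finset.sum_filter]
    calc ∑ m ∈ (Icc 1 j).filter (fun m => z ≤ m ∧ m ≤ w), 2 * (3 / 4 : ℝ) ^ m
        ≤ ∑ m ∈ Ico z (w + 1), 2 * (3 / 4 : ℝ) ^ m := by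
          apply Finset.sum_le_sum_of_subset_of_nonneg
          · intro m hm
            rw [Finset.mem_filter] at hm
            rw [Finset.mem_Ico]
            omega
          · intro m _ _
            positivity
      _ = 2 * ∑ m ∈ Ico z (w + 1), (3 / 4 : ℝ) ^ m := by rw [Finset.mul_sum]
      _ ≤ 2 * ((3 / 4 : ℝ) ^ z / (1 - 3 / 4)) :=
          mul_le_mul_of_nonneg_left
            (geom_sum_Ico_le_of_lt_one (by norm_num) (by norm_num)) (by norm_num)
      _ ≤ 2 * ((3 / 4 : ℝ) ^ 4 / (1 - 3 / 4)) := by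
          have h5 : (3 / 4 : ℝ) ^ z ≤ (3 / 4 : ℝ) ^ 4 :=
            pow_le_pow_of_le_one (by norm_num) (by norm_num) hz
          have h6 : (3 / 4 : ℝ) ^ z / (1 - 3 / 4) ≤ (3 / 4 : ℝ) ^ 4 / (1 - 3 / 4) :=
            div_le_div_of_nonneg_right h5 (by norm_num)
          linarith
      _ ≤ 4 := by norm_num
  have s3 : ∑ m ∈ Icc 1 j, (if w < m then ee K z w (j - m) else 0) =
      ∑ i ∈ range (j - w), ee K z w i := by
    rw [← Finset.sum_filter]
    refine Finset.sum_nbij' (fun m => j - m) (fun i => j - i) ?_ ?_ ?_ ?_ ?_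
    · intro m hm
      rw [Finset.mem_filter, Finset.mem_Icc] at hm
      rw [Finset.mem_range]
      omega
    · intro i hi
      rw [Finset.mem_range] at hi
      rw [Finset.mem_filter, Finset.mem_Icc]
      omega
    · intro m hm
      rw [Finset.mem_filter, Finset.mem_Icc] at hm
      show j - (j - m) = m
      omega
    · intro i hi
      rw [Finset.mem_range] at hi
      show j - (j - i) = i
      omega
    · intro m _
      rfl
  rw [s3]
  linarith

/-- the sum over the smooth range -/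
theorem sum_smo (h2 : S_smo) (z w : ℕ) (hz : 4 ≤ z) :
    ∑ i ∈ range (w + 1), ee K z w i ≤
      2 * (Fintype.card K : ℝ) ^ (Fintype.card K + 3) * z := by
  have hq := q_ge (k := K)
  have hq0 : (0 : ℝ) < Fintype.card K := by linarith
  have hz0 : (0 : ℝ) < z := by
    have : 0 < z := by omega
    exact_mod_cast this
  obtain ⟨r, hr⟩ : ∃ r : ℝ, r = (Fintype.card K : ℝ) ^ (-(1 / z) : ℝ) := ⟨_, rfl⟩
  have hr0 : 0 < r := by
    rw [hr]
    exact Real.rpow_pos_of_pos hq0 _
  have hrz : r ^ z = (Fintype.card K : ℝ)⁻¹ := by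
    rw [hr, ← Real.rpow_natCast, ← Real.rpow_mul hq0.le]
    have h1 : (-(1 / (z : ℝ)) * (z : ℝ)) = -1 := by
      field_simp
    rw [h1, Real.rpow_neg_one]
  have hrle : r ≤ 1 - 1 / (2 * z) := by
    have h1 : (1 : ℝ) / (2 * z) ≤ 1 / 2 := by
      rw [div_le_div_iff₀ (by positivity) (by norm_num)]
      have : (1 : ℝ) ≤ z := by
        have : 1 ≤ z := by omega
        exact_mod_cast this
      linarith
    have h3 : (1 : ℝ) / 2 ≤ (1 - 1 / (2 * z)) ^ z := by
      have h4 := one_add_mul_le_pow (a := -(1 / (2 * (z : ℝ)))) (by linarith) z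
      have h5 : 1 + (z : ℝ) * -(1 / (2 * (z : ℝ))) = 1 / 2 := by
        field_simp
        ring
      rw [h5] at h4
      rw [sub_eq_add_neg]
      exact h4
    have h4 : r ^ z ≤ (1 - 1 / (2 * z)) ^ z := by
      rw [hrz]
      refine le_trans ?_ h3
      have h6 : ((1 : ℝ) / 2)⁻¹ = 2 := by norm_num
      rw [inv_le_comm₀ hq0 (by norm_num), h6]
      exact hq
    exact le_of_pow_le_pow_left₀ (by omega) (by linarith) h4
  have hr1 : r < 1 := by
    have : (0 : ℝ) < 1 / (2 * z) := by positivity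
    linarith
  have h3 : ∀ i ∈ range (w + 1), ee K z w i ≤
      (Fintype.card K : ℝ) ^ (Fintype.card K + 3) * r ^ i := by
    intro i hi
    rw [Finset.mem_range] at hi
    have h4 := h2 K z w i hz (by omega)
    unfold ee
    rw [div_le_iff₀ (by positivity)]
    have h5 : (Fintype.card K : ℝ) ^ ((i : ℝ) - (i : ℝ) / z) = r ^ i * (Fintype.card K : ℝ) ^ i := by
      rw [hr, ← Real.rpow_natCast, ← Real.rpow_natCast, ← Real.rpow_mul hq0.le,
        ← Real.rpow_add hq0]
      congr 1
      field_simp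
      ring
    rw [h5] at h4
    calc (exc K z w i : ℝ) ≤ _ := h4
      _ = _ := by ring
  refine (Finset.sum_le_sum h3).trans ?_
  rw [← Finset.mul_sum]
  have h4 : ∑ i ∈ range (w + 1), r ^ i ≤ 2 * z := by
    have h5 := geom_sum_Ico_le_of_lt_one (m := 0) (n := w + 1) hr0.le hr1
    rw [← Finset.range_eq_Ico, pow_zero] at h5
    refine h5.trans ?_
    rw [div_le_iff₀ (by linarith)]
    have h6 : (1 : ℝ) / (2 * z) ≤ 1 - r := by linarith
    have h7 : 2 * (z : ℝ) * (1 / (2 * z)) ≤ 2 * z * (1 - r) :=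
      mul_le_mul_of_nonneg_left h6 (by positivity)
    have h8 : 2 * (z : ℝ) * (1 / (2 * z)) = 1 := by
      field_simp
    linarith
  calc (Fintype.card K : ℝ) ^ (Fintype.card K + 3) * ∑ i ∈ range (w + 1), r ^ i
      ≤ (Fintype.card K : ℝ) ^ (Fintype.card K + 3) * (2 * z) :=
        mul_le_mul_of_nonneg_left h4 (by positivity)
    _ = _ := by ring

end ExcAux

open ExcAux in
/-- **Task EXC.** -/
theorem exc_le (h : S_rec) (h2 : S_smo) : S_exc := by
  intro K _ _ z w j hz hzw hwj
  have hq := q_ge (k := K)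
  have hA : (2 : ℝ) ≤ 2 * (Fintype.card K : ℝ) ^ (Fintype.card K + 3) := by
    have h1 : (1 : ℝ) ≤ (Fintype.card K : ℝ) ^ (Fintype.card K + 3) :=
      one_le_pow₀ (by linarith)
    linarith
  have h3 := abs_ind (ee K z w) (ee_nonneg K z w) z w hz hzw
    (2 * (Fintype.card K : ℝ) ^ (Fintype.card K + 3)) hA
    (fun j _ => rec_ee K h z w j hz) (sum_smo K h2 z w hz) j hwj
  unfold ee at h3
  rwa [div_le_iff₀ (by positivity)] at h3

end Pool.Agent.H527.ME
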