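import Pool.Agent.H527.ME.Stm
import Pool.Agent.H985.Chow.Typ

/-!
# Task GEN: the sum over the `k` with a prime divisor of degree in `[z, w]` (helper79)
-/

set_option autoImplicit false

namespace Pool.Agent.H527.ME

open Polynomial Finset
open scoped Classical
open Pool.Agent.H694.Typ (Mn Irn wt mem_Mn card_Mn mem_Irn card_dvd_le q_ge wt_add)

namespace Gen

variable {K : Type} [Field K] [Fintype K]

theorem sum_dvd {a b : ℕ} {M : K[X]} (hM : M ∈ Mn K a) (F : K[X] → ℝ) :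
    ∑ B ∈ (Mn K (a + b)).filter (fun B => M ∣ B), F B = ∑ k ∈ Mn K b, F (M * k) := by
  symm
  obtain ⟨hm, hd⟩ := mem_Mn.1 hM
  refine Finset.sum_bij (fun k _ => M * k) ?_ ?_ ?_ ?_
  · intro k hk
    rw [mem_Mn] at hk
    rw [Finset.mem_filter, mem_Mn]
    refine ⟨⟨hm.mul hk.1, ?_⟩, dvd_mul_right _ _⟩
    rw [hm.natDegree_mul hk.1, hk.2, hd]
  · intro k _ k' _ h
    exact mul_left_cancel₀ hm.ne_zero h
  · intro B hB
    rw [Finset.mem_filter, mem_Mn] at hB
    obtain ⟨⟨hB1, hB2⟩, k, hk⟩ := hB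
    have h1 : k.Monic := by
      rw [hk] at hB1
      exact hm.of_mul_monic_left hB1
    refine ⟨k, ?_, hk.symm⟩
    rw [mem_Mn]
    refine ⟨h1, ?_⟩
    rw [hk, hm.natDegree_mul h1] at hB2
    omega
  · intro k _
    rfl

theorem sum_mul_eq {a b : ℕ} (F : K[X] → K[X] → ℝ) :
    ∑ M ∈ Mn K a, ∑ k ∈ Mn K b, F M k =
      ∑ B ∈ Mn K (a + b), ∑ M ∈ (Mn K a).filter (fun M => M ∣ B), F M (B / M) := by
  have h1 : ∑ B ∈ Mn K (a + b), ∑ M ∈ (Mn K a).filter (fun M => M ∣ B), F M (B / M) =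
      ∑ M ∈ Mn K a, ∑ B ∈ (Mn K (a + b)).filter (fun B => M ∣ B), F M (B / M) := by
    simp_rw [Finset.sum_filter]
    exact Finset.sum_comm
  rw [h1]
  refine Finset.sum_congr rfl fun M hM => ?_
  rw [sum_dvd hM]
  refine Finset.sum_congr rfl fun k hk => ?_
  rw [mul_div_cancel_left₀ _ (mem_Mn.1 hM).1.ne_zero]

theorem step_i (h2 : S_big) {n d z w i : ℕ} {T Δ : ℝ} {φ f c : K[X] → ℝ} (hi : i ∈ Icc z w)
    (hdw : d + w ≤ n) (hT : 1 ≤ T) (hΔ : 0 ≤ Δ) (hφ : ∀ B, |φ B| ≤ 1) (hf : ∀ k, |f k| ≤ 1)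
    (hc : ∀ M, |c M| ≤ 1) (ht : TII n i Δ φ) :
    |∑ M ∈ Mn K d, c M * ∑ k ∈ Mn K (n - d),
      (∑ P ∈ (Irn K i).filter (fun P => P ∣ k),
        f P * f (k / P) / (1 + (om z w (k / P) : ℝ))) * φ (M * k)| ≤
      (T * Δ + (d + 1) / T) * (Fintype.card K : ℝ) ^ n := by
  rw [mem_Icc] at hi
  set h : K[X] → ℝ := fun k => f k / (1 + (om z w k : ℝ)) with hh
  have hh1 : ∀ k, |h k| ≤ 1 := by
    intro k
    have h0 : (0 : ℝ) ≤ (om z w k : ℝ) := Nat.cast_nonneg _
    rw [hh]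
    simp only
    rw [abs_div, abs_of_pos (by linarith : (0 : ℝ) < 1 + (om z w k : ℝ)),
      div_le_one (by linarith)]
    linarith [hf k]
  set b : K[X] → ℝ := fun B => ∑ M ∈ (Mn K d).filter (fun M => M ∣ B), c M * h (B / M) with hb
  have hb1 : ∀ B, |b B| ≤ dv d B := by
    intro B
    rw [hb]
    simp only
    refine (abs_sum_le_sum_abs _ _).trans ?_
    refine (sum_le_card_nsmul _ _ 1 fun M _ => ?_).trans ?_
    · rw [abs_mul]
      exact mul_le_one₀ (hc M) (abs_nonneg _) (hh1 _)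
    · rw [nsmul_eq_mul, mul_one]
      exact le_refl _
  have key : ∑ M ∈ Mn K d, c M * ∑ k ∈ Mn K (n - d),
      (∑ P ∈ (Irn K i).filter (fun P => P ∣ k),
        f P * f (k / P) / (1 + (om z w (k / P) : ℝ))) * φ (M * k) =
      ∑ p ∈ Irn K i, ∑ B ∈ Mn K (n - i), f p * b B * φ (p * B) := by
    have e1 : n - d = i + (n - d - i) := by omega
    have e2 : n - i = d + (n - d - i) := by omega
    have h3 : ∀ M : K[X], ∑ k ∈ Mn K (n - d),
        (∑ P ∈ (Irn K i).filter (fun P => P ∣ k),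
          f P * f (k / P) / (1 + (om z w (k / P) : ℝ))) * φ (M * k) =
        ∑ P ∈ Irn K i, ∑ k ∈ Mn K (n - d - i), f P * h k * φ (P * (M * k)) := by
      intro M
      simp_rw [Finset.sum_mul, Finset.sum_filter]
      rw [Finset.sum_comm]
      refine sum_congr rfl fun P hP => ?_
      rw [← Finset.sum_filter, e1]
      have hP' : P ∈ Mn K i := by
        obtain ⟨p1, p2, -⟩ := mem_Irn.1 hP
        exact mem_Mn.2 ⟨p1, p2⟩
      rw [sum_dvd hP']
      have e3 : i + (n - d - i) - i = n - d - i := by omega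
      refine sum_congr (by rw [e3]) fun k _ => ?_
      rw [mul_div_cancel_left₀ _ (mem_Mn.1 hP').1.ne_zero, mul_left_comm M P k, mul_div_assoc]
    simp_rw [h3, Finset.mul_sum]
    rw [Finset.sum_comm]
    refine sum_congr rfl fun P _ => ?_
    rw [sum_mul_eq, e2]
    refine sum_congr rfl fun B _ => ?_
    rw [hb]
    simp only
    rw [Finset.mul_sum, Finset.sum_mul]
    refine sum_congr rfl fun M hM => ?_
    rw [mem_filter] at hM
    rw [EuclideanDomain.mul_div_cancel' (mem_Mn.1 hM.1).1.ne_zero hM.2]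
    ring
  rw [key]
  exact h2 K n d i T Δ φ f b (by omega) hT hΔ hφ hf hb1 ht

theorem geo_le {q : ℝ} (hq : 2 ≤ q) (z w : ℕ) :
    ∑ i ∈ Icc z w, (q ^ i)⁻¹ ≤ 2 * (q ^ z)⁻¹ := by
  have h1 : ∀ i, (q ^ i)⁻¹ = q⁻¹ ^ i := fun i => (inv_pow q i).symm
  simp_rw [h1]
  have hq0 : 0 < q := by linarith
  have h2 : q⁻¹ ≤ 1 / 2 := by
    rw [inv_eq_one_div]
    exact one_div_le_one_div_of_le (by norm_num) hq
  have h3 : 0 < q⁻¹ := inv_pos.2 hq0
  have h4 : Icc z w = Ico z (w + 1) := by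
    ext i
    rw [mem_Icc, mem_Ico]
    omega
  rw [h4]
  refine (geom_sum_Ico_le_of_lt_one h3.le (by linarith)).trans ?_
  rw [div_le_iff₀ (by linarith)]
  have h5 : 0 < q⁻¹ ^ z := pow_pos h3 z
  nlinarith

theorem sq_sum (z w j : ℕ) :
    ∑ k ∈ Mn K j, ∑ i ∈ Icc z w, (((Irn K i).filter (fun P => P ^ 2 ∣ k)).card : ℝ) ≤
      (Fintype.card K : ℝ) ^ j * (2 * ((Fintype.card K : ℝ) ^ z)⁻¹) := by
  have hq := q_ge (k := K)
  rw [sum_comm]
  refine le_trans ?_ (mul_le_mul_of_nonneg_left (geo_le hq z w) (by positivity))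
  rw [mul_sum]
  refine sum_le_sum fun i _ => ?_
  have h1 : ∑ k ∈ Mn K j, (((Irn K i).filter (fun P => P ^ 2 ∣ k)).card : ℝ) =
      ∑ P ∈ Irn K i, (((Mn K j).filter (fun k => P ^ 2 ∣ k)).card : ℝ) := by
    simp_rw [card_filter, Nat.cast_sum]
    exact sum_comm
  rw [h1]
  have h2 : ∀ P ∈ Irn K i, (((Mn K j).filter (fun k => P ^ 2 ∣ k)).card : ℝ) ≤
      (Fintype.card K : ℝ) ^ j * ((Fintype.card K : ℝ) ^ (i + i))⁻¹ := by
    intro P hP
    obtain ⟨p1, p2, -⟩ := mem_Irn.1 hP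
    refine (card_dvd_le (p1.pow 2)).trans ?_
    rw [p1.natDegree_pow, p2, two_mul, wt]
  refine (sum_le_card_nsmul _ _ _ h2).trans ?_
  rw [nsmul_eq_mul]
  have h3 : ((Irn K i).card : ℝ) ≤ (Fintype.card K : ℝ) ^ i := by
    have : (Irn K i).card ≤ (Mn K i).card := card_le_card (filter_subset _ _)
    rw [card_Mn] at this
    exact_mod_cast this
  have hpos : (0 : ℝ) < (Fintype.card K : ℝ) ^ i := by positivity
  calc ((Irn K i).card : ℝ) * ((Fintype.card K : ℝ) ^ j * ((Fintype.card K : ℝ) ^ (i + i))⁻¹)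
      ≤ (Fintype.card K : ℝ) ^ i *
        ((Fintype.card K : ℝ) ^ j * ((Fintype.card K : ℝ) ^ (i + i))⁻¹) :=
        mul_le_mul_of_nonneg_right h3 (by positivity)
    _ = (Fintype.card K : ℝ) ^ j * ((Fintype.card K : ℝ) ^ i)⁻¹ := by
        rw [pow_add, mul_inv]
        field_simp

end Gen

open Gen

theorem gen (h1 : S_pw) (h2 : S_big) : S_gen := by
  intro K _ _ n d z w T Δ φ f c hz hdw hT hΔ hφ hmul hf hc ht
  have hq2 := q_ge (k := K)
  set q : ℝ := (Fintype.card K : ℝ) with hq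
  have hq0 : 0 < q := by linarith
  set g : ℕ → K[X] → ℝ := fun i k => ∑ P ∈ (Irn K i).filter (fun P => P ∣ k),
    f P * f (k / P) / (1 + (om z w (k / P) : ℝ)) with hg
  set s : K[X] → ℝ := fun k =>
    ∑ i ∈ Icc z w, (((Irn K i).filter (fun P => P ^ 2 ∣ k)).card : ℝ) with hs
  have hs0 : ∀ k, 0 ≤ s k := fun k => sum_nonneg fun i _ => Nat.cast_nonneg _
  have hpt : ∀ k ∈ Mn K (n - d),
      |(if om z w k ≠ 0 then f k else 0) - ∑ i ∈ Icc z w, g i k| ≤ 2 * s k := by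
    intro k hk
    by_cases h0 : om z w k = 0
    · rw [if_neg (not_not.2 h0)]
      have h3 : ∑ i ∈ Icc z w, g i k = 0 := by
        refine sum_eq_zero fun i hi => ?_
        have h4 : ((Irn K i).filter (fun P => P ∣ k)) = ∅ := by
          rw [← card_eq_zero]
          unfold om at h0
          exact (sum_eq_zero_iff.1 h0) i hi
        rw [hg]
        simp only
        rw [h4, sum_empty]
      rw [h3, sub_zero, abs_zero]
      have := hs0 k
      linarith
    · rw [if_pos h0]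
      exact h1 K z w f k hz hmul hf (mem_Mn.1 hk).1.ne_zero h0
  set A : ℝ := ∑ M ∈ Mn K d, c M *
    ∑ k ∈ (Mn K (n - d)).filter (fun k => om z w k ≠ 0), f k * φ (M * k) with hA
  set B : ℝ := ∑ i ∈ Icc z w, ∑ M ∈ Mn K d, c M * ∑ k ∈ Mn K (n - d), g i k * φ (M * k) with hB
  have hBle : |B| ≤ n * (T * Δ + (n + 1) / T) * q ^ n := by
    refine (abs_sum_le_sum_abs _ _).trans ?_
    have h3 : ∀ i ∈ Icc z w, |∑ M ∈ Mn K d, c M * ∑ k ∈ Mn K (n - d), g i k * φ (M * k)| ≤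
        (T * Δ + (n + 1) / T) * q ^ n := by
      intro i hi
      refine (step_i h2 hi hdw hT hΔ hφ hf hc (ht i hi)).trans ?_
      refine mul_le_mul_of_nonneg_right ?_ (by positivity)
      have h4 : ((d : ℝ) + 1) / T ≤ ((n : ℝ) + 1) / T := by
        refine div_le_div_of_nonneg_right ?_ (by linarith)
        have : (d : ℝ) ≤ n := by exact_mod_cast (by omega : d ≤ n)
        linarith
      linarith
    refine (sum_le_card_nsmul _ _ _ h3).trans ?_
    rw [nsmul_eq_mul, Nat.card_Icc, ← mul_assoc]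
    refine mul_le_mul_of_nonneg_right ?_ (by positivity)
    refine mul_le_mul_of_nonneg_right ?_ (by positivity)
    exact_mod_cast (by omega : w + 1 - z ≤ n)
  have hABeq : A - B = ∑ M ∈ Mn K d, c M * ∑ k ∈ Mn K (n - d),
      ((if om z w k ≠ 0 then f k else 0) - ∑ i ∈ Icc z w, g i k) * φ (M * k) := by
    rw [hA, hB, sum_comm, ← sum_sub_distrib]
    refine sum_congr rfl fun M _ => ?_
    rw [← mul_sum, ← mul_sub]
    congr 1
    rw [sum_comm, sum_filter, ← sum_sub_distrib]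
    refine sum_congr rfl fun k _ => ?_
    rw [sub_mul, sum_mul, ite_mul, zero_mul]
  have hABle : |A - B| ≤ 4 * q ^ ((n : ℝ) - z) := by
    rw [hABeq]
    refine (abs_sum_le_sum_abs _ _).trans ?_
    have h3 : ∀ M ∈ Mn K d, |c M * ∑ k ∈ Mn K (n - d),
        ((if om z w k ≠ 0 then f k else 0) - ∑ i ∈ Icc z w, g i k) * φ (M * k)| ≤
        2 * (q ^ (n - d) * (2 * (q ^ z)⁻¹)) := by
      intro M _
      rw [abs_mul]
      refine (mul_le_of_le_one_left (abs_nonneg _) (hc M)).trans ?_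
      refine (abs_sum_le_sum_abs _ _).trans ?_
      refine le_trans (sum_le_sum fun k hk => ?_)
        (show ∑ k ∈ Mn K (n - d), 2 * s k ≤ _ from ?_)
      · rw [abs_mul]
        exact (mul_le_of_le_one_right (abs_nonneg _) (hφ _)).trans (hpt k hk)
      · rw [← mul_sum]
        exact mul_le_mul_of_nonneg_left (sq_sum z w (n - d)) (by norm_num)
    refine (sum_le_card_nsmul _ _ _ h3).trans ?_
    rw [nsmul_eq_mul, card_Mn, Nat.cast_pow, ← hq, Real.rpow_sub hq0, Real.rpow_natCast,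
      Real.rpow_natCast]
    have h4 : q ^ n = q ^ d * q ^ (n - d) := by
      rw [← pow_add]
      congr 1
      omega
    rw [h4, div_eq_mul_inv]
    refine le_of_eq ?_
    ring
  have h5 : A = B + (A - B) := by ring
  rw [h5]
  exact (abs_add_le _ _).trans (add_le_add hBle hABle)

end Pool.Agent.H527.ME
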