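import Pool.Agent.H527.ME.Stm

/-!
# Task ONE: the parameters for the weak saving (helper687)
-/

set_option autoImplicit false

namespace Pool.Agent.H527.ME

open Polynomial Finset
open scoped Classical
open Pool.Agent.H985.Chow (mob)
open Pool.Agent.H985.KP (mobg)
open Pool.Agent.H694.Typ (Mn Irn)
open Pool.Agent.H251.SP (lam S_tii)

namespace One

/-- the saving in powers of `q` in terms of `L` -/
lemma rpow_save {q c B L z κ : ℝ} (hq : 2 ≤ q) (hc : 0 < c) (hL : 0 ≤ L)
    (hB : κ ≤ B * (c * Real.log 2)) (hz : B * L ≤ z) (hz0 : 0 ≤ z) :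
    q ^ (-c * z) ≤ Real.exp (-(κ * L)) := by
  have hq0 : 0 < q := by linarith
  rw [Real.rpow_def_of_pos hq0, Real.exp_le_exp]
  have h1 : Real.log 2 ≤ Real.log q := Real.log_le_log (by norm_num) hq
  have h2 : 0 < Real.log 2 := Real.log_pos (by norm_num)
  have h3 : c * z * Real.log 2 ≤ c * z * Real.log q :=
    mul_le_mul_of_nonneg_left h1 (by positivity)
  have h4 : B * L * (c * Real.log 2) ≤ z * (c * Real.log 2) :=
    mul_le_mul_of_nonneg_right hz (by positivity)
  have h5 : κ * L ≤ B * (c * Real.log 2) * L := mul_le_mul_of_nonneg_right hB hL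
  linarith

lemma log2_gt : (69 / 100 : ℝ) < Real.log 2 := by
  have := Real.log_two_gt_d9
  linarith

/-- a geometric sum -/
lemma geo {q : ℝ} (hq : 2 ≤ q) (n s : ℕ) : ∑ m ∈ Ioc (n - s) n, q ^ m ≤ 2 * q ^ n := by
  have h0 : ∀ n : ℕ, ∑ m ∈ range (n + 1), q ^ m ≤ 2 * q ^ n := by
    intro n
    induction n with
    | zero => simp
    | succ n ih =>
      rw [sum_range_succ, pow_succ]
      have : 0 < q ^ n := by positivity
      nlinarith
  refine le_trans (sum_le_sum_of_subset_of_nonneg ?_ ?_) (h0 n)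
  · intro m hm
    rw [mem_Ioc] at hm
    rw [mem_range]
    omega
  · intro m _ _
    positivity

/-- the exponential of the parameter `L` -/
lemma exp_L {n : ℕ} (hn : 2 ≤ n) {h : ℝ} (hh : 1 ≤ h) :
    (n : ℝ) * h = Real.exp (Real.log n + Real.log h) := by
  have hn0 : (0 : ℝ) < n := by
    have : (2 : ℝ) ≤ n := by exact_mod_cast hn
    linarith
  rw [Real.exp_add, Real.exp_log hn0, Real.exp_log (by linarith)]

/-- the typical part -/
lemma typ_part {n : ℕ} (hn : 2 ≤ n) {h L q X : ℝ} (hh : 1 ≤ h) (hL : L = Real.log n + Real.log h)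
    (C0 : ℕ) (hX : X ≤ Real.exp (-((C0 + 3) * L))) (hq : 0 ≤ q) :
    (n : ℝ) * (h * (2 * (n : ℝ) ^ C0 * q * X)) ≤ 2 / n * q := by
  have hn2 : (2 : ℝ) ≤ n := by exact_mod_cast hn
  have hn0 : (0 : ℝ) < n := by linarith
  have e1 := exp_L hn hh
  rw [← hL] at e1
  have hLn : Real.log n ≤ L := by
    rw [hL]
    have := Real.log_nonneg hh
    linarith
  have hln : 0 ≤ Real.log n := Real.log_nonneg (by linarith)
  have e2 : (n : ℝ) ^ C0 = Real.exp (C0 * Real.log n) := by
    rw [mul_comm, Real.exp_mul, Real.exp_log hn0, Real.rpow_natCast]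
  have e3 : (1 : ℝ) / n = Real.exp (-Real.log n) := by
    rw [Real.exp_neg, Real.exp_log hn0, one_div]
  have h1 : Real.exp L * Real.exp (C0 * Real.log n) * X ≤ 1 / n := by
    calc Real.exp L * Real.exp (C0 * Real.log n) * X
        ≤ Real.exp L * Real.exp (C0 * Real.log n) * Real.exp (-((C0 + 3) * L)) :=
          mul_le_mul_of_nonneg_left hX (by positivity)
      _ = Real.exp (L + C0 * Real.log n + -((C0 + 3) * L)) := by
          rw [Real.exp_add, Real.exp_add]
      _ ≤ 1 / n := by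
          rw [e3, Real.exp_le_exp]
          have h2 : (C0 : ℝ) * Real.log n ≤ C0 * L := mul_le_mul_of_nonneg_left hLn (by positivity)
          nlinarith
  calc (n : ℝ) * (h * (2 * (n : ℝ) ^ C0 * q * X))
      = (2 * q) * (((n : ℝ) * h) * (n : ℝ) ^ C0 * X) := by ring
    _ = (2 * q) * (Real.exp L * Real.exp (C0 * Real.log n) * X) := by rw [e1, e2]
    _ ≤ (2 * q) * (1 / n) := mul_le_mul_of_nonneg_left h1 (by positivity)
    _ = 2 / n * q := by ring

end One

theorem aone : S_aone := by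
  intro hexc hch a ha htyp K _ _ _
  obtain ⟨C0, c, hc, n0, htyp⟩ := htyp K (1 / 50) (by norm_num)
  set q : ℝ := (Fintype.card K : ℝ) with hq
  have hq2 : 2 ≤ q := by
    rw [hq]
    exact_mod_cast (Fintype.one_lt_card (α := K))
  have hl2 := One.log2_gt
  have hl20 : 0 < Real.log 2 := by linarith
  obtain ⟨η, hη⟩ : ∃ η : ℝ, η = 1 / 5 := ⟨_, rfl⟩
  have hη0 : 0 < η := by rw [hη]; norm_num
  have hη2 : η ≤ 1 / 5 := by rw [hη]
  set B : ℝ := max 6 ((C0 + 3) / (c * Real.log 2)) with hB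
  have hB6 : 6 ≤ B := le_max_left _ _
  have hBc : (C0 + 3 : ℝ) ≤ B * (c * Real.log 2) := by
    have h1 : (C0 + 3 : ℝ) / (c * Real.log 2) ≤ B := le_max_right _ _
    rwa [div_le_iff₀ (by positivity)] at h1
  have hB0 : 0 < B := by linarith
  set κ : ℝ := η / (4 * B) with hκ
  have hκ0 : 0 < κ := by positivity
  set n1 : ℕ := ⌈4 / η⌉₊ + 2 * n0 with hn1
  set N : ℕ := ⌈2 / η⌉₊ with hN
  set Q : ℝ := q ^ (Fintype.card K + 3) with hQ
  have hQ0 : 0 ≤ Q := by positivity
  set C1 : ℝ := 8 * Q * 3 ^ N * (B + 2) / η with hC1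
  have hC10 : 0 ≤ C1 := by positivity
  refine ⟨n1 / Real.log 2 + 1 / κ + 3 / Real.log 2 + C1, by positivity, ?_⟩
  intro n d H hh mm hn hd hH hhH hmm
  have hn2 : (2 : ℝ) ≤ n := by exact_mod_cast hn
  have hn0 : (0 : ℝ) < n := by linarith
  have hHc : (1 : ℝ) ≤ (H.card : ℝ) := by
    have : 0 < H.card := card_pos.2 ⟨_, hhH 0⟩
    exact_mod_cast this
  set L : ℝ := Real.log n + Real.log H.card with hL
  have hlnn : Real.log 2 ≤ Real.log n := Real.log_le_log (by norm_num) hn2
  have hlH : 0 ≤ Real.log H.card := Real.log_nonneg hHc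
  have hL2 : Real.log 2 ≤ L := by linarith
  have hL0 : 0 < L := by linarith
  have hqn : 0 < q ^ n := by positivity
  have hdn : d ≤ n := hd.le
  obtain ⟨J, hJ⟩ : ∃ J : ℝ, J = (n : ℝ) - d := ⟨_, rfl⟩
  rw [← hJ]
  have hJ1 : 1 ≤ J := by
    have h1 : (d : ℝ) + 1 ≤ n := by exact_mod_cast hd
    rw [hJ]
    linarith
  have hJ0 : 0 < J := by linarith
  have hJn : J ≤ n := by
    have : (0 : ℝ) ≤ d := Nat.cast_nonneg _
    rw [hJ]
    linarith
  have haK : ∀ F : K[X], |((a K F : ℤ) : ℝ)| ≤ 1 := fun F => ha K F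
  -- `1 / n` in terms of `L / J`
  have h1n : 1 / (n : ℝ) ≤ 1 / Real.log 2 * (L / J) := by
    have : 1 ≤ L / Real.log 2 := by
      rw [le_div_iff₀ hl20]
      linarith
    calc 1 / (n : ℝ) ≤ 1 / J := one_div_le_one_div_of_le hJ0 hJn
      _ ≤ (L / Real.log 2) * (1 / J) := by
          have h0 : 0 < 1 / J := by positivity
          exact le_mul_of_one_le_left h0.le this
      _ = 1 / Real.log 2 * (L / J) := by ring
  by_cases hcase : J < n1 ∨ κ * J < L
  · -- the trivial bound
    have h1 := hch K n d 0 0 (fun _ => 0) (fun F => ((a K F : ℤ) : ℝ)) H 0 hh mm haK (by omega)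
      hH hhH hmm (fun m h1 h2 => by omega)
    rw [Nat.sub_zero, Ioc_self, sum_empty, add_zero] at h1
    refine h1.trans ?_
    have h2 : 1 ≤ (n1 / Real.log 2 + 1 / κ + 3 / Real.log 2 + C1) * (L / J) := by
      have hLn : 0 < L / J := by positivity
      have h3 : 0 ≤ 3 / Real.log 2 := by positivity
      rcases hcase with h | h
      · have h4 : 1 ≤ n1 / Real.log 2 * (L / J) := by
          have h5 : J ≤ n1 := h.le
          calc (1 : ℝ) ≤ (n1 / J) * (L / Real.log 2) := by
                have h6 : (1 : ℝ) ≤ n1 / J := by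
                  rw [le_div_iff₀ hJ0]
                  linarith
                have h7 : 1 ≤ L / Real.log 2 := by
                  rw [le_div_iff₀ hl20]
                  linarith
                exact one_le_mul_of_one_le_of_one_le h6 h7
            _ = n1 / Real.log 2 * (L / J) := by ring
        have h5 : 0 ≤ 1 / κ * (L / J) := by positivity
        have h6 : 0 ≤ 3 / Real.log 2 * (L / J) := by positivity
        have h7 : 0 ≤ C1 * (L / J) := by positivity
        linarith
      · have h4 : 1 ≤ 1 / κ * (L / J) := by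
          have h5 : 1 / κ * (L / J) = L / (κ * J) := by
            field_simp
          rw [h5, le_div_iff₀ (by positivity)]
          linarith
        have h5 : 0 ≤ (n1 : ℝ) / Real.log 2 * (L / J) := by positivity
        have h6 : 0 ≤ 3 / Real.log 2 * (L / J) := by positivity
        have h7 : 0 ≤ C1 * (L / J) := by positivity
        linarith
    calc (Fintype.card K : ℝ) ^ n = 1 * q ^ n := by rw [one_mul]
      _ ≤ _ := mul_le_mul_of_nonneg_right h2 hqn.le
  push Not at hcase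
  obtain ⟨hnn, hLn⟩ := hcase
  have hnn' : (n1 : ℝ) ≤ J := hnn
  have hn4 : 4 ≤ η * J := by
    have h1 : 4 / η ≤ ⌈4 / η⌉₊ := Nat.le_ceil _
    have h2 : ((⌈4 / η⌉₊ : ℕ) : ℝ) ≤ n1 := by
      rw [hn1]
      push_cast
      linarith [(Nat.cast_nonneg n0 : (0 : ℝ) ≤ n0)]
    have h3 : 4 / η ≤ J := by linarith
    rw [div_le_iff₀ hη0] at h3
    linarith
  have hn0' : 2 * (n0 : ℝ) ≤ J := by
    have h2 : 2 * (n0 : ℝ) ≤ n1 := by
      rw [hn1]
      push_cast
      linarith [(Nat.cast_nonneg ⌈4 / η⌉₊ : (0 : ℝ) ≤ (⌈4 / η⌉₊ : ℕ))]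
    linarith
  -- the parameters
  set z : ℕ := ⌈B * L⌉₊ with hz
  have hzL : B * L ≤ z := Nat.le_ceil _
  have hzU : (z : ℝ) ≤ B * L + 1 := (Nat.ceil_lt_add_one (by positivity)).le
  have h6L : 6 * L ≤ z := (mul_le_mul_of_nonneg_right hB6 hL0.le).trans hzL
  have hz4 : 4 ≤ z := by
    have h1 : (4 : ℝ) ≤ z := by linarith
    exact_mod_cast h1
  have hzη : (z : ℝ) ≤ η * J / 2 := by
    have h1 : B * L ≤ η * J / 4 := by
      calc B * L ≤ B * (κ * J) := mul_le_mul_of_nonneg_left hLn hB0.le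
        _ = η * J / 4 := by
          rw [hκ]
          field_simp
    linarith
  set w : ℕ := ⌊η * J⌋₊ with hw
  have hwU : (w : ℝ) ≤ η * J := Nat.floor_le (by positivity)
  have hwL : η * J - 1 < w := Nat.sub_one_lt_floor _
  have hwL2 : η * J / 2 ≤ w := by linarith
  have hw0 : 0 < (w : ℝ) := by linarith
  have hzw : z ≤ w := by
    have h1 : (z : ℝ) ≤ w := by linarith
    exact_mod_cast h1
  have hη5 : η * J ≤ 1 / 5 * J := mul_le_mul_of_nonneg_right hη2 hJ0.le
  have hd' : (d : ℝ) = n - J := by rw [hJ]; ring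
  have hzn : z ≤ n := by
    have h1 : (z : ℝ) ≤ n := by linarith
    exact_mod_cast h1
  have hdz : d + z ≤ n := by
    have h1 : (d : ℝ) + z ≤ n := by linarith
    exact_mod_cast h1
  -- the degrees
  have hm : ∀ m : ℕ, n - z < m → (n : ℝ) - z ≤ m := by
    intro m h1
    have h2 : n ≤ m + z := by omega
    have h3 : (n : ℝ) ≤ m + z := by exact_mod_cast h2
    linarith
  have hdw : ∀ m : ℕ, n - z < m → d + w ≤ m := by
    intro m h1
    have h2 := hm m h1
    have h3 : (d : ℝ) + w ≤ m := by linarith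
    exact_mod_cast h3
  set X : ℝ := q ^ (-c * (z : ℝ)) with hX
  have hX0 : 0 < X := by
    have : 0 < q := by linarith
    positivity
  set D : ℝ := 2 * (n : ℝ) ^ C0 * q ^ n * X with hD
  have hXL : X ≤ Real.exp (-((C0 + 3) * L)) :=
    One.rpow_save hq2 hc hL0.le hBc hzL (by positivity)
  have key : ∀ m, n - z < m → m ≤ n → ∀ h ∈ H, ∀ u : K[X] → ℝ, (∀ M, |u M| ≤ 1) →
      |∑ M ∈ Mn K d, u M * ∑ k ∈ (Mn K (m - d)).filter (fun k => om z ((fun _ => w) m) k ≠ 0),
        ((a K (M * k + h) : ℤ) : ℝ)| ≤ D := by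
    intro m hm1 hm2 h hh1 u hu
    have hmr := hm m hm1
    have hmn : (m : ℝ) ≤ n := by exact_mod_cast hm2
    have hzm : (z : ℝ) ≤ m := by linarith
    have hm0 : n0 ≤ m := by
      have h1 : (n0 : ℝ) ≤ m := by linarith
      exact_mod_cast h1
    have hw4 : (w : ℝ) ≤ (1 / 4 - 1 / 50) * m := by linarith
    have h1 := htyp m hm0 d z w h (fun _ => 1) u (by omega) (hdw m hm1) hw4 (hH h hh1).1
      (lt_of_lt_of_le (hH h hh1).2 (by have := hdw m hm1; omega)) (by
        intro P k _ _ _ _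
        norm_num) (by intro k; norm_num) hu
    simp only [one_mul] at h1
    refine h1.trans ?_
    have hmC : (m : ℝ) ^ C0 ≤ (n : ℝ) ^ C0 := pow_le_pow_left₀ (by positivity) hmn _
    have hqm : q ^ m ≤ q ^ n := pow_le_pow_right₀ (by linarith) hm2
    have hXm : q ^ (-c * (m : ℝ)) ≤ X := by
      rw [hX]
      refine Real.rpow_le_rpow_of_exponent_le (by linarith) ?_
      have h2 := mul_le_mul_of_nonneg_left hzm hc.le
      linarith
    have hXm0 : 0 ≤ q ^ (-c * (m : ℝ)) := by
      have : 0 < q := by linarith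
      positivity
    calc (m : ℝ) ^ C0 * q ^ m * (q ^ (-c * (z : ℝ)) + q ^ (-c * (m : ℝ)))
        ≤ (n : ℝ) ^ C0 * q ^ n * (X + X) := by
          refine mul_le_mul (mul_le_mul hmC hqm (by positivity) (by positivity))
            (add_le_add le_rfl hXm) (by positivity) (by positivity)
      _ = D := by
          rw [hD]
          ring
  have h1 := hch K n d z z (fun _ => w) (fun F => ((a K F : ℤ) : ℝ)) H D hh mm haK hdz hH hhH hmm
    key
  refine h1.trans ?_
  -- the exceptional part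
  have hexc1 : ∀ m ∈ Ioc (n - z) n, q ^ d * (exc K z w (m - d) : ℝ) ≤
      2 * Q * 3 ^ N * ((z : ℝ) / w) * q ^ m := by
    intro m hmm1
    rw [mem_Ioc] at hmm1
    have h2 := hdw m hmm1.1
    have h3 := hexc K z w (m - d) hz4 hzw (by omega)
    have h4 : (m - d) / w ≤ N := by
      have hw' : 0 < w := by exact_mod_cast hw0
      have h5 : (((m - d) / w : ℕ) : ℝ) ≤ ((m - d : ℕ) : ℝ) / w := Nat.cast_div_le
      have h6 : ((m - d : ℕ) : ℝ) ≤ J := by
        have h8 : m ≤ n := hmm1.2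
        have h8' : (m : ℝ) ≤ n := by exact_mod_cast h8
        rw [Nat.cast_sub (by omega), hJ]
        linarith
      have h7 : ((m - d : ℕ) : ℝ) / w ≤ 2 / η := by
        rw [div_le_div_iff₀ hw0 hη0]
        have h9 := mul_le_mul_of_nonneg_right h6 hη0.le
        linarith
      have h8 : 2 / η ≤ N := Nat.le_ceil _
      exact_mod_cast (h5.trans (h7.trans h8))
    have h5 : (3 : ℝ) ^ ((m - d) / w) ≤ 3 ^ N := pow_le_pow_right₀ (by norm_num) h4
    have h6 : q ^ d * q ^ (m - d) = q ^ m := by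
      rw [← pow_add]
      congr 1
      omega
    calc q ^ d * (exc K z w (m - d) : ℝ)
        ≤ q ^ d * (2 * Q * 3 ^ ((m - d) / w) * ((z : ℝ) / w) * q ^ (m - d)) :=
          mul_le_mul_of_nonneg_left h3 (by positivity)
      _ = (2 * Q * ((z : ℝ) / w) * q ^ m) * 3 ^ ((m - d) / w) := by
          rw [← h6]
          ring
      _ ≤ (2 * Q * ((z : ℝ) / w) * q ^ m) * 3 ^ N :=
          mul_le_mul_of_nonneg_left h5 (by positivity)
      _ = _ := by ring
  have hsum : ∑ m ∈ Ioc (n - z) n, ((H.card : ℝ) * D + q ^ d * (exc K z w (m - d) : ℝ)) ≤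
      (n : ℝ) * (H.card * D) + 2 * Q * 3 ^ N * ((z : ℝ) / w) * (2 * q ^ n) := by
    rw [sum_add_distrib, sum_const, Nat.card_Ioc, nsmul_eq_mul]
    have hD00 : 0 ≤ D := by
      rw [hD]
      have hq0' : 0 ≤ q := by linarith
      exact mul_nonneg (mul_nonneg (mul_nonneg (by norm_num) (pow_nonneg hn0.le _))
        (pow_nonneg hq0' _)) hX0.le
    have hD0 : 0 ≤ (H.card : ℝ) * D := mul_nonneg (Nat.cast_nonneg _) hD00
    have h2 : ((n - (n - z) : ℕ) : ℝ) ≤ n := by
      have : n - (n - z) ≤ n := by omega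
      exact_mod_cast this
    refine add_le_add (mul_le_mul_of_nonneg_right h2 hD0) ?_
    refine (sum_le_sum hexc1).trans ?_
    rw [← mul_sum]
    exact mul_le_mul_of_nonneg_left (One.geo hq2 n z) (by positivity)
  have htypp := One.typ_part hn hHc hL C0 hXL hqn.le
  have hDD : (n : ℝ) * (H.card * D) ≤ 2 / n * q ^ n := by
    rw [hD]
    exact htypp
  -- `z / w`
  have hzw2 : (z : ℝ) / w ≤ 2 * (B + 2) / η * (L / J) := by
    have h2 : (z : ℝ) ≤ (B + 2) * L := by linarith
    have e : 2 * (B + 2) / η * (L / J) = ((B + 2) * L) / (η * J / 2) := by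
      field_simp
    rw [e]
    exact div_le_div₀ (by positivity) h2 (by positivity) hwL2
  have hE : 2 * Q * 3 ^ N * ((z : ℝ) / w) * (2 * q ^ n) ≤ C1 * (L / J) * q ^ n := by
    calc 2 * Q * 3 ^ N * ((z : ℝ) / w) * (2 * q ^ n)
        = (4 * Q * 3 ^ N * q ^ n) * ((z : ℝ) / w) := by ring
      _ ≤ (4 * Q * 3 ^ N * q ^ n) * (2 * (B + 2) / η * (L / J)) :=
          mul_le_mul_of_nonneg_left hzw2 (by positivity)
      _ = C1 * (L / J) * q ^ n := by
          rw [hC1]
          ring
  -- the boundary term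
  have hbd : q ^ (n - z) ≤ 1 / n * q ^ n := by
    have h2 : q ^ n = q ^ (n - z) * q ^ z := by
      rw [← pow_add]
      congr 1
      omega
    have h3 : (n : ℝ) ≤ q ^ z := by
      have h4 : Real.log n ≤ z * Real.log 2 := by
        have h5 : Real.log n ≤ L := by linarith
        have h6 : 6 * L * (69 / 100) ≤ z * Real.log 2 :=
          mul_le_mul h6L hl2.le (by norm_num) (by positivity)
        linarith
      calc (n : ℝ) = Real.exp (Real.log n) := (Real.exp_log hn0).symm
        _ ≤ Real.exp (z * Real.log 2) := Real.exp_le_exp.2 h4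
        _ = 2 ^ z := by
          rw [mul_comm, Real.exp_mul, Real.exp_log (by norm_num), Real.rpow_natCast]
        _ ≤ q ^ z := pow_le_pow_left₀ (by norm_num) hq2 _
    rw [h2]
    have h4 : 0 < q ^ (n - z) := by positivity
    have h5 : 1 ≤ 1 / (n : ℝ) * q ^ z := by
      rw [one_div, inv_mul_eq_div, le_div_iff₀ hn0]
      linarith
    have h6 := mul_le_mul_of_nonneg_left h5 h4.le
    linarith
  have hfin : (1 / (n : ℝ) + 2 / n) * q ^ n ≤ 3 / Real.log 2 * (L / J) * q ^ n := by
    refine mul_le_mul_of_nonneg_right ?_ hqn.le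
    have e1 : 1 / (n : ℝ) + 2 / n = 3 * (1 / n) := by ring
    have e2 : 3 / Real.log 2 * (L / J) = 3 * (1 / Real.log 2 * (L / J)) := by ring
    rw [e1, e2]
    linarith
  have hrest : 0 ≤ (n1 / Real.log 2 + 1 / κ) * (L / J) * q ^ n := by positivity
  have hgoal : (n1 / Real.log 2 + 1 / κ + 3 / Real.log 2 + C1) * (L / J) * q ^ n =
      (n1 / Real.log 2 + 1 / κ) * (L / J) * q ^ n + 3 / Real.log 2 * (L / J) * q ^ n +
        C1 * (L / J) * q ^ n := by ring
  rw [hgoal]
  have hfin2 : 1 / (n : ℝ) * q ^ n + 2 / n * q ^ n ≤ 3 / Real.log 2 * (L / J) * q ^ n := by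
    rw [← add_mul]
    exact hfin
  linarith

end Pool.Agent.H527.ME
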