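import Mathlib
import Pool.Agent.H527.ME.Stm

/-!
# The pointwise identity with the weights `1 / (1 + ω)` (task PW)
-/

set_option autoImplicit false
set_option linter.unusedSectionVars false

namespace Pool.Agent.H527.ME

open Polynomial Finset
open scoped Classical
open Pool.Agent.H694.Typ

namespace PwPf

section

variable {K : Type} [Field K] [Fintype K]

theorem dvd_iff {P Q k : K[X]} (hP : P.Monic) (hPi : Irreducible P) (hQ : Q.Monic)
    (hQi : Irreducible Q) : Q ∣ P * k ↔ Q = P ∨ Q ∣ k := by
  rw [hQi.prime.dvd_mul]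
  constructor
  · rintro (h | h)
    · exact Or.inl (eq_of_monic_of_associated hQ hP (hQi.associated_of_dvd hPi h))
    · exact Or.inr h
  · rintro (h | h)
    · exact Or.inl (by rw [h])
    · exact Or.inr h

theorem om_mul {z w i : ℕ} {P k : K[X]} (hP : P ∈ Irn K i) (hi : i ∈ Icc z w) (h : ¬ P ∣ k) :
    om z w (P * k) = 1 + om z w k := by
  obtain ⟨hPm, hPd, hPi⟩ := mem_Irn.1 hP
  unfold om
  have key : ∀ j ∈ Icc z w, ((Irn K j).filter (fun Q => Q ∣ P * k)).card =
      ((Irn K j).filter (fun Q => Q ∣ k)).card + if j = i then 1 else 0 := by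
    intro j _
    by_cases hji : j = i
    · rw [if_pos hji, hji]
      have e : (Irn K i).filter (fun Q => Q ∣ P * k) =
          insert P ((Irn K i).filter (fun Q => Q ∣ k)) := by
        ext Q
        rw [mem_insert, mem_filter, mem_filter]
        constructor
        · rintro ⟨h1, h2⟩
          obtain ⟨a, -, c⟩ := mem_Irn.1 h1
          rcases (dvd_iff hPm hPi a c).1 h2 with h3 | h3
          · exact Or.inl h3
          · exact Or.inr ⟨h1, h3⟩
        · rintro (h1 | ⟨h1, h2⟩)
          · rw [h1]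
            exact ⟨hP, dvd_mul_right _ _⟩
          · exact ⟨h1, h2.mul_left P⟩
      rw [e, card_insert_of_notMem]
      intro h1
      rw [mem_filter] at h1
      exact h h1.2
    · rw [if_neg hji, add_zero]
      refine congrArg _ (filter_congr fun Q hQ => ?_)
      obtain ⟨a, b, c⟩ := mem_Irn.1 hQ
      rw [dvd_iff hPm hPi a c]
      constructor
      · rintro (h1 | h1)
        · exfalso
          apply hji
          rw [← b, h1, hPd]
        · exact h1
      · exact Or.inr
  rw [sum_congr rfl key, sum_add_distrib, sum_ite_eq', if_pos hi, add_comm]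

end

end PwPf

open PwPf in
theorem pw : S_pw := by
  intro K _ _ z w f k hz hf hf1 hk hom
  have hn : (om z w k : ℝ) ≠ 0 := by exact_mod_cast hom
  have hn1 : (1 : ℝ) ≤ om z w k := by exact_mod_cast Nat.one_le_iff_ne_zero.2 hom
  have e0 : f k = ∑ i ∈ Icc z w, ∑ P ∈ (Irn K i).filter (fun P => P ∣ k), f k / om z w k := by
    have e1 : ∑ i ∈ Icc z w, ∑ P ∈ (Irn K i).filter (fun P => P ∣ k), f k / (om z w k : ℝ) =
        (om z w k : ℝ) * (f k / om z w k) := by
      simp only [sum_const, nsmul_eq_mul]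
      rw [← sum_mul, ← Nat.cast_sum]
      rfl
    rw [e1, mul_div_cancel₀ _ hn]
  have e2 : f k - ∑ i ∈ Icc z w, ∑ P ∈ (Irn K i).filter (fun P => P ∣ k),
      f P * f (k / P) / (1 + (om z w (k / P) : ℝ)) =
      ∑ i ∈ Icc z w, ∑ P ∈ (Irn K i).filter (fun P => P ∣ k),
        (f k / om z w k - f P * f (k / P) / (1 + (om z w (k / P) : ℝ))) := by
    simp only [sum_sub_distrib]
    rw [← e0]
  have key : ∀ i ∈ Icc z w, ∀ P ∈ (Irn K i).filter (fun P => P ∣ k),
      |f k / om z w k - f P * f (k / P) / (1 + (om z w (k / P) : ℝ))| ≤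
        if P ^ 2 ∣ k then 2 else 0 := by
    intro i hi P hP
    rw [mem_filter] at hP
    obtain ⟨hP1, hP2⟩ := hP
    obtain ⟨hPm, hPd, hPi⟩ := mem_Irn.1 hP1
    have hkP : k = P * (k / P) := (EuclideanDomain.mul_div_cancel' hPm.ne_zero hP2).symm
    by_cases hsq : P ^ 2 ∣ k
    · rw [if_pos hsq]
      have h1 : |f k / om z w k| ≤ 1 := by
        rw [abs_div, Nat.abs_cast, div_le_one (by linarith)]
        exact (hf1 k).trans hn1
      have h2 : |f P * f (k / P) / (1 + (om z w (k / P) : ℝ))| ≤ 1 := by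
        have h3 : (0 : ℝ) < 1 + (om z w (k / P) : ℝ) := by positivity
        rw [abs_div, abs_of_pos h3, div_le_one h3, abs_mul]
        have h4 : |f P| * |f (k / P)| ≤ 1 * 1 :=
          mul_le_mul (hf1 _) (hf1 _) (abs_nonneg _) zero_le_one
        have h5 : (0 : ℝ) ≤ (om z w (k / P) : ℝ) := by positivity
        linarith
      have h3 := abs_sub (f k / om z w k) (f P * f (k / P) / (1 + (om z w (k / P) : ℝ)))
      linarith
    · rw [if_neg hsq]
      have hnd : ¬ P ∣ k / P := by
        intro h
        apply hsq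
        rw [hkP, pow_two]
        exact mul_dvd_mul_left P h
      have h1 : om z w k = 1 + om z w (k / P) := by
        have := om_mul hP1 hi hnd
        rwa [← hkP] at this
      have h2 : f k = f P * f (k / P) := by
        have := hf P (k / P) hPm hPi (by rw [hPd]; exact (mem_Icc.1 hi).1) hnd
        rwa [← hkP] at this
      have h3 : (om z w k : ℝ) = 1 + (om z w (k / P) : ℝ) := by
        rw [h1]; push_cast; ring
      rw [h3, ← h2, sub_self, abs_zero]
  rw [e2]
  refine (abs_sum_le_sum_abs _ _).trans ?_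
  rw [mul_sum]
  refine sum_le_sum fun i hi => (abs_sum_le_sum_abs _ _).trans ?_
  refine (sum_le_sum (key i hi)).trans (le_of_eq ?_)
  rw [← sum_filter, sum_const, nsmul_eq_mul, mul_comm]
  refine congrArg (fun s : Finset K[X] => (2 : ℝ) * (s.card : ℝ)) ?_
  ext P
  rw [mem_filter, mem_filter, mem_filter]
  constructor
  · rintro ⟨⟨a, -⟩, b⟩
    exact ⟨a, b⟩
  · rintro ⟨a, b⟩
    exact ⟨⟨a, (dvd_pow_self P two_ne_zero).trans b⟩, b⟩

end Pool.Agent.H527.ME
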