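import Pool.Agent.H527.ME.Stm

set_option autoImplicit false

namespace Pool.Agent.H527.ME

open Polynomial Finset UniqueFactorizationMonoid
open scoped Classical
open Pool.Agent.H694.Typ (Mn Irn mem_Mn mem_Irn)

section
variable {K : Type} [Field K] [Fintype K]

/-- the set of the exceptional polynomials -/
theorem rec_om_zero {z w : ℕ} {k : K[X]} (h : om z w k = 0) {i : ℕ} {P : K[X]} (hP : P ∈ Irn K i)
    (hd : P ∣ k) : ¬ (z ≤ i ∧ i ≤ w) := by
  intro hi
  unfold om at h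
  rw [Finset.sum_eq_zero_iff] at h
  have h1 := h i (mem_Icc.mpr hi)
  rw [card_eq_zero] at h1
  have h2 : P ∈ (Irn K i).filter (fun P => P ∣ k) := mem_filter.mpr ⟨hP, hd⟩
  rw [h1] at h2
  exact absurd h2 (notMem_empty _)

theorem rec_om_dvd {z w : ℕ} {k k' : K[X]} (h : om z w k = 0) (hd : k' ∣ k) : om z w k' = 0 := by
  unfold om
  refine Finset.sum_eq_zero fun i hi => ?_
  rw [card_eq_zero, filter_eq_empty_iff]
  intro P hP hdd
  exact rec_om_zero h hP (hdd.trans hd) (mem_Icc.mp hi)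

/-- the pairs counted in the degree -/
theorem rec_pointwise {z w j : ℕ} {k : K[X]} (hk : k ∈ Mn K j) (h : om z w k = 0) :
    j ≤ ∑ m ∈ Icc 1 j, ∑ i ∈ m.divisors.filter (fun i => ¬ (z ≤ i ∧ i ≤ w)),
      ∑ P ∈ Irn K i, (if P ^ (m / i) ∣ k then i else 0) := by
  rw [mem_Mn] at hk
  obtain ⟨hm, hj⟩ := hk
  have hk0 : k ≠ 0 := hm.ne_zero
  set NF := normalizedFactors k with hNF
  have hmem : ∀ P ∈ NF, P.Monic ∧ Irreducible P ∧ P ∣ k := by
    intro P hP
    rw [hNF, mem_normalizedFactors_iff' hk0] at hP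
    exact ⟨(normalize_eq_self_iff_monic hP.1.ne_zero).mp hP.2.1, hP.1, hP.2.2⟩
  have hprod : Associated NF.prod k := prod_normalizedFactors hk0
  have hdeg : j = ∑ P ∈ NF.toFinset, NF.count P * P.natDegree := by
    have h1 : NF.prod.natDegree = j := by
      rw [← hj]
      exact natDegree_eq_of_degree_eq (degree_eq_degree_of_associated hprod)
    rw [← h1, natDegree_multiset_prod_of_monic _ (fun f hf => (hmem f hf).1),
      Finset.sum_multiset_map_count]
    rfl
  have hpow : ∀ P a, a ≤ NF.count P → P ^ a ∣ k := by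
    intro P a ha
    have h1 : Multiset.replicate a P ≤ NF := Multiset.le_count_iff_replicate_le.mp ha
    have h2 := Multiset.prod_dvd_prod_of_le h1
    rw [Multiset.prod_replicate] at h2
    exact h2.trans hprod.dvd
  have hL : j = ∑ x ∈ NF.toFinset.sigma (fun P => Icc 1 (NF.count P)), x.1.natDegree := by
    rw [Finset.sum_sigma]
    conv_lhs => rw [hdeg]
    refine Finset.sum_congr rfl fun P _ => ?_
    have h5 : ∑ s ∈ Icc 1 (NF.count P), (⟨P, s⟩ : (Σ _ : K[X], ℕ)).fst.natDegree =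
        ∑ _s ∈ Icc 1 (NF.count P), P.natDegree := rfl
    rw [h5, Finset.sum_const, Nat.card_Icc, smul_eq_mul, Nat.add_sub_cancel]
  have hR : ∑ m ∈ Icc 1 j, ∑ i ∈ m.divisors.filter (fun i => ¬ (z ≤ i ∧ i ≤ w)),
      ∑ P ∈ Irn K i, (if P ^ (m / i) ∣ k then i else 0) =
      ∑ y ∈ (Icc 1 j).sigma (fun m => (m.divisors.filter (fun i => ¬ (z ≤ i ∧ i ≤ w))).sigma
        (fun i => (Irn K i).filter (fun P => P ^ (m / i) ∣ k))), y.2.1 := by
    rw [Finset.sum_sigma]
    refine Finset.sum_congr rfl fun m _ => ?_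
    rw [Finset.sum_sigma]
    refine Finset.sum_congr rfl fun i _ => ?_
    rw [Finset.sum_filter]
  rw [hR]
  conv_lhs => rw [hL]
  set T := (Icc 1 j).sigma (fun m => (m.divisors.filter (fun i => ¬ (z ≤ i ∧ i ≤ w))).sigma
        (fun i => (Irn K i).filter (fun P => P ^ (m / i) ∣ k))) with hT
  set F : (Σ _ : K[X], ℕ) → (Σ _ : ℕ, Σ _ : ℕ, K[X]) :=
    fun x => ⟨x.2 * x.1.natDegree, x.1.natDegree, x.1⟩ with hF
  have hinj : Set.InjOn F (NF.toFinset.sigma (fun P => Icc 1 (NF.count P)) :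
      Finset (Σ _ : K[X], ℕ)) := by
    rintro ⟨P, a⟩ hx ⟨P', a'⟩ hy hxy
    rw [hF] at hxy
    simp only [Sigma.mk.injEq, heq_eq_eq] at hxy
    obtain ⟨h1, h2, h3⟩ := hxy
    subst h3
    rw [mem_coe, mem_sigma, Multiset.mem_toFinset] at hx
    have hpos : 0 < P.natDegree := (hmem P hx.1).2.1.natDegree_pos
    have h4 : a = a' := Nat.eq_of_mul_eq_mul_right hpos h1
    rw [h4]
  rw [← Finset.sum_image (s := NF.toFinset.sigma (fun P => Icc 1 (NF.count P))) (g := F)
    (f := fun y => y.2.1) hinj]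
  refine Finset.sum_le_sum_of_subset ?_
  intro y hy
  rw [mem_image] at hy
  obtain ⟨⟨P, a⟩, hx, rfl⟩ := hy
  rw [mem_sigma, Multiset.mem_toFinset, mem_Icc] at hx
  obtain ⟨hP, ha1, ha2⟩ := hx
  obtain ⟨hP1, hP2, hP3⟩ := hmem P hP
  have hpos : 0 < P.natDegree := hP2.natDegree_pos
  have hPI : P ∈ Irn K P.natDegree := mem_Irn.mpr ⟨hP1, rfl, hP2⟩
  have hPa : P ^ a ∣ k := hpow P a ha2
  rw [hT, hF]
  simp only [mem_sigma, mem_Icc, mem_filter, Nat.mem_divisors]
  refine ⟨⟨?_, ?_⟩, ⟨⟨dvd_mul_left _ _, ?_⟩, ?_⟩, hPI, ?_⟩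
  · exact Nat.mul_pos ha1 hpos
  · rw [← natDegree_pow, ← hj]
    exact natDegree_le_of_dvd hPa hk0
  · exact (Nat.mul_pos ha1 hpos).ne'
  · exact rec_om_zero h hPI hP3
  · rw [Nat.mul_div_cancel _ hpos]
    exact hPa

theorem rec_card {z w j a i : ℕ} {P : K[X]} (hP : P ∈ Irn K i) :
    (((Mn K j).filter (fun k => om z w k = 0)).filter (fun k => P ^ a ∣ k)).card ≤
      exc K z w (j - a * i) := by
  rw [mem_Irn] at hP
  unfold exc
  have h1 : ((Mn K j).filter (fun k => om z w k = 0)).filter (fun k => P ^ a ∣ k) ⊆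
      ((Mn K (j - a * i)).filter (fun k => om z w k = 0)).image (fun k => P ^ a * k) := by
    intro k hk
    rw [mem_filter, mem_filter, mem_Mn] at hk
    obtain ⟨⟨⟨hk1, hk2⟩, hk3⟩, k', hk'⟩ := hk
    have hPm : (P ^ a).Monic := hP.1.pow a
    have hm : k'.Monic := by
      rw [hk'] at hk1
      exact hPm.of_mul_monic_left hk1
    rw [mem_image]
    refine ⟨k', ?_, hk'.symm⟩
    rw [mem_filter, mem_Mn]
    refine ⟨⟨hm, ?_⟩, rec_om_dvd hk3 ⟨P ^ a, by rw [hk', mul_comm]⟩⟩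
    rw [hk', hPm.natDegree_mul hm, natDegree_pow, hP.2.1] at hk2
    omega
  exact (card_le_card h1).trans card_image_le

end

theorem rec' : S_rec := by
  intro K _ _ z w j
  set E := (Mn K j).filter (fun k => om z w k = 0) with hE
  have h0 : exc K z w j = E.card := rfl
  have h1 : j * exc K z w j ≤ ∑ k ∈ E, ∑ m ∈ Icc 1 j,
      ∑ i ∈ m.divisors.filter (fun i => ¬ (z ≤ i ∧ i ≤ w)),
      ∑ P ∈ Irn K i, (if P ^ (m / i) ∣ k then i else 0) := by
    rw [h0, mul_comm, ← smul_eq_mul, ← Finset.sum_const]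
    refine Finset.sum_le_sum fun k hk => ?_
    rw [hE, mem_filter] at hk
    exact rec_pointwise hk.1 hk.2
  refine h1.trans ?_
  rw [Finset.sum_comm]
  refine Finset.sum_le_sum fun m hm => ?_
  rw [Finset.sum_comm, Finset.sum_mul]
  refine Finset.sum_le_sum fun i hi => ?_
  rw [Finset.sum_comm]
  have h2 : ∀ P ∈ Irn K i, ∑ k ∈ E, (if P ^ (m / i) ∣ k then i else 0) ≤
      i * exc K z w (j - m) := by
    intro P hP
    rw [← Finset.sum_filter, Finset.sum_const, smul_eq_mul, mul_comm]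
    refine Nat.mul_le_mul_left _ ?_
    have h3 := rec_card (z := z) (w := w) (j := j) (a := m / i) hP
    rw [mem_filter, Nat.mem_divisors] at hi
    rw [Nat.div_mul_cancel hi.1.1] at h3
    exact h3
  refine (Finset.sum_le_sum h2).trans ?_
  rw [Finset.sum_const, smul_eq_mul]
  exact le_of_eq (by ring)

end Pool.Agent.H527.ME
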