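import Mathlib
import Pool.Agent.H985.Chow.Typ
import Pool.Agent.H527.ME.Stm

/-!
# Project ME (helper527), task SMO: smooth polynomials over `F_q`
-/

set_option autoImplicit false

namespace Pool.Agent.H527.ME

open Polynomial Finset
open scoped Classical
open Pool.Agent.H694.Typ (Mn Irn card_Mn sum_irn irn_one_le q_ge geo)

namespace SmoAux

variable (K : Type) [Field K] [Fintype K]

theorem exc_le (z w j : ℕ) : (exc K z w j : ℝ) ≤ (Fintype.card K : ℝ) ^ j := by
  have h : exc K z w j ≤ Fintype.card K ^ j := by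
    rw [← card_Mn (k := K) j]
    exact Finset.card_filter_le _ _
  exact_mod_cast h

/-- the coefficients of the recursion -/
noncomputable def G (z w m : ℕ) : ℕ :=
  ∑ i ∈ m.divisors.filter (fun i => ¬ (z ≤ i ∧ i ≤ w)), i * (Irn K i).card

theorem G_le (z w m : ℕ) (hm : 1 ≤ m) : (G K z w m : ℝ) ≤ (Fintype.card K : ℝ) ^ m := by
  have h : G K z w m ≤ Fintype.card K ^ m := by
    rw [← sum_irn (k := K) (d := m) hm]
    exact Finset.sum_le_sum_of_subset (Finset.filter_subset _ _)
  exact_mod_cast h

theorem G_le' (z w m : ℕ) (hm : 1 ≤ m) (hz : z ≤ m) (hw : m ≤ w) :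
    (G K z w m : ℝ) ≤ 2 * (Fintype.card K : ℝ) ^ (m / 2) := by
  have hq : 2 ≤ Fintype.card K := Fintype.one_lt_card
  have h : G K z w m ≤ 2 * Fintype.card K ^ (m / 2) := by
    refine le_trans ?_ (geo hq (m / 2))
    unfold G
    have h1 : m.divisors.filter (fun i => ¬ (z ≤ i ∧ i ≤ w)) ⊆ Icc 1 (m / 2) := by
      intro i hi
      rw [Finset.mem_filter, Nat.mem_divisors] at hi
      obtain ⟨⟨⟨c, hc⟩, -⟩, h3⟩ := hi
      have hi0 : 1 ≤ i := by
        rcases Nat.eq_zero_or_pos i with h | h
        · subst h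
          omega
        · exact h
      have hc0 : 1 ≤ c := by
        rcases Nat.eq_zero_or_pos c with h | h
        · subst h
          omega
        · exact h
      have him : i ≤ m := by
        rw [hc]
        exact Nat.le_mul_of_pos_right i hc0
      have hc2 : 2 ≤ c := by
        by_contra hcon
        have hc1 : c = 1 := by omega
        subst hc1
        rw [mul_one] at hc
        exact h3 ⟨by omega, by omega⟩
      rw [Finset.mem_Icc]
      refine ⟨hi0, ?_⟩
      rw [Nat.le_div_iff_mul_le (by norm_num), hc]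
      exact Nat.mul_le_mul_left i hc2
    refine (Finset.sum_le_sum_of_subset h1).trans (Finset.sum_le_sum fun i hi => ?_)
    rw [Finset.mem_Icc] at hi
    exact irn_one_le hi.1
  exact_mod_cast h

theorem geo_sum (r : ℝ) (hr : 0 ≤ r) (hr1 : r < 1) (j : ℕ) :
    ∑ m ∈ Icc 1 j, r ^ m ≤ r / (1 - r) := by
  have h : ∀ j : ℕ, ∑ m ∈ Icc 1 j, r ^ m = (r - r ^ (j + 1)) / (1 - r) := by
    intro j
    have h1 : (1 - r) ≠ 0 := by linarith
    induction j with
    | zero => simp
    | succ j ih =>
      rw [Finset.sum_Icc_succ_top (by omega), ih]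
      field_simp
      ring
  rw [h j]
  have h2 : 0 ≤ r ^ (j + 1) := by positivity
  exact div_le_div_of_nonneg_right (by linarith) (by linarith)

/-- the claim in terms of `ρ`, `ρ ^ z = q` -/
theorem main (h : S_rec) (z w : ℕ) (hz : 4 ≤ z) (ρ : ℝ) (hρ : 1 ≤ ρ)
    (hρz : ρ ^ z = (Fintype.card K : ℝ)) (j : ℕ) : j ≤ w →
    (exc K z w j : ℝ) * ρ ^ j ≤ (Fintype.card K : ℝ) ^ (Fintype.card K + 3) *
      (Fintype.card K : ℝ) ^ j := by
  have hQ2 : (2 : ℝ) ≤ (Fintype.card K : ℝ) := q_ge
  set q : ℕ := Fintype.card K with hq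
  have hQ0 : (0 : ℝ) < (q : ℝ) := by linarith
  have hρ0 : 0 < ρ := by linarith
  induction j using Nat.strong_induction_on with
  | _ j ih =>
    intro hj
    rcases lt_or_ge j (q * z + 11) with hc | hc
    · have h1 : ρ ^ j ≤ (q : ℝ) ^ (q + 3) := by
        rw [← hρz, ← pow_mul]
        exact pow_le_pow_right₀ hρ (by nlinarith)
      have h2 := exc_le K z w j
      calc (exc K z w j : ℝ) * ρ ^ j ≤ (q : ℝ) ^ j * (q : ℝ) ^ (q + 3) :=
            mul_le_mul h2 h1 (by positivity) (by positivity)
        _ = _ := by ring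
    · have hj0 : (0 : ℝ) < (j : ℝ) := by
        have : 0 < j := by omega
        exact_mod_cast this
      have hrec : (j : ℝ) * exc K z w j ≤ ∑ m ∈ Icc 1 j, (G K z w m : ℝ) * exc K z w (j - m) := by
        have h1 := h K z w j
        have h2 : j * exc K z w j ≤ ∑ m ∈ Icc 1 j, G K z w m * exc K z w (j - m) := h1
        exact_mod_cast h2
      set A : ℝ := (q : ℝ) ^ (q + 3) with hA
      have hA0 : 0 < A := by positivity
      -- the terms
      have hterm : ∀ m ∈ Icc 1 j, (G K z w m : ℝ) * exc K z w (j - m) * ρ ^ j ≤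
          A * (q : ℝ) ^ j * ((if m < z then (q : ℝ) else 0) + 2 * (0.842 : ℝ) ^ m) := by
        intro m hm
        rw [Finset.mem_Icc] at hm
        have h1 := ih (j - m) (by omega) (by omega)
        have h2 : ρ ^ j = ρ ^ m * ρ ^ (j - m) := by
          rw [← pow_add]
          congr 1
          omega
        have h3 : (q : ℝ) ^ j = (q : ℝ) ^ m * (q : ℝ) ^ (j - m) := by
          rw [← pow_add]
          congr 1
          omega
        have h4 : (G K z w m : ℝ) * ρ ^ m ≤ (q : ℝ) ^ m *
            ((if m < z then (q : ℝ) else 0) + 2 * (0.842 : ℝ) ^ m) := by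
          by_cases hmz : m < z
          · rw [if_pos hmz]
            have h5 : ρ ^ m ≤ (q : ℝ) := by
              rw [← hρz]
              exact pow_le_pow_right₀ hρ hmz.le
            calc (G K z w m : ℝ) * ρ ^ m ≤ (q : ℝ) ^ m * q :=
                  mul_le_mul (G_le K z w m hm.1) h5 (by positivity) (by positivity)
              _ ≤ (q : ℝ) ^ m * (q + 2 * (0.842 : ℝ) ^ m) := by
                  refine mul_le_mul_of_nonneg_left ?_ (by positivity)
                  have : (0 : ℝ) ≤ 2 * (0.842 : ℝ) ^ m := by positivity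
                  linarith
          · rw [if_neg hmz, zero_add]
            have h5 := G_le' K z w m hm.1 (by omega) (by omega)
            have h6 : (q : ℝ) ^ (m / 2) * ρ ^ m ≤ (q : ℝ) ^ m * (0.842 : ℝ) ^ m := by
              rw [← pow_le_pow_iff_left₀ (by positivity) (by positivity) (by norm_num : (4 : ℕ) ≠ 0)]
              have h7 : ((q : ℝ) ^ (m / 2)) ^ 4 ≤ (q : ℝ) ^ (2 * m) := by
                rw [← pow_mul]
                exact pow_le_pow_right₀ (by linarith) (by omega)
              have h8 : (ρ ^ m) ^ 4 ≤ (q : ℝ) ^ m := by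
                rw [← pow_mul, mul_comm m 4, pow_mul]
                refine pow_le_pow_left₀ (by positivity) ?_ m
                rw [← hρz]
                exact pow_le_pow_right₀ hρ hz
              have h9 : (1 : ℝ) ≤ (q : ℝ) * (0.842 : ℝ) ^ 4 := by
                have : (1 : ℝ) / 2 ≤ (0.842 : ℝ) ^ 4 := by norm_num
                nlinarith
              have h10 : (1 : ℝ) ≤ ((q : ℝ) * (0.842 : ℝ) ^ 4) ^ m := one_le_pow₀ h9
              calc ((q : ℝ) ^ (m / 2) * ρ ^ m) ^ 4 = ((q : ℝ) ^ (m / 2)) ^ 4 * (ρ ^ m) ^ 4 := by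
                    rw [mul_pow]
                _ ≤ (q : ℝ) ^ (2 * m) * (q : ℝ) ^ m :=
                    mul_le_mul h7 h8 (by positivity) (by positivity)
                _ = (q : ℝ) ^ (3 * m) * 1 := by
                    rw [mul_one, ← pow_add]
                    congr 1
                    omega
                _ ≤ (q : ℝ) ^ (3 * m) * ((q : ℝ) * (0.842 : ℝ) ^ 4) ^ m :=
                    mul_le_mul_of_nonneg_left h10 (by positivity)
                _ = ((q : ℝ) ^ m * (0.842 : ℝ) ^ m) ^ 4 := by
                    rw [mul_pow, mul_pow, ← pow_mul, ← pow_mul, ← pow_mul, ← mul_assoc, ← pow_add]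
                    congr 2 <;> ring
            calc (G K z w m : ℝ) * ρ ^ m ≤ 2 * (q : ℝ) ^ (m / 2) * ρ ^ m :=
                  mul_le_mul_of_nonneg_right h5 (by positivity)
              _ = 2 * ((q : ℝ) ^ (m / 2) * ρ ^ m) := by ring
              _ ≤ 2 * ((q : ℝ) ^ m * (0.842 : ℝ) ^ m) := by linarith
              _ = _ := by ring
        calc (G K z w m : ℝ) * exc K z w (j - m) * ρ ^ j
            = ((G K z w m : ℝ) * ρ ^ m) * (exc K z w (j - m) * ρ ^ (j - m)) := by
              rw [h2]
              ring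
          _ ≤ ((q : ℝ) ^ m * ((if m < z then (q : ℝ) else 0) + 2 * (0.842 : ℝ) ^ m)) *
              (A * (q : ℝ) ^ (j - m)) := by
              refine mul_le_mul h4 h1 (by positivity) ?_
              have : (0 : ℝ) ≤ (if m < z then (q : ℝ) else 0) := by
                split_ifs <;> linarith
              positivity
          _ = _ := by
              rw [h3]
              ring
      have hsum1 : ∑ m ∈ Icc 1 j, (if m < z then (q : ℝ) else 0) ≤ z * q := by
        rw [← Finset.sum_filter, Finset.sum_const, nsmul_eq_mul]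
        refine mul_le_mul_of_nonneg_right ?_ hQ0.le
        have : ((Icc 1 j).filter (fun m => m < z)).card ≤ z := by
          calc ((Icc 1 j).filter (fun m => m < z)).card ≤ (range z).card := by
                refine Finset.card_le_card fun m hm => ?_
                rw [Finset.mem_filter] at hm
                exact Finset.mem_range.2 hm.2
            _ = z := Finset.card_range z
        exact_mod_cast this
      have hsum2 := geo_sum (0.842 : ℝ) (by norm_num) (by norm_num) j
      have hjr : (z : ℝ) * q + 11 ≤ j := by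
        have : z * q + 11 ≤ j := by
          rw [mul_comm z q]
          exact hc
        exact_mod_cast this
      have hfin : (j : ℝ) * (exc K z w j * ρ ^ j) ≤ (j : ℝ) * (A * (q : ℝ) ^ j) := by
        calc (j : ℝ) * (exc K z w j * ρ ^ j) = (j : ℝ) * exc K z w j * ρ ^ j := by ring
          _ ≤ (∑ m ∈ Icc 1 j, (G K z w m : ℝ) * exc K z w (j - m)) * ρ ^ j :=
              mul_le_mul_of_nonneg_right hrec (by positivity)
          _ = ∑ m ∈ Icc 1 j, (G K z w m : ℝ) * exc K z w (j - m) * ρ ^ j := by
              rw [Finset.sum_mul]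
          _ ≤ ∑ m ∈ Icc 1 j, A * (q : ℝ) ^ j *
              ((if m < z then (q : ℝ) else 0) + 2 * (0.842 : ℝ) ^ m) :=
              Finset.sum_le_sum hterm
          _ = A * (q : ℝ) ^ j * (∑ m ∈ Icc 1 j, (if m < z then (q : ℝ) else 0) +
              2 * ∑ m ∈ Icc 1 j, (0.842 : ℝ) ^ m) := by
              rw [← Finset.mul_sum, Finset.sum_add_distrib, ← Finset.mul_sum]
          _ ≤ A * (q : ℝ) ^ j * j := by
              refine mul_le_mul_of_nonneg_left ?_ (by positivity)
              have h5 : (0.842 : ℝ) / (1 - 0.842) ≤ 5.4 := by norm_num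
              linarith
          _ = (j : ℝ) * (A * (q : ℝ) ^ j) := by ring
      exact le_of_mul_le_mul_left hfin hj0

end SmoAux

/-- **Task SMO.** -/
theorem smo (h : S_rec) : S_smo := by
  intro K _ _ z w j hz hj
  have hQ2 : (2 : ℝ) ≤ (Fintype.card K : ℝ) := q_ge
  have hQ0 : (0 : ℝ) < (Fintype.card K : ℝ) := by linarith
  have hz0 : (0 : ℝ) < (z : ℝ) := by
    have : 0 < z := by omega
    exact_mod_cast this
  set ρ : ℝ := (Fintype.card K : ℝ) ^ ((1 : ℝ) / z) with hρ
  have hρ1 : 1 ≤ ρ := Real.one_le_rpow (by linarith) (by positivity)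
  have hρz : ρ ^ z = (Fintype.card K : ℝ) := by
    rw [hρ, ← Real.rpow_natCast, ← Real.rpow_mul hQ0.le, one_div, inv_mul_cancel₀ hz0.ne',
      Real.rpow_one]
  have h1 := SmoAux.main K h z w hz ρ hρ1 hρz j hj
  have h2 : ρ ^ j = (Fintype.card K : ℝ) ^ ((j : ℝ) / z) := by
    rw [hρ, ← Real.rpow_natCast, ← Real.rpow_mul hQ0.le]
    congr 1
    ring
  have h3 : 0 < ρ ^ j := by positivity
  have h4 : (Fintype.card K : ℝ) ^ ((j : ℝ) - (j : ℝ) / z) = (Fintype.card K : ℝ) ^ j / ρ ^ j := by
    rw [Real.rpow_sub hQ0, h2, Real.rpow_natCast]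
  rw [h4, ← mul_div_assoc, le_div_iff₀ h3]
  exact h1

end Pool.Agent.H527.ME
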