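import Pool.Agent.H527.ME.Stm

/-!
# ME-TWI: the twist by arbitrary multiplicative functions (helper696)
-/

set_option autoImplicit false

namespace Pool.Agent.H527.ME

open Polynomial Finset
open scoped Classical
open Pool.Agent.H694.Typ (Mn mem_Mn card_Mn q_ge)

namespace Twi

theorem split {K : Type} [Field K] [Fintype K] {n d z w : ℕ} {D : ℝ} {h : K[X]}
    {f aK : K[X] → ℝ} (hf : ∀ k, |f k| ≤ 1) (ha : ∀ F, |aK F| ≤ 1)
    (hD : ∀ u : K[X] → ℝ, (∀ M, |u M| ≤ 1) →
      |∑ M ∈ Mn K d, u M * ∑ k ∈ (Mn K (n - d)).filter (fun k => om z w k ≠ 0),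
        f k * aK (M * k + h)| ≤ D) :
    ∑ M ∈ Mn K d, |∑ k ∈ Mn K (n - d), f k * aK (M * k + h)| ≤
      D + (Fintype.card K : ℝ) ^ d * exc K z w (n - d) := by
  set I : K[X] → ℝ := fun M => ∑ k ∈ (Mn K (n - d)).filter (fun k => om z w k ≠ 0),
    f k * aK (M * k + h) with hI
  have h1 : ∀ M ∈ Mn K d, |∑ k ∈ Mn K (n - d), f k * aK (M * k + h)| ≤
      |I M| + exc K z w (n - d) := by
    intro M _
    rw [← Finset.sum_filter_add_sum_filter_not (Mn K (n - d)) (fun k => om z w k ≠ 0)]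
    refine (abs_add_le _ _).trans (add_le_add le_rfl ?_)
    refine (Finset.abs_sum_le_sum_abs _ _).trans ?_
    have h2 : ∀ k ∈ (Mn K (n - d)).filter (fun k => ¬ om z w k ≠ 0),
        |f k * aK (M * k + h)| ≤ 1 := by
      intro k _
      rw [abs_mul]
      exact mul_le_one₀ (hf k) (abs_nonneg _) (ha _)
    refine (Finset.sum_le_card_nsmul _ _ _ h2).trans ?_
    rw [nsmul_eq_mul, mul_one]
    unfold exc
    have h3 : (Mn K (n - d)).filter (fun k => ¬ om z w k ≠ 0) =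
        (Mn K (n - d)).filter (fun k => om z w k = 0) :=
      Finset.filter_congr fun k _ => not_not
    rw [h3]
  refine (Finset.sum_le_sum h1).trans ?_
  rw [Finset.sum_add_distrib, Finset.sum_const, card_Mn, nsmul_eq_mul, Nat.cast_pow]
  refine add_le_add ?_ le_rfl
  have h4 := hD (fun M => if 0 ≤ I M then 1 else -1) (by
    intro M
    split_ifs <;> simp)
  refine le_trans ?_ h4
  refine le_trans (le_of_eq ?_) (le_abs_self _)
  refine Finset.sum_congr rfl fun M _ => ?_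
  show |I M| = (if 0 ≤ I M then 1 else -1) * I M
  split_ifs with h5
  · rw [one_mul, abs_of_nonneg h5]
  · rw [abs_of_neg (not_le.1 h5)]
    ring

theorem triv {K : Type} [Field K] [Fintype K] {n d : ℕ} {h : K[X]} (hdn : d ≤ n)
    {f aK : K[X] → ℝ} (hf : ∀ k, |f k| ≤ 1) (ha : ∀ F, |aK F| ≤ 1) :
    ∑ M ∈ Mn K d, |∑ k ∈ Mn K (n - d), f k * aK (M * k + h)| ≤ (Fintype.card K : ℝ) ^ n := by
  have h1 : ∀ M ∈ Mn K d, |∑ k ∈ Mn K (n - d), f k * aK (M * k + h)| ≤
      (Fintype.card K : ℝ) ^ (n - d) := by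
    intro M _
    refine (Finset.abs_sum_le_sum_abs _ _).trans ?_
    have h2 : ∀ k ∈ Mn K (n - d), |f k * aK (M * k + h)| ≤ 1 := by
      intro k _
      rw [abs_mul]
      exact mul_le_one₀ (hf k) (abs_nonneg _) (ha _)
    refine (Finset.sum_le_card_nsmul _ _ _ h2).trans ?_
    rw [nsmul_eq_mul, mul_one, card_Mn, Nat.cast_pow]
  refine (Finset.sum_le_card_nsmul _ _ _ h1).trans (le_of_eq ?_)
  rw [nsmul_eq_mul, card_Mn, Nat.cast_pow, ← pow_add]
  congr 1
  omega

end Twi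

/-- **Task TWI.** -/
theorem atw : S_atw := by
  intro hexc a ha htyp K _ _ _
  obtain ⟨C₀, c, hc, n₀, htyp'⟩ := htyp K (1 / 50) (by norm_num)
  obtain ⟨q, hq⟩ : ∃ q : ℝ, q = (Fintype.card K : ℝ) := ⟨_, rfl⟩
  rw [← hq] at htyp'
  have hexq := hexc K
  rw [← hq] at hexq
  have hq2 : (2 : ℝ) ≤ q := hq ▸ q_ge
  have hq0 : 0 < q := by linarith
  have hlog2 : 0 < Real.log 2 := Real.log_pos (by norm_num)
  have hlog2' : (0.69 : ℝ) < Real.log 2 := by
    have := Real.log_two_gt_d9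
    linarith
  obtain ⟨B, hB6, hBc⟩ : ∃ B : ℝ, 6 ≤ B ∧ (C₀ : ℝ) + 3 ≤ B * (c * Real.log 2) := by
    refine ⟨max 6 (((C₀ : ℝ) + 3) / (c * Real.log 2)), le_max_left _ _, ?_⟩
    have h1 : ((C₀ : ℝ) + 3) / (c * Real.log 2) ≤
      max 6 (((C₀ : ℝ) + 3) / (c * Real.log 2)) := le_max_right _ _
    rwa [div_le_iff₀ (by positivity)] at h1
  have hB0 : 0 < B := by linarith
  obtain ⟨Q, hQ⟩ : ∃ Q : ℝ, Q = 2 * q ^ (Fintype.card K + 3) * (3 : ℝ) ^ 10 * (10 * (B + 2)) :=
    ⟨_, rfl⟩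
  have hQ0 : 0 ≤ Q := by rw [hQ]; positivity
  obtain ⟨κ, hκ, hκB⟩ : ∃ κ : ℝ, 0 < κ ∧ B * κ = 1 / 20 :=
    ⟨1 / (20 * B), by positivity, by field_simp⟩
  obtain ⟨j1, hj1⟩ : ∃ j1 : ℕ, j1 = n₀ + 40 := ⟨_, rfl⟩
  refine ⟨(j1 : ℝ) / Real.log 2 + 1 / κ + 2 / Real.log 2 + Q, by positivity, ?_⟩
  intro n d h f hn hd hh hhn hmul hf
  rw [← hq]
  have hn2 : (2 : ℝ) ≤ n := by exact_mod_cast hn
  have hn0 : (0 : ℝ) < n := by linarith
  have hdn : d ≤ n := hd.le
  obtain ⟨J, hJ⟩ : ∃ J : ℝ, (n : ℝ) - d = J := ⟨_, rfl⟩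
  rw [hJ]
  have hJ1 : 1 ≤ J := by
    have h1 : (d : ℝ) + 1 ≤ n := by exact_mod_cast hd
    linarith
  have hJ0 : 0 < J := by linarith
  have hJn : J ≤ n := by
    have : (0 : ℝ) ≤ d := Nat.cast_nonneg _
    linarith
  have hJc : ((n - d : ℕ) : ℝ) = J := by rw [Nat.cast_sub hdn, hJ]
  have hlogn : Real.log 2 ≤ Real.log n := Real.log_le_log (by norm_num) hn2
  have hlogn0 : 0 < Real.log n := by linarith
  have hqn : 0 < q ^ n := by positivity
  have hr0 : 0 < Real.log n / J := by positivity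
  by_cases hcase : J < j1 ∨ κ * J < Real.log n
  · have htr := Twi.triv (h := h) hdn hf (ha K)
    rw [← hq] at htr
    refine htr.trans ?_
    have h3 : 1 ≤ ((j1 : ℝ) / Real.log 2 + 1 / κ + 2 / Real.log 2 + Q) * (Real.log n / J) := by
      rcases hcase with h1 | h1
      · have h2 : 1 ≤ (j1 : ℝ) / Real.log 2 * (Real.log n / J) := by
          rw [div_mul_div_comm, le_div_iff₀ (by positivity), one_mul]
          calc Real.log 2 * J ≤ Real.log n * j1 := by gcongr
            _ = _ := mul_comm _ _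
        have h4 : 0 ≤ (1 / κ + 2 / Real.log 2 + Q) * (Real.log n / J) := by positivity
        nlinarith
      · have h2 : 1 ≤ 1 / κ * (Real.log n / J) := by
          rw [div_mul_div_comm, le_div_iff₀ (by positivity), one_mul, one_mul]
          exact h1.le
        have h4 : 0 ≤ ((j1 : ℝ) / Real.log 2 + 2 / Real.log 2 + Q) * (Real.log n / J) := by
          positivity
        nlinarith
    calc q ^ n = 1 * q ^ n := (one_mul _).symm
      _ ≤ _ := mul_le_mul_of_nonneg_right h3 hqn.le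
  · push Not at hcase
    obtain ⟨hcase1, hcase2⟩ := hcase
    have hj1' : (n₀ : ℝ) + 40 ≤ J := by
      rw [hj1] at hcase1
      push_cast at hcase1
      exact hcase1
    have hn00 : (0 : ℝ) ≤ n₀ := Nat.cast_nonneg _
    have hnn0 : n₀ ≤ n := by
      have h1 : (n₀ : ℝ) ≤ n := by linarith
      exact_mod_cast h1
    obtain ⟨z, hz⟩ : ∃ z : ℕ, z = ⌈B * Real.log n⌉₊ := ⟨_, rfl⟩
    obtain ⟨w, hw⟩ : ∃ w : ℕ, w = ⌊J / 5⌋₊ := ⟨_, rfl⟩
    have hBl : 0 ≤ B * Real.log n := by positivity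
    have hz1 : B * Real.log n ≤ z := hz ▸ Nat.le_ceil _
    have hz2 : (z : ℝ) < B * Real.log n + 1 := hz ▸ Nat.ceil_lt_add_one hBl
    have hw1 : (w : ℝ) ≤ J / 5 := hw ▸ Nat.floor_le (by positivity)
    have hw2 : J / 5 < w + 1 := hw ▸ Nat.lt_floor_add_one _
    have hzJ : (z : ℝ) ≤ J / 20 + 1 := by
      have h1 : B * Real.log n ≤ J / 20 := by
        calc B * Real.log n ≤ B * (κ * J) := by gcongr
          _ = B * κ * J := by ring
          _ = J / 20 := by rw [hκB]; ring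
      linarith
    have hz4 : 4 ≤ z := by
      have h1 : (4 : ℝ) ≤ z := by nlinarith
      exact_mod_cast h1
    have hzw : z ≤ w := by
      have h1 : (z : ℝ) ≤ w := by linarith
      exact_mod_cast h1
    have hdw : d + w ≤ n := by
      have h1 : (d : ℝ) + w ≤ n := by linarith
      exact_mod_cast h1
    have hw4 : (w : ℝ) ≤ (1 / 4 - 1 / 50) * n := by linarith
    have hwn : w ≤ n - d := by omega
    have hw0 : J / 10 ≤ w := by linarith
    have hwpos : (0 : ℝ) < w := by linarith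
    -- the typical part
    have hD := fun u hu => htyp' n hnn0 d z w h f u (by omega) hdw hw4 hh hhn
      (fun P k h1 h2 h3 h4 => hmul P k h1 h2 (Nat.zero_le _) h4) hf hu
    have hsp := Twi.split hf (ha K) hD
    rw [← hq] at hsp
    refine hsp.trans ?_
    have hzn : (z : ℝ) ≤ n := by
      have h1 : z ≤ n := by omega
      exact_mod_cast h1
    have e1 : (n : ℝ) ^ C₀ * q ^ (-c * z) ≤ 1 / n := by
      have h1 : (n : ℝ) ^ C₀ = Real.exp (C₀ * Real.log n) := by
        rw [mul_comm, Real.exp_mul, Real.exp_log hn0, Real.rpow_natCast]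
      have h2 : q ^ (-c * (z : ℝ)) = Real.exp (Real.log q * (-c * z)) :=
        Real.rpow_def_of_pos hq0 _
      have h3 : (1 : ℝ) / n = Real.exp (-Real.log n) := by
        rw [Real.exp_neg, Real.exp_log hn0, one_div]
      rw [h1, h2, h3, ← Real.exp_add]
      apply Real.exp_le_exp.2
      have h4 : Real.log 2 ≤ Real.log q := Real.log_le_log (by norm_num) hq2
      have h5 : ((C₀ : ℝ) + 3) * Real.log n ≤ Real.log q * (c * z) := by
        calc ((C₀ : ℝ) + 3) * Real.log n ≤ B * (c * Real.log 2) * Real.log n := by gcongr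
          _ = Real.log 2 * (c * (B * Real.log n)) := by ring
          _ ≤ Real.log q * (c * z) := mul_le_mul h4 (mul_le_mul_of_nonneg_left hz1 hc.le)
              (by positivity) (hlog2.le.trans h4)
      have h6 : Real.log q * (-c * z) = - (Real.log q * (c * z)) := by ring
      rw [h6]
      linarith
    have e2 : q ^ (-c * (n : ℝ)) ≤ q ^ (-c * (z : ℝ)) := by
      apply Real.rpow_le_rpow_of_exponent_le (by linarith)
      nlinarith
    have e3 : (n : ℝ) ^ C₀ * q ^ n * (q ^ (-c * (z : ℝ)) + q ^ (-c * (n : ℝ))) ≤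
        2 / Real.log 2 * (Real.log n / J) * q ^ n := by
      have h1 : (n : ℝ) ^ C₀ * (q ^ (-c * (z : ℝ)) + q ^ (-c * (n : ℝ))) ≤ 2 * (1 / n) := by
        calc (n : ℝ) ^ C₀ * (q ^ (-c * (z : ℝ)) + q ^ (-c * (n : ℝ))) ≤
              (n : ℝ) ^ C₀ * (q ^ (-c * (z : ℝ)) + q ^ (-c * (z : ℝ))) := by gcongr
          _ = 2 * ((n : ℝ) ^ C₀ * q ^ (-c * (z : ℝ))) := by ring
          _ ≤ _ := by gcongr
      have h2 : 2 * (1 / (n : ℝ)) ≤ 2 / Real.log 2 * (Real.log n / J) := by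
        rw [div_mul_div_comm, mul_one_div, div_le_div_iff₀ hn0 (by positivity)]
        have h9 : Real.log 2 * J ≤ Real.log n * n := mul_le_mul hlogn hJn hJ0.le hlogn0.le
        linarith
      calc _ = (n : ℝ) ^ C₀ * (q ^ (-c * (z : ℝ)) + q ^ (-c * (n : ℝ))) * q ^ n := by ring
        _ ≤ _ := mul_le_mul_of_nonneg_right (h1.trans h2) hqn.le
    -- the exceptional part
    have hx := hexq z w (n - d) hz4 hzw hwn
    have e4 : ((3 : ℝ) ^ ((n - d) / w)) ≤ (3 : ℝ) ^ 10 := by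
      apply pow_le_pow_right₀ (by norm_num)
      have h1 : (((n - d) / w : ℕ) : ℝ) ≤ 10 := by
        refine Nat.cast_div_le.trans ?_
        rw [div_le_iff₀ hwpos, hJc]
        linarith
      exact_mod_cast h1
    have e5 : (z : ℝ) / w ≤ 10 * (B + 2) * (Real.log n / J) := by
      rw [← mul_div_assoc, div_le_div_iff₀ hwpos hJ0]
      have h1 : (z : ℝ) ≤ (B + 2) * Real.log n := by nlinarith
      calc (z : ℝ) * J ≤ (B + 2) * Real.log n * J := by gcongr
        _ = 10 * (B + 2) * Real.log n * (J / 10) := by ring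
        _ ≤ _ := by gcongr
    have e6 : q ^ d * (exc K z w (n - d) : ℝ) ≤ Q * (Real.log n / J) * q ^ n := by
      have hpow : q ^ n = q ^ d * q ^ (n - d) := by
        rw [← pow_add]
        congr 1
        omega
      calc q ^ d * (exc K z w (n - d) : ℝ) ≤ q ^ d * (2 * q ^ (Fintype.card K + 3) *
            3 ^ ((n - d) / w) * ((z : ℝ) / w) * q ^ (n - d)) := by gcongr
        _ ≤ q ^ d * (2 * q ^ (Fintype.card K + 3) * (3 : ℝ) ^ 10 *
            (10 * (B + 2) * (Real.log n / J)) * q ^ (n - d)) := by gcongr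
        _ = _ := by rw [hpow, hQ]; ring
    have h7 : 0 ≤ ((j1 : ℝ) / Real.log 2 + 1 / κ) * (Real.log n / J) * q ^ n := by positivity
    calc _ ≤ 2 / Real.log 2 * (Real.log n / J) * q ^ n + Q * (Real.log n / J) * q ^ n :=
          add_le_add e3 e6
      _ ≤ _ := by linarith

end Pool.Agent.H527.ME
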