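import Pool.Agent.H527.ME.Stm

/-!
# Task TWO: the parameters for the strong saving (helper376, for helper527)
-/

set_option autoImplicit false

namespace Pool.Agent.H527.ME

open Polynomial Finset
open scoped Classical
open Pool.Agent.H985.Chow (mob)
open Pool.Agent.H985.KP (mobg)
open Pool.Agent.H694.Typ (Mn Irn)
open Pool.Agent.H251.SP (lam S_tii)

namespace Two

theorem geo (q : ℝ) (hq : 2 ≤ q) (n : ℕ) : ∑ m ∈ range (n + 1), q ^ m ≤ 2 * q ^ n := by
  induction n with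
  | zero => simp
  | succ n ih =>
    rw [Finset.sum_range_succ, pow_succ]
    have h : 0 < q ^ n := by positivity
    nlinarith

theorem rpow_le (q x : ℝ) (hq : 2 ≤ q) (hx : 0 ≤ x) : q ^ (-x) ≤ Real.exp (-(Real.log 2 * x)) := by
  rw [Real.rpow_def_of_pos (by linarith)]
  apply Real.exp_le_exp.2
  have h1 : Real.log 2 ≤ Real.log q := Real.log_le_log (by norm_num) hq
  nlinarith

end Two

open Two

theorem atwo : S_atwo := by
  intro hsmo hch a ha htyp K _ _ _ ε hε
  obtain ⟨C₀, c₀, hc₀, n₀, hT⟩ := htyp K ε hε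
  have hq2 : 2 ≤ Fintype.card K := Fintype.one_lt_card
  have hchq := hch K
  have hsmoq := hsmo K
  revert hT hchq hsmoq
  generalize hqdef : Fintype.card K = q at *
  intro hT hchq hsmoq
  have hq2' : (2 : ℝ) ≤ q := by exact_mod_cast hq2
  have hq0 : (0 : ℝ) < q := by linarith
  have hq1 : (1 : ℝ) ≤ q := by linarith
  have hlog2 : 0 < Real.log 2 := Real.log_pos (by norm_num)
  have hlog2' : 1 / 2 ≤ Real.log 2 := by
    have := Real.log_two_gt_d9
    linarith
  obtain ⟨B, hB4, hBc⟩ : ∃ B : ℝ, 4 ≤ B ∧ (C₀ : ℝ) + 3 ≤ c₀ * Real.log 2 * B := by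
    refine ⟨max 4 (((C₀ : ℝ) + 3) / (c₀ * Real.log 2)), le_max_left _ _, ?_⟩
    have h1 : 0 < c₀ * Real.log 2 := by positivity
    calc (C₀ : ℝ) + 3 = c₀ * Real.log 2 * (((C₀ : ℝ) + 3) / (c₀ * Real.log 2)) := by field_simp
      _ ≤ _ := by gcongr; exact le_max_right _ _
  obtain ⟨κ, hκ, hκB⟩ : ∃ κ : ℝ, 0 < κ ∧ (B + 1) * κ = 1 / 2 :=
    ⟨1 / (2 * (B + 1)), by positivity, by field_simp⟩
  obtain ⟨c, hc, hc1, hcμ⟩ : ∃ c : ℝ, 0 < c ∧ c ≤ 1 ∧ c ≤ κ * Real.log 2 :=
    ⟨min 1 (κ * Real.log 2), lt_min one_pos (by positivity), min_le_left _ _, min_le_right _ _⟩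
  refine ⟨Real.exp (2 * n₀ + 1 / κ) + (3 + 2 * (q : ℝ) ^ (q + 3)), c, by positivity, hc, ?_⟩
  intro n d H hh mm hn hdn hd1 hH hhH hmm
  have hn2 : (2 : ℝ) ≤ n := by exact_mod_cast hn
  have hn0 : (0 : ℝ) < n := by linarith
  have hd0 : (0 : ℝ) ≤ d := Nat.cast_nonneg d
  obtain ⟨J, hJ⟩ : ∃ J : ℝ, (n : ℝ) - d = J := ⟨_, rfl⟩
  rw [hJ]
  have hJ1 : 1 ≤ J := by
    have h1 : (d : ℝ) + 1 ≤ n := by exact_mod_cast hdn
    linarith
  have hJ0 : 0 < J := by linarith
  have hJn : J ≤ n := by linarith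
  have hcard : (1 : ℝ) ≤ H.card := by
    have : 0 < H.card := Finset.card_pos.2 ⟨_, hhH 0⟩
    exact_mod_cast this
  obtain ⟨L, hL⟩ : ∃ L : ℝ, Real.log H.card = L := ⟨_, rfl⟩
  have hL0 : 0 ≤ L := hL ▸ Real.log_nonneg hcard
  have hexpL : Real.exp L = H.card := by
    rw [← hL, Real.exp_log (by linarith)]
  obtain ⟨N, hN⟩ : ∃ N : ℝ, Real.log n = N := ⟨_, rfl⟩
  have hN0 : 0 ≤ N := hN ▸ Real.log_nonneg (by linarith)
  have hexpN : Real.exp N = n := by
    rw [← hN, Real.exp_log (by linarith)]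
  have hsq1 : 1 ≤ √J := by
    rw [Real.one_le_sqrt]; exact hJ1
  rw [hN, hL]
  obtain ⟨R, hR⟩ : ∃ R : ℝ, √J + N + L = R := ⟨_, rfl⟩
  have hR1 : 1 ≤ R := by linarith
  have hR0 : 0 < R := by linarith
  have hRs : √J ≤ R := by linarith
  have hRN : N ≤ R := by linarith
  have hRL : L ≤ R := by linarith
  rw [hR]
  have hJR' : J / R ≤ √J := by
    rw [div_le_iff₀ hR0]
    calc J = √J * √J := (Real.mul_self_sqrt hJ0.le).symm
      _ ≤ √J * R := by gcongr
  have hJR : J / R ≤ R := hJR'.trans hRs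
  have hJR0 : 0 ≤ J / R := by positivity
  have haK : ∀ F : K[X], |(a K F : ℝ)| ≤ 1 := ha K
  have hqn : (0 : ℝ) < (q : ℝ) ^ n := by positivity
  have e0 : -(c * J / R) = -(c * (J / R)) := by ring
  rw [e0]
  obtain ⟨E, hE⟩ : ∃ E : ℝ, Real.exp (-(c * (J / R))) = E := ⟨_, rfl⟩
  rw [hE]
  have hE0 : 0 < E := hE ▸ Real.exp_pos _
  have hEn : Real.exp (-(J / R)) ≤ E := by
    rw [← hE]
    apply Real.exp_le_exp.2
    nlinarith
  have hER : Real.exp (-R) ≤ E := by
    refine le_trans ?_ hEn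
    apply Real.exp_le_exp.2
    linarith
  by_cases hcase : 2 * (n₀ : ℝ) ≤ J ∧ R ≤ κ * J
  · obtain ⟨hn₁, hRκ⟩ := hcase
    obtain ⟨z, hz⟩ : ∃ z : ℕ, ⌈B * R⌉₊ = z := ⟨_, rfl⟩
    have hz1 : B * R ≤ z := hz ▸ Nat.le_ceil _
    have hz2 : (z : ℝ) < B * R + 1 := hz ▸ Nat.ceil_lt_add_one (by positivity)
    have hz3 : (z : ℝ) ≤ (B + 1) * R := by nlinarith
    have hz4 : (z : ℝ) ≤ J / 2 := by
      calc (z : ℝ) ≤ (B + 1) * R := hz3
        _ ≤ (B + 1) * (κ * J) := by gcongr
        _ = (B + 1) * κ * J := by ring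
        _ = J / 2 := by rw [hκB]; ring
    have hz5 : (4 : ℝ) ≤ z := by nlinarith
    have hz6 : 4 ≤ z := by exact_mod_cast hz5
    have hz0 : (0 : ℝ) < z := by linarith
    have hdz : (d : ℝ) + z ≤ n := by linarith
    have hdz' : d + z ≤ n := by exact_mod_cast hdz
    have hzn : z ≤ n := by omega
    -- the bound for the typical part
    obtain ⟨D, hD⟩ : ∃ D : ℝ, 2 * (n : ℝ) ^ C₀ * (q : ℝ) ^ n * Real.exp (-((C₀ + 3) * R)) = D :=
      ⟨_, rfl⟩
    have hqz : ∀ x : ℝ, (z : ℝ) ≤ x → (q : ℝ) ^ (-c₀ * x) ≤ Real.exp (-((C₀ + 3) * R)) := by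
      intro x hx
      have hx0 : 0 ≤ c₀ * x := by
        have : 0 < x := by linarith
        positivity
      have h1 := rpow_le q (c₀ * x) hq2' hx0
      have e1 : -c₀ * x = -(c₀ * x) := by ring
      rw [e1]
      refine h1.trans (Real.exp_le_exp.2 ?_)
      have h2 : c₀ * Real.log 2 * (B * R) ≤ c₀ * Real.log 2 * x := by
        have : B * R ≤ x := hz1.trans hx
        gcongr
      have h3 : ((C₀ : ℝ) + 3) * R ≤ c₀ * Real.log 2 * B * R := by gcongr
      linarith
    have hmain := hchq n d z z (fun m => m - d) (fun F => (a K F : ℝ)) H D hh mm haK hdz' hH hhH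
      hmm ?_
    swap
    · intro m hm1 hm2 h hhm u hu
      have hdm : d ≤ m := by omega
      have hm1' : (n : ℝ) - z ≤ m := by
        have h4 : n ≤ m + z := by omega
        have h5 : (n : ℝ) ≤ m + z := by exact_mod_cast h4
        linarith
      have hm2' : (m : ℝ) ≤ n := by exact_mod_cast hm2
      have hnm : n₀ ≤ m := by
        have h4 : (n₀ : ℝ) ≤ m := by linarith
        exact_mod_cast h4
      have hw : ((m - d : ℕ) : ℝ) = m - d := by
        rw [Nat.cast_sub hdm]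
      have hzm : (z : ℝ) ≤ m := by linarith
      have h6 := hT m hnm d z (m - d) h (fun _ => 1) u (by omega) (by omega)
        (by rw [hw]; nlinarith) (hH h hhm).1 (by have := (hH h hhm).2; omega)
        (fun P k _ _ _ _ => by norm_num) (fun _ => by norm_num) hu
      simp only [one_mul] at h6
      refine h6.trans ?_
      rw [← hD]
      have h7 := hqz z le_rfl
      have h8 := hqz m hzm
      have h9 : (q : ℝ) ^ m ≤ (q : ℝ) ^ n := pow_le_pow_right₀ hq1 hm2
      have h10 : (m : ℝ) ^ C₀ ≤ (n : ℝ) ^ C₀ := by gcongr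
      have h11 : (q : ℝ) ^ (-c₀ * z) + (q : ℝ) ^ (-c₀ * m) ≤
          2 * Real.exp (-((C₀ + 3) * R)) := by
        linarith
      have h12 : 0 ≤ (q : ℝ) ^ (-c₀ * z) + (q : ℝ) ^ (-c₀ * m) := by positivity
      calc (m : ℝ) ^ C₀ * (q : ℝ) ^ m * ((q : ℝ) ^ (-c₀ * z) + (q : ℝ) ^ (-c₀ * m))
          ≤ (n : ℝ) ^ C₀ * (q : ℝ) ^ n * (2 * Real.exp (-((C₀ + 3) * R))) := by gcongr
        _ = _ := by ring
    refine hmain.trans ?_
    -- the three parts
    have hp1 : (q : ℝ) ^ (n - z) ≤ (q : ℝ) ^ n * E := by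
      have h1 : (q : ℝ) ^ n = (q : ℝ) ^ (n - z) * (q : ℝ) ^ z := by
        rw [← pow_add, Nat.sub_add_cancel hzn]
      have h2 : 1 ≤ (q : ℝ) ^ z * E := by
        have h3 : Real.exp (Real.log 2 * z) ≤ (q : ℝ) ^ z := by
          rw [Real.exp_mul, Real.exp_log (by norm_num), Real.rpow_natCast]
          gcongr
        calc (1 : ℝ) = Real.exp 0 := Real.exp_zero.symm
          _ ≤ Real.exp (Real.log 2 * z + -R) := by
            apply Real.exp_le_exp.2
            nlinarith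
          _ = Real.exp (Real.log 2 * z) * Real.exp (-R) := Real.exp_add _ _
          _ ≤ (q : ℝ) ^ z * E := by gcongr
      rw [h1, mul_assoc]
      exact le_mul_of_one_le_right (by positivity) h2
    have hcardI : ((Ioc (n - z) n).card : ℝ) ≤ n := by
      rw [Nat.card_Ioc]
      exact_mod_cast (by omega : n - (n - z) ≤ n)
    have hp2 : ∑ m ∈ Ioc (n - z) n, (H.card * D : ℝ) ≤ 2 * ((q : ℝ) ^ n * E) := by
      rw [Finset.sum_const, nsmul_eq_mul]
      have hD0 : 0 ≤ (H.card : ℝ) * D := by rw [← hD]; positivity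
      have h1 : (n : ℝ) ^ (C₀ + 1) = Real.exp ((C₀ + 1) * N) := by
        rw [← hexpN, ← Real.exp_nat_mul]
        push_cast
        rfl
      have h2 : Real.exp ((C₀ + 1) * N) * (Real.exp L * Real.exp (-((C₀ + 3) * R))) ≤ E := by
        refine le_trans ?_ hER
        rw [← Real.exp_add, ← Real.exp_add]
        apply Real.exp_le_exp.2
        have h3 : ((C₀ : ℝ) + 1) * N ≤ (C₀ + 1) * R := by gcongr
        linarith
      calc ((Ioc (n - z) n).card : ℝ) * (H.card * D) ≤ n * (H.card * D) := by gcongr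
        _ = 2 * (q : ℝ) ^ n * ((n : ℝ) ^ (C₀ + 1) * (Real.exp L * Real.exp (-((C₀ + 3) * R)))) := by
            rw [← hD, hexpL]; ring
        _ ≤ 2 * (q : ℝ) ^ n * E := by
            rw [h1]
            gcongr
        _ = 2 * ((q : ℝ) ^ n * E) := by ring
    have hp3 : ∑ m ∈ Ioc (n - z) n, ((q : ℝ) ^ d * exc K z (m - d) (m - d)) ≤
        2 * (q : ℝ) ^ (q + 3) * ((q : ℝ) ^ n * E) := by
      have h1 : ∀ m ∈ Ioc (n - z) n, (q : ℝ) ^ d * (exc K z (m - d) (m - d) : ℝ) ≤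
          (q : ℝ) ^ (q + 3) * E * (q : ℝ) ^ m := by
        intro m hm
        rw [Finset.mem_Ioc] at hm
        have hdm : d ≤ m := by omega
        have hm1' : (n : ℝ) - z ≤ m := by
          have h4 : n ≤ m + z := by omega
          have h5 : (n : ℝ) ≤ m + z := by exact_mod_cast h4
          linarith
        have hw : ((m - d : ℕ) : ℝ) = m - d := Nat.cast_sub hdm
        have h2 := hsmoq z (m - d) (m - d) hz6 le_rfl
        rw [hw] at h2
        have h3 : J / 2 ≤ (m : ℝ) - d := by linarith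
        have h4 : κ * (J / R) ≤ ((m : ℝ) - d) / z := by
          rw [le_div_iff₀ hz0]
          calc κ * (J / R) * z ≤ κ * (J / R) * ((B + 1) * R) := by gcongr
            _ = (B + 1) * κ * J := by field_simp
            _ = J / 2 := by rw [hκB]; ring
            _ ≤ _ := h3
        have h5 : 0 ≤ ((m : ℝ) - d) / z := by
          have : 0 ≤ κ * (J / R) := by positivity
          linarith
        have h6 := rpow_le q (((m : ℝ) - d) / z) hq2' h5
        have h7 : Real.exp (-(Real.log 2 * (((m : ℝ) - d) / z))) ≤ E := by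
          rw [← hE]
          apply Real.exp_le_exp.2
          have h8 : c * (J / R) ≤ κ * Real.log 2 * (J / R) := by gcongr
          have h9 : Real.log 2 * (κ * (J / R)) ≤ Real.log 2 * (((m : ℝ) - d) / z) := by gcongr
          linarith
        calc (q : ℝ) ^ d * (exc K z (m - d) (m - d) : ℝ)
            ≤ (q : ℝ) ^ d * ((q : ℝ) ^ (q + 3) *
              (q : ℝ) ^ (((m : ℝ) - d) - ((m : ℝ) - d) / z)) := by gcongr
          _ = (q : ℝ) ^ (q + 3) * (q : ℝ) ^ (-(((m : ℝ) - d) / z)) * (q : ℝ) ^ m := by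
              have e2 : (q : ℝ) ^ (((m : ℝ) - d) - ((m : ℝ) - d) / z) =
                  (q : ℝ) ^ (m - d) * (q : ℝ) ^ (-(((m : ℝ) - d) / z)) := by
                rw [← hw, ← Real.rpow_natCast (q : ℝ) (m - d), ← Real.rpow_add hq0]
                congr 1
              have e3 : (q : ℝ) ^ m = (q : ℝ) ^ d * (q : ℝ) ^ (m - d) := by
                rw [← pow_add]; congr 1; omega
              rw [e2, e3]
              ring
          _ ≤ (q : ℝ) ^ (q + 3) * E * (q : ℝ) ^ m := by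
              have := h6.trans h7
              gcongr
      refine (Finset.sum_le_sum h1).trans ?_
      rw [← Finset.mul_sum]
      have h2 : ∑ m ∈ Ioc (n - z) n, (q : ℝ) ^ m ≤ 2 * (q : ℝ) ^ n := by
        refine le_trans ?_ (geo q hq2' n)
        refine Finset.sum_le_sum_of_subset_of_nonneg ?_ fun _ _ _ => by positivity
        intro m hm
        rw [Finset.mem_Ioc] at hm
        rw [Finset.mem_range]
        omega
      calc (q : ℝ) ^ (q + 3) * E * ∑ m ∈ Ioc (n - z) n, (q : ℝ) ^ m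
          ≤ (q : ℝ) ^ (q + 3) * E * (2 * (q : ℝ) ^ n) := by gcongr
        _ = _ := by ring
    rw [Finset.sum_add_distrib]
    have h4 : 0 ≤ Real.exp (2 * n₀ + 1 / κ) * ((q : ℝ) ^ n * E) := by positivity
    calc _ ≤ (q : ℝ) ^ n * E + (2 * ((q : ℝ) ^ n * E) +
          2 * (q : ℝ) ^ (q + 3) * ((q : ℝ) ^ n * E)) := add_le_add hp1 (add_le_add hp2 hp3)
      _ ≤ (Real.exp (2 * n₀ + 1 / κ) + (3 + 2 * (q : ℝ) ^ (q + 3))) * (q : ℝ) ^ n *
          E := by nlinarith
  · -- the trivial bound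
    have hmain := hchq n d 0 0 (fun m => m - d) (fun F => (a K F : ℝ)) H 0 hh mm haK
      (by omega) hH hhH hmm (fun m hm1 hm2 => absurd hm2 (by omega))
    rw [Nat.sub_zero, Finset.Ioc_self, Finset.sum_empty, add_zero] at hmain
    refine hmain.trans ?_
    have h1 : J / R ≤ 2 * n₀ + 1 / κ := by
      have hκ0 : 0 ≤ 1 / κ := by positivity
      have hn0' : (0 : ℝ) ≤ 2 * n₀ := by positivity
      by_cases h2 : 2 * (n₀ : ℝ) ≤ J
      · have h3 : κ * J < R := not_le.1 fun h => hcase ⟨h2, h⟩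
        have h4 : J / R ≤ 1 / κ := by
          rw [div_le_div_iff₀ hR0 hκ]
          linarith
        linarith
      · have h4 : J / R ≤ J := div_le_self hJ0.le hR1
        linarith
    have h2 : 1 ≤ Real.exp (2 * n₀ + 1 / κ) * E := by
      rw [← hE, ← Real.exp_add]
      refine Real.one_le_exp ?_
      nlinarith
    have h3 : 0 ≤ (3 + 2 * (q : ℝ) ^ (q + 3)) * ((q : ℝ) ^ n * E) := by positivity
    nlinarith

end Pool.Agent.H527.ME
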