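import Pool.Agent.H527.ME.Stm
import Pool.Agent.H524.Cw.Lio

/-!
# Task TYPL (helper955, for helper527): the typical part for the Liouville function
-/

set_option autoImplicit false

namespace Pool.Agent.H527.ME

open Polynomial Finset
open scoped Classical
open Pool.Agent.H985.KP (mobg)
open Pool.Agent.H694.Typ (Mn Irn mem_Mn mem_Irn card_Mn sq_bound q_ge)
open Pool.Agent.H251.SP (lam S_tii)
open Pool.Agent.H524.Cw (lio lio_ne lamD lamD_diff abs_lamD ML mem_ML msq Mn_add)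
open Pool.Agent.H524.Ext (sum_shift sum_dvd)

namespace Typl

variable {K : Type} [Field K] [Fintype K]

omit [Fintype K] in
theorem msq_eq (g F : K[X]) : msq g F = mobg g F := by
  unfold msq mobg
  by_cases h : g ^ 2 ∣ F
  · rw [if_pos h]
  · rw [if_neg h]

/-- The sum over the multiples `M k`, `M` of degree `d`. -/
theorem sum_mul_dv (n d : ℕ) (hd : d ≤ n) (F : K[X] → ℝ) :
    ∑ M ∈ Mn K d, ∑ k ∈ Mn K (n - d), F (M * k) = ∑ B ∈ Mn K n, (dv d B : ℝ) * F B := by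
  have h1 : ∀ M ∈ Mn K d, ∑ k ∈ Mn K (n - d), F (M * k) =
      ∑ B ∈ Mn K n, if M ∣ B then F B else 0 := by
    intro M hM
    obtain ⟨hm, hd'⟩ := mem_Mn.1 hM
    rw [← sum_filter, sum_dvd hm (by rw [hd']; exact hd), hd']
  rw [sum_congr rfl h1, sum_comm]
  refine sum_congr rfl fun B _ => ?_
  rw [← sum_filter, sum_const, nsmul_eq_mul]
  rfl

/-- The indicator of a large square divisor. -/
noncomputable def ind (G : ℕ) (F : K[X]) : ℝ :=
  if ∃ g : K[X], g.Monic ∧ G < g.natDegree ∧ g ^ 2 ∣ F then 1 else 0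

theorem tail (hdiv : S_div) {n d G : ℕ} (hd : d ≤ n) {h : K[X]} (hh : h.natDegree < n) :
    ∑ M ∈ Mn K d, ∑ k ∈ Mn K (n - d), ind G (M * k + h) ≤
      ((n : ℝ) + 1) * (Fintype.card K : ℝ) ^ n * √((1 / 2) ^ G) := by
  have hq := q_ge (k := K)
  rw [sum_mul_dv n d hd (fun B => ind G (B + h))]
  refine (Real.sum_mul_le_sqrt_mul_sqrt _ _ _).trans ?_
  have h1 : ∑ B ∈ Mn K n, (dv d B : ℝ) ^ 2 ≤ ((n : ℝ) + 1) * (Fintype.card K : ℝ) ^ n := by
    refine (hdiv K n d).trans (mul_le_mul_of_nonneg_right ?_ (by positivity))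
    have : (d : ℝ) ≤ n := by exact_mod_cast hd
    linarith
  have h2 : ∑ B ∈ Mn K n, ind G (B + h) ^ 2 ≤ (Fintype.card K : ℝ) ^ n * (1 / 2) ^ G := by
    rw [sum_shift hh (fun B => ind G B ^ 2)]
    refine le_trans (le_of_eq ?_) (sq_bound n G)
    rw [card_filter]
    push_cast
    refine sum_congr rfl fun B _ => ?_
    unfold ind
    split_ifs <;> norm_num
  calc √(∑ B ∈ Mn K n, (dv d B : ℝ) ^ 2) * √(∑ B ∈ Mn K n, ind G (B + h) ^ 2)
      ≤ √(((n : ℝ) + 1) * (Fintype.card K : ℝ) ^ n) *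
        √((Fintype.card K : ℝ) ^ n * (1 / 2) ^ G) :=
        mul_le_mul (Real.sqrt_le_sqrt h1) (Real.sqrt_le_sqrt h2) (Real.sqrt_nonneg _)
          (Real.sqrt_nonneg _)
    _ = √((n : ℝ) + 1) * (√((Fintype.card K : ℝ) ^ n) * √((Fintype.card K : ℝ) ^ n)) *
        √((1 / 2) ^ G) := by
        rw [Real.sqrt_mul (by positivity), Real.sqrt_mul (by positivity)]
        ring
    _ = √((n : ℝ) + 1) * (Fintype.card K : ℝ) ^ n * √((1 / 2) ^ G) := by
        rw [Real.mul_self_sqrt (by positivity)]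
    _ ≤ _ := by
        have h3 : √((n : ℝ) + 1) ≤ (n : ℝ) + 1 := by
          rw [Real.sqrt_le_left (by positivity)]
          have : (0 : ℝ) ≤ n := Nat.cast_nonneg n
          nlinarith
        have h4 := Real.sqrt_nonneg ((1 / 2 : ℝ) ^ G)
        gcongr

/-- The truncated Liouville function at `B + h`. -/
noncomputable def phi (G : ℕ) (h B : K[X]) : ℝ :=
  if (B + h).Monic then (lamD G (B + h) : ℝ) else 0

theorem abs_phi (G : ℕ) (h B : K[X]) : |phi G h B| ≤ 1 := by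
  unfold phi
  split_ifs with hm
  · exact abs_lamD G hm
  · simp

theorem tii_phi {n i G : ℕ} {h : K[X]} {E : ℝ} (hi : i ≤ n) (hh : h.natDegree < n)
    (α β : K[X] → ℝ)
    (H : ∀ g : K[X], g.Monic → g.natDegree ≤ G →
      |∑ p ∈ Irn K i, ∑ B ∈ Mn K (n - i), α p * β B * (mobg g (p * B + h) : ℝ)| ≤ E) :
    |∑ p ∈ Irn K i, ∑ B ∈ Mn K (n - i), α p * β B * phi G h (p * B)| ≤
      ((ML K G).card : ℝ) * E := by
  have h1 : ∑ p ∈ Irn K i, ∑ B ∈ Mn K (n - i), α p * β B * phi G h (p * B) =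
      ∑ g ∈ ML K G, ∑ p ∈ Irn K i, ∑ B ∈ Mn K (n - i),
        α p * β B * (mobg g (p * B + h) : ℝ) := by
    symm
    rw [sum_comm]
    refine sum_congr rfl fun p hp => ?_
    rw [sum_comm]
    refine sum_congr rfl fun B hB => ?_
    obtain ⟨hp1, hp2, -⟩ := mem_Irn.1 hp
    obtain ⟨hB1, hB2⟩ := mem_Mn.1 hB
    have hmem : p * B ∈ Mn K n :=
      mem_Mn.2 ⟨hp1.mul hB1, by rw [hp1.natDegree_mul hB1, hp2, hB2]; omega⟩
    have hmon := (mem_Mn.1 (Mn_add hh hmem)).1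
    unfold phi
    rw [if_pos hmon]
    unfold lamD
    push_cast
    rw [mul_sum]
    exact sum_congr rfl fun g _ => by rw [msq_eq]
  rw [h1]
  refine (abs_sum_le_sum_abs _ _).trans ?_
  refine (sum_le_sum fun g hg => H g (mem_ML.1 hg).1 (mem_ML.1 hg).2).trans ?_
  rw [sum_const, nsmul_eq_mul]

theorem card_ML (G : ℕ) : ((ML K G).card : ℝ) ≤ 2 * (Fintype.card K : ℝ) ^ G := by
  have hq := q_ge (k := K)
  have h1 : ((ML K G).card : ℝ) ≤ ∑ j ∈ range (G + 1), (Fintype.card K : ℝ) ^ j := by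
    have h2 : (ML K G).card ≤ ∑ j ∈ range (G + 1), (Mn K j).card := by
      unfold ML
      exact card_biUnion_le
    have h3 : ((ML K G).card : ℝ) ≤ ((∑ j ∈ range (G + 1), (Mn K j).card : ℕ) : ℝ) := by
      exact_mod_cast h2
    refine h3.trans (le_of_eq ?_)
    push_cast
    refine sum_congr rfl fun j _ => ?_
    rw [card_Mn]
    push_cast
    rfl
  refine h1.trans ?_
  clear h1
  induction G with
  | zero => simp
  | succ G ih =>
    rw [sum_range_succ]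
    have h4 : (0 : ℝ) ≤ (Fintype.card K : ℝ) ^ G := by positivity
    have h5 : (Fintype.card K : ℝ) ^ (G + 1) = (Fintype.card K : ℝ) * (Fintype.card K : ℝ) ^ G := by
      ring
    rw [h5]
    nlinarith

/-- From the truncated function to the Liouville function. -/
theorem diff (hdiv : S_div) {n d z w G : ℕ} (hd : d ≤ n) {h : K[X]} (hh : h.natDegree < n)
    (f u : K[X] → ℝ) (hf : ∀ k, |f k| ≤ 1) (hu : ∀ M, |u M| ≤ 1) :
    |∑ M ∈ Mn K d, u M * ∑ k ∈ (Mn K (n - d)).filter (fun k => om z w k ≠ 0),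
        f k * (lamF K (M * k + h) : ℝ)| ≤
      |∑ M ∈ Mn K d, u M * ∑ k ∈ (Mn K (n - d)).filter (fun k => om z w k ≠ 0),
        f k * phi G h (M * k)| +
      ((n : ℝ) + 1) * (Fintype.card K : ℝ) ^ n * √((1 / 2) ^ G) := by
  have h1 : ∑ M ∈ Mn K d, u M * ∑ k ∈ (Mn K (n - d)).filter (fun k => om z w k ≠ 0),
        f k * (lamF K (M * k + h) : ℝ) =
      ∑ M ∈ Mn K d, u M * ∑ k ∈ (Mn K (n - d)).filter (fun k => om z w k ≠ 0),
        f k * phi G h (M * k) +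
      ∑ M ∈ Mn K d, u M * ∑ k ∈ (Mn K (n - d)).filter (fun k => om z w k ≠ 0),
        f k * ((lamF K (M * k + h) : ℝ) - phi G h (M * k)) := by
    rw [← sum_add_distrib]
    refine sum_congr rfl fun M _ => ?_
    rw [← mul_add, ← sum_add_distrib]
    congr 1
    refine sum_congr rfl fun k _ => ?_
    ring
  rw [h1]
  refine (abs_add_le _ _).trans (add_le_add le_rfl ?_)
  refine le_trans ?_ (tail (G := G) hdiv hd hh)
  refine (abs_sum_le_sum_abs _ _).trans (sum_le_sum fun M hM => ?_)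
  rw [abs_mul]
  refine (mul_le_of_le_one_left (abs_nonneg _) (hu M)).trans ?_
  refine (abs_sum_le_sum_abs _ _).trans ?_
  refine le_trans ?_ (sum_le_sum_of_subset_of_nonneg
    (filter_subset (fun k => om z w k ≠ 0) (Mn K (n - d))) fun k _ _ => ?_)
  · refine sum_le_sum fun k hk => ?_
    rw [abs_mul]
    refine (mul_le_of_le_one_left (abs_nonneg _) (hf k)).trans ?_
    obtain ⟨hM1, hM2⟩ := mem_Mn.1 hM
    obtain ⟨hk1, hk2⟩ := mem_Mn.1 (mem_filter.1 hk).1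
    have hmem : M * k ∈ Mn K n :=
      mem_Mn.2 ⟨hM1.mul hk1, by rw [hM1.natDegree_mul hk1, hM2, hk2]; omega⟩
    have hmon := (mem_Mn.1 (Mn_add hh hmem)).1
    have h2 : (lamF K (M * k + h) : ℝ) = (lio (M * k + h) : ℝ) := by
      rw [lio_ne hmon.ne_zero]
      rfl
    rw [h2]
    unfold phi
    rw [if_pos hmon]
    exact lamD_diff G hmon
  · unfold ind
    split_ifs <;> norm_num

end Typl

open Typl in
/-- **Task TYPL.** -/
theorem typl : S_typl := by
  intro htii hgen hdiv K _ _ _ ε hε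
  obtain ⟨C, c, hc, n₀, H⟩ := htii K ε hε
  obtain ⟨q, hq⟩ : ∃ q : ℝ, q = (Fintype.card K : ℝ) := ⟨_, rfl⟩
  have hq2 : 2 ≤ q := by rw [hq]; exact q_ge (k := K)
  have hq1 : 1 ≤ q := by linarith
  have hq0 : 0 < q := by linarith
  obtain ⟨κ, hκd⟩ : ∃ κ : ℝ, κ = Real.logb q 2 := ⟨_, rfl⟩
  have hκ0 : 0 < κ := by rw [hκd]; exact Real.logb_pos (by linarith) (by norm_num)
  have hκ : q ^ κ = 2 := by
    rw [hκd]
    exact Real.rpow_logb hq0 (by linarith) (by norm_num)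
  have hκ1 : κ ≤ 1 := by
    rw [hκd, Real.logb_le_iff_le_rpow (by linarith) (by norm_num), Real.rpow_one]
    exact hq2
  obtain ⟨c', hc'⟩ : ∃ c' : ℝ, c' = κ * min (1 / 400) (c / 16) := ⟨_, rfl⟩
  have hm0 : 0 < min (1 / 400 : ℝ) (c / 16) := lt_min (by norm_num) (by positivity)
  have hc'0 : 0 < c' := by rw [hc']; positivity
  have hc'1 : c' ≤ κ * (1 / 400) := by
    rw [hc']
    exact mul_le_mul_of_nonneg_left (min_le_left _ _) hκ0.le
  have hc'2 : c' ≤ κ * (c / 16) := by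
    rw [hc']
    exact mul_le_mul_of_nonneg_left (min_le_right _ _) hκ0.le
  have hc'3 : c' ≤ 1 / 400 := by linarith
  have hc'4 : c' ≤ c / 16 := hc'2.trans (mul_le_of_le_one_left (by positivity) hκ1)
  have mono : ∀ a b : ℝ, a ≤ b → q ^ a ≤ q ^ b := fun a b hab =>
    Real.rpow_le_rpow_of_exponent_le hq1 hab
  refine ⟨C + 6, c', hc'0, max n₀ 2, ?_⟩
  intro n hn d z w h f u hz hdw hw hh0 hh hmul hf hu
  have hn0 : n₀ ≤ n := (le_max_left _ _).trans hn
  have hn2 : 2 ≤ n := (le_max_right _ _).trans hn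
  have hn2' : (2 : ℝ) ≤ n := by exact_mod_cast hn2
  have hz0 : (0 : ℝ) ≤ z := Nat.cast_nonneg z
  have hcn : 0 < c * n := by positivity
  obtain ⟨m, hm⟩ : ∃ m : ℝ, m = min ((z : ℝ) / 200) (c * n / 8) := ⟨_, rfl⟩
  have hm1 : m ≤ (z : ℝ) / 200 := by rw [hm]; exact min_le_left _ _
  have hm2 : m ≤ c * n / 8 := by rw [hm]; exact min_le_right _ _
  have hmnn : 0 ≤ m := by rw [hm]; exact le_min (by positivity) (by positivity)
  obtain ⟨t, ht⟩ : ∃ t : ℝ, t = min ((z : ℝ) / 64) (c * n / 2) := ⟨_, rfl⟩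
  have ht1 : t ≤ (z : ℝ) / 64 := by rw [ht]; exact min_le_left _ _
  have ht2 : t ≤ c * n / 2 := by rw [ht]; exact min_le_right _ _
  have htnn : 0 ≤ t := by rw [ht]; exact le_min (by positivity) (by positivity)
  obtain ⟨G, hG⟩ : ∃ G : ℕ, G = ⌊m⌋₊ := ⟨_, rfl⟩
  have hG1 : (G : ℝ) ≤ m := by rw [hG]; exact Nat.floor_le hmnn
  have hG2 : m < G + 1 := by rw [hG]; exact Nat.lt_floor_add_one m
  obtain ⟨S, hS⟩ : ∃ S : ℝ, S = q ^ (-c' * z) + q ^ (-c' * n) := ⟨_, rfl⟩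
  have hSz : q ^ (-c' * z) ≤ S := by
    rw [hS]
    have : 0 < q ^ (-c' * (n : ℝ)) := Real.rpow_pos_of_pos hq0 _
    linarith
  have hSn : q ^ (-c' * n) ≤ S := by
    rw [hS]
    have : 0 < q ^ (-c' * (z : ℝ)) := Real.rpow_pos_of_pos hq0 _
    linarith
  have hS0 : 0 ≤ S := le_trans (Real.rpow_nonneg hq0.le _) hSz
  have hcz : c' * z ≤ z / 400 := by
    have := mul_le_mul_of_nonneg_right hc'3 hz0
    linarith
  have hccn : c' * n ≤ c * n / 16 := by
    have := mul_le_mul_of_nonneg_right hc'4 (Nat.cast_nonneg n : (0 : ℝ) ≤ n)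
    linarith
  -- the type II bound
  obtain ⟨E, hE⟩ : ∃ E : ℝ, E = (n : ℝ) ^ C * (q ^ (-(z : ℝ) / 32) + q ^ (-c * n)) := ⟨_, rfl⟩
  have hE0 : 0 ≤ E := by
    rw [hE]
    have h1 := Real.rpow_nonneg hq0.le (-(z : ℝ) / 32)
    have h2 := Real.rpow_nonneg hq0.le (-c * (n : ℝ))
    positivity
  have hTII : ∀ i ∈ Icc z w, TII n i (((ML K G).card : ℝ) * E) (phi G h) := by
    intro i hi α β hα hβ
    rw [mem_Icc] at hi
    have h1 := tii_phi (G := G) (h := h) (n := n) (i := i) (E := E * (Fintype.card K : ℝ) ^ n)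
      (by omega) hh α β (by
        intro g hg hgd
        have h2 : (g.natDegree : ℝ) ≤ c * n := by
          have : (g.natDegree : ℝ) ≤ G := by exact_mod_cast hgd
          linarith
        have h3 : (i : ℝ) ≤ (1 / 4 - ε) * n := by
          have : (i : ℝ) ≤ w := by exact_mod_cast hi.2
          linarith
        refine (H n hn0 i h g α β (by omega) h3 hh0 hh hg h2 hα hβ).trans ?_
        rw [← hq, hE]
        have h4 : q ^ (-(i : ℝ) / 32) ≤ q ^ (-(z : ℝ) / 32) := by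
          apply mono
          have : (z : ℝ) ≤ i := by exact_mod_cast hi.1
          linarith
        have h5 : (0 : ℝ) ≤ (n : ℝ) ^ C * q ^ n := by positivity
        calc (n : ℝ) ^ C * q ^ n * (q ^ (-(i : ℝ) / 32) + q ^ (-c * (n : ℝ)))
            ≤ (n : ℝ) ^ C * q ^ n * (q ^ (-(z : ℝ) / 32) + q ^ (-c * (n : ℝ))) :=
              mul_le_mul_of_nonneg_left (by linarith) h5
          _ = _ := by ring)
    refine h1.trans (le_of_eq (by ring))
  have hT1 : 1 ≤ q ^ t := Real.one_le_rpow hq1 htnn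
  have hcard0 : (0 : ℝ) ≤ ((ML K G).card : ℝ) := Nat.cast_nonneg _
  have key := hgen K n d z w (q ^ t) (((ML K G).card : ℝ) * E) (phi G h) f u hz hdw hT1
    (mul_nonneg hcard0 hE0) (abs_phi G h) hmul hf hu hTII
  have hdiff := diff (z := z) (w := w) (G := G) hdiv (by omega : d ≤ n) hh f u hf hu
  rw [← hq] at key hdiff
  rw [← hq]
  -- `T Δ`
  have hTD : q ^ t * (((ML K G).card : ℝ) * E) ≤ 2 * (n : ℝ) ^ C * S := by
    have h1 : ((ML K G).card : ℝ) ≤ 2 * q ^ m := by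
      refine (card_ML G).trans ?_
      rw [← hq, ← Real.rpow_natCast]
      exact mul_le_mul_of_nonneg_left (mono _ _ hG1) (by norm_num)
    have hqt : 0 ≤ q ^ t := Real.rpow_nonneg hq0.le _
    have h2 : q ^ t * q ^ m * q ^ (-(z : ℝ) / 32) ≤ q ^ (-c' * z) := by
      rw [← Real.rpow_add hq0, ← Real.rpow_add hq0]
      apply mono
      linarith
    have h3 : q ^ t * q ^ m * q ^ (-c * (n : ℝ)) ≤ q ^ (-c' * n) := by
      rw [← Real.rpow_add hq0, ← Real.rpow_add hq0]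
      apply mono
      linarith
    calc q ^ t * (((ML K G).card : ℝ) * E) ≤ q ^ t * (2 * q ^ m * E) := by gcongr
      _ = 2 * (n : ℝ) ^ C * (q ^ t * q ^ m * q ^ (-(z : ℝ) / 32) +
          q ^ t * q ^ m * q ^ (-c * (n : ℝ))) := by rw [hE]; ring
      _ ≤ 2 * (n : ℝ) ^ C * (q ^ (-c' * z) + q ^ (-c' * n)) :=
          mul_le_mul_of_nonneg_left (add_le_add h2 h3) (by positivity)
      _ = _ := by rw [hS]
  -- `1 / T`
  have hTi : ((n : ℝ) + 1) / q ^ t ≤ ((n : ℝ) + 1) * S := by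
    rw [div_eq_mul_inv, ← Real.rpow_neg hq0.le]
    refine mul_le_mul_of_nonneg_left ?_ (by positivity)
    rcases min_choice ((z : ℝ) / 64) (c * n / 2) with h1 | h1
    · rw [ht, h1]
      refine (mono _ _ ?_).trans hSz
      linarith
    · rw [ht, h1]
      refine (mono _ _ ?_).trans hSn
      linarith
  -- the term of the squares
  have hqz : q ^ ((n : ℝ) - z) ≤ q ^ n * S := by
    rw [sub_eq_add_neg, Real.rpow_add hq0, Real.rpow_natCast]
    refine mul_le_mul_of_nonneg_left ?_ (by positivity)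
    refine (mono _ _ ?_).trans hSz
    linarith
  -- the tail
  have hsq : √((1 / 2 : ℝ) ^ G) ≤ 2 * S := by
    have h1 : ((1 / 2 : ℝ)) ^ G = q ^ (-(κ * G)) := by
      rw [Real.rpow_neg hq0.le, Real.rpow_mul hq0.le, hκ, Real.rpow_natCast, one_div, inv_pow]
    have h2 : q ^ (-(κ * G)) ≤ 2 * q ^ (-(κ * m)) := by
      have h3 : q ^ (-(κ * (G : ℝ))) ≤ q ^ (κ + -(κ * m)) := by
        apply mono
        have := mul_le_mul_of_nonneg_left hG2.le hκ0.le
        linarith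
      rwa [Real.rpow_add hq0, hκ] at h3
    have h4 : √((1 / 2 : ℝ) ^ G) ≤ 2 * q ^ (-(κ * m) / 2) := by
      rw [Real.sqrt_le_left (by positivity), h1, mul_pow, ← Real.rpow_natCast (q ^ (-(κ * m) / 2)) 2,
        ← Real.rpow_mul hq0.le]
      have e : -(κ * m) / 2 * ((2 : ℕ) : ℝ) = -(κ * m) := by push_cast; ring
      rw [e]
      refine h2.trans ?_
      have : 0 ≤ q ^ (-(κ * m)) := Real.rpow_nonneg hq0.le _
      linarith
    refine h4.trans (mul_le_mul_of_nonneg_left ?_ (by norm_num))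
    have h5 : c' * z ≤ κ * (1 / 400) * z := mul_le_mul_of_nonneg_right hc'1 hz0
    have h6 : c' * n ≤ κ * (c / 16) * n := mul_le_mul_of_nonneg_right hc'2 (Nat.cast_nonneg n)
    rcases min_choice ((z : ℝ) / 200) (c * n / 8) with h1 | h1
    · rw [hm, h1]
      refine (mono _ _ ?_).trans hSz
      linarith
    · rw [hm, h1]
      refine (mono _ _ ?_).trans hSn
      linarith
  -- the sum
  have hqn : 0 ≤ q ^ n := by positivity
  have hfin : (n : ℝ) * (2 * (n : ℝ) ^ C + (n + 1)) + 4 + 2 * (n + 1) ≤ (n : ℝ) ^ (C + 6) := by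
    have ha : (1 : ℝ) ≤ (n : ℝ) ^ (C + 1) := one_le_pow₀ (by linarith)
    have hb : (n : ℝ) ^ 2 + 3 * n + 8 ≤ (n : ℝ) ^ 5 := by
      have h1 : (n : ℝ) ^ 5 = (n : ℝ) ^ 2 * (n : ℝ) ^ 3 := by ring
      have h2 : (2 : ℝ) ^ 3 ≤ (n : ℝ) ^ 3 := pow_le_pow_left₀ (by norm_num) hn2' 3
      have h3 : (n : ℝ) ^ 2 * 8 ≤ (n : ℝ) ^ 2 * (n : ℝ) ^ 3 :=
        mul_le_mul_of_nonneg_left (by linarith) (by positivity)
      nlinarith
    have e1 : (n : ℝ) ^ (C + 6) = (n : ℝ) ^ 5 * (n : ℝ) ^ (C + 1) := by ring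
    have e2 : (n : ℝ) * (2 * (n : ℝ) ^ C + (n + 1)) + 4 + 2 * (n + 1) =
        2 * (n : ℝ) ^ (C + 1) + ((n : ℝ) ^ 2 + 3 * n + 6) := by ring
    rw [e1, e2]
    have h4 := mul_le_mul_of_nonneg_right hb (by linarith : (0 : ℝ) ≤ (n : ℝ) ^ (C + 1))
    have h5 : (0 : ℝ) ≤ (n : ℝ) ^ 2 + 3 * n + 6 := by positivity
    have h6 := mul_le_mul_of_nonneg_left ha h5
    linarith
  calc _ ≤ _ := hdiff
    _ ≤ (n * (q ^ t * (((ML K G).card : ℝ) * E) + (n + 1) / q ^ t) * q ^ n +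
        4 * q ^ ((n : ℝ) - z)) + ((n : ℝ) + 1) * q ^ n * √((1 / 2) ^ G) :=
        add_le_add key le_rfl
    _ ≤ (n * (2 * (n : ℝ) ^ C * S + ((n : ℝ) + 1) * S) * q ^ n + 4 * (q ^ n * S)) +
        ((n : ℝ) + 1) * q ^ n * (2 * S) := by gcongr
    _ = (q ^ n * S) * ((n : ℝ) * (2 * (n : ℝ) ^ C + (n + 1)) + 4 + 2 * (n + 1)) := by ring
    _ ≤ (q ^ n * S) * (n : ℝ) ^ (C + 6) :=
        mul_le_mul_of_nonneg_left hfin (mul_nonneg hqn hS0)
    _ = _ := by rw [hS]; ring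

end Pool.Agent.H527.ME
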