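import Pool.Agent.H527.ME.Stm

/-! Task TYPM of project ME (helper665). -/

set_option autoImplicit false

namespace Pool.Agent.H527.ME

open Polynomial Finset
open scoped Classical
open Pool.Agent.H985.Chow (mob)
open Pool.Agent.H985.KP (mobg)
open Pool.Agent.H694.Typ (Mn Irn)
open Pool.Agent.H251.SP (lam S_tii)

theorem typm_mob_le {K : Type} [Field K] (F : K[X]) : |(mob F : ℝ)| ≤ 1 := by
  unfold mob
  split_ifs
  · push_cast
    rw [abs_neg_one_pow]
  · simp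

theorem typm_mobg_one {K : Type} [Field K] (F : K[X]) : mobg 1 F = mob F := by
  unfold mobg
  rw [one_pow, if_pos (one_dvd F)]
  congr 1
  exact EuclideanDomain.div_one F

theorem typm : S_typm := by
  intro htii hgen K _ _ _ ε hε
  obtain ⟨C, c, hc, n₀, H⟩ := htii K ε hε
  set q : ℝ := (Fintype.card K : ℝ) with hq
  have hq2 : (2 : ℝ) ≤ q := Pool.Agent.H694.Typ.q_ge (k := K)
  have hq1 : (1 : ℝ) ≤ q := by linarith
  have hq0 : (0 : ℝ) < q := by linarith
  refine ⟨C + 4, min (1 / 64) (c / 2), lt_min (by norm_num) (by linarith), max n₀ 2, ?_⟩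
  intro n hn d z w h f u hz hdw hw hh hhn hf hf1 hu1
  have hn0 : n₀ ≤ n := le_trans (le_max_left _ _) hn
  have hn2 : 2 ≤ n := le_trans (le_max_right _ _) hn
  have hn2' : (2 : ℝ) ≤ (n : ℝ) := by exact_mod_cast hn2
  have hnpos : (0 : ℝ) ≤ (n : ℝ) := by linarith
  have hzr : (0 : ℝ) ≤ (z : ℝ) := Nat.cast_nonneg z
  set t : ℝ := min ((z : ℝ) / 64) (c * n / 2) with ht
  have ht0 : 0 ≤ t := le_min (by positivity) (by positivity)
  have ht1 : t ≤ (z : ℝ) / 64 := min_le_left _ _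
  have ht2 : t ≤ c * n / 2 := min_le_right _ _
  set Δ : ℝ := (n : ℝ) ^ C * (q ^ (-(z : ℝ) / 32) + q ^ (-c * n)) with hΔ
  have hΔ0 : 0 ≤ Δ := by positivity
  have hT1 : (1 : ℝ) ≤ q ^ t := Real.one_le_rpow hq1 ht0
  have hTII : ∀ i ∈ Icc z w, TII n i Δ (fun B : K[X] => (mob (B + h) : ℝ)) := by
    intro i hi α β hα hβ
    rw [mem_Icc] at hi
    have hiw : (i : ℝ) ≤ (w : ℝ) := by exact_mod_cast hi.2
    have hzi : (z : ℝ) ≤ (i : ℝ) := by exact_mod_cast hi.1
    have h1 := H n hn0 i h 1 α β (le_trans hz hi.1) (hiw.trans hw) hh hhn monic_one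
      (by rw [natDegree_one, Nat.cast_zero]; positivity) hα hβ
    have e1 : ∑ p ∈ Irn K i, ∑ B ∈ Mn K (n - i), α p * β B * (mobg 1 (p * B + h) : ℝ) =
        ∑ p ∈ Irn K i, ∑ B ∈ Mn K (n - i), α p * β B * (mob (p * B + h) : ℝ) := by
      refine sum_congr rfl fun p _ => sum_congr rfl fun B _ => ?_
      rw [typm_mobg_one]
    rw [e1] at h1
    refine h1.trans ?_
    have h2 : q ^ (-(i : ℝ) / 32) ≤ q ^ (-(z : ℝ) / 32) :=
      Real.rpow_le_rpow_of_exponent_le hq1 (by linarith)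
    rw [hΔ, mul_right_comm]
    refine mul_le_mul_of_nonneg_right ?_ (by positivity)
    exact mul_le_mul_of_nonneg_left (by linarith) (by positivity)
  have h3 := hgen K n d z w (q ^ t) Δ (fun B : K[X] => (mob (B + h) : ℝ)) f u hz hdw hT1 hΔ0
    (fun B => typm_mob_le _) hf hf1 hu1 hTII
  have h4 : |∑ M ∈ Mn K d, u M * ∑ k ∈ (Mn K (n - d)).filter (fun k => om z w k ≠ 0),
      f k * (mobF K (M * k + h) : ℝ)| ≤ n * (q ^ t * Δ + (n + 1) / q ^ t) * q ^ n +
        4 * q ^ ((n : ℝ) - z) := h3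
  refine h4.trans ?_
  set E : ℝ := q ^ (-(z : ℝ) / 64) + q ^ (-(c * n / 2)) with hE
  have a1 : 0 < q ^ (-(z : ℝ) / 64) := Real.rpow_pos_of_pos hq0 _
  have a2 : 0 < q ^ (-(c * n / 2)) := Real.rpow_pos_of_pos hq0 _
  have hE0 : 0 < E := by positivity
  have b1 : q ^ t * Δ ≤ (n : ℝ) ^ C * E := by
    have e1 : q ^ t * Δ = (n : ℝ) ^ C * (q ^ (t + -(z : ℝ) / 32) + q ^ (t + -c * n)) := by
      rw [Real.rpow_add hq0, Real.rpow_add hq0, hΔ]
      ring
    rw [e1]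
    refine mul_le_mul_of_nonneg_left (add_le_add ?_ ?_) (by positivity)
    · exact Real.rpow_le_rpow_of_exponent_le hq1 (by linarith)
    · exact Real.rpow_le_rpow_of_exponent_le hq1 (by linarith)
  have b2 : (n + 1) / q ^ t ≤ (n + 1) * E := by
    rw [div_eq_mul_inv, ← Real.rpow_neg hq0.le]
    refine mul_le_mul_of_nonneg_left ?_ (by positivity)
    rcases min_choice ((z : ℝ) / 64) (c * n / 2) with h5 | h5
    · rw [ht, h5, show -((z : ℝ) / 64) = -(z : ℝ) / 64 by ring]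
      linarith
    · rw [ht, h5]
      linarith
  have b3 : q ^ ((n : ℝ) - z) ≤ q ^ n * E := by
    rw [Real.rpow_sub hq0, Real.rpow_natCast, div_eq_mul_inv, ← Real.rpow_neg hq0.le]
    refine mul_le_mul_of_nonneg_left ?_ (by positivity)
    have h5 : q ^ (-(z : ℝ)) ≤ q ^ (-(z : ℝ) / 64) :=
      Real.rpow_le_rpow_of_exponent_le hq1 (by linarith)
    linarith
  have b4 : E ≤ q ^ (-(min (1 / 64) (c / 2)) * (z : ℝ)) + q ^ (-(min (1 / 64) (c / 2)) * (n : ℝ)) := by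
    refine add_le_add ?_ ?_
    · refine Real.rpow_le_rpow_of_exponent_le hq1 ?_
      have h5 : min (1 / 64) (c / 2) ≤ 1 / 64 := min_le_left _ _
      nlinarith
    · refine Real.rpow_le_rpow_of_exponent_le hq1 ?_
      have h5 : min (1 / 64) (c / 2) ≤ c / 2 := min_le_right _ _
      nlinarith
  have hqn : 0 < q ^ n := by positivity
  have hnC : (1 : ℝ) ≤ (n : ℝ) ^ C := one_le_pow₀ (by linarith)
  have b5 : (n : ℝ) * ((n : ℝ) ^ C + (n + 1)) + 4 ≤ (n : ℝ) ^ (C + 4) := by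
    rw [pow_add]
    set a := (n : ℝ) ^ C
    set x := (n : ℝ)
    have h6 : 0 ≤ x * (x ^ 3 - 1) := by
      have : 1 ≤ x ^ 3 := one_le_pow₀ (by linarith)
      exact mul_nonneg hnpos (by linarith)
    have h7 : x * (x ^ 3 - 1) ≤ a * (x * (x ^ 3 - 1)) := by nlinarith
    have h8 : x ^ 2 + x + 4 ≤ x * (x ^ 3 - 1) := by
      have h10 : 4 ≤ x ^ 2 := by nlinarith
      have h9 : 4 * x ^ 2 ≤ x ^ 2 * x ^ 2 := mul_le_mul_of_nonneg_right h10 (sq_nonneg x)
      have h11 : x * (x ^ 3 - 1) = x ^ 2 * x ^ 2 - x := by ring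
      rw [h11]
      nlinarith
    have h12 : a * (x * (x ^ 3 - 1)) = a * x ^ 4 - a * x := by ring
    have h13 : x * (a + (x + 1)) + 4 = a * x + (x ^ 2 + x + 4) := by ring
    rw [h12] at h7
    rw [h13]
    linarith
  calc (n : ℝ) * (q ^ t * Δ + (n + 1) / q ^ t) * q ^ n + 4 * q ^ ((n : ℝ) - z)
      ≤ n * ((n : ℝ) ^ C * E + (n + 1) * E) * q ^ n + 4 * (q ^ n * E) := by
        refine add_le_add ?_ (by linarith)
        refine mul_le_mul_of_nonneg_right ?_ hqn.le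
        exact mul_le_mul_of_nonneg_left (add_le_add b1 b2) hnpos
    _ = ((n : ℝ) * ((n : ℝ) ^ C + (n + 1)) + 4) * (q ^ n * E) := by ring
    _ ≤ (n : ℝ) ^ (C + 4) * (q ^ n * E) :=
        mul_le_mul_of_nonneg_right b5 (by positivity)
    _ = (n : ℝ) ^ (C + 4) * q ^ n * E := by ring
    _ ≤ _ := mul_le_mul_of_nonneg_left b4 (by positivity)

end Pool.Agent.H527.ME
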